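import Mathlib
import Pool.Agent.Lib.MP_209724_lc.HS.Branch

/-!
# Systems with few equations: definitions

`(ξ, η)` is a generic point of a variety `V ⊆ ℂⁿ × (ℂ*)ⁿ`, in a field `Ω ⊇ ℂ`; `td` is the transcendence
degree over `ℂ` of a set (rank in the algebraic matroid), `cl` the algebraic closure.
-/

namespace Pool.Agent.Lib.MP_209724_lc.CT

open MvPolynomial AlgebraicIndependent
open OV (cl td lin mon HasExp IsConst)

variable {Ω : Type} [Field Ω] [Algebra ℂ Ω] {n : ℕ}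

/-- The forms `lin m ξ`, `m ∈ S`, and the monomials `mon m η`, `m ∈ T`. -/
def st (ξ η : Fin n → Ω) (S T : Set (Fin n → ℤ)) : Set Ω :=
  (fun m => lin m ξ) '' S ∪ (fun m => mon m η) '' T

/-- Rotundity. -/
def Rot (ξ η : Fin n → Ω) : Prop :=
  ∀ (r : ℕ) (v : Fin r → Fin n → ℤ), LinearIndependent ℤ v →
    (r : ℕ∞) ≤ td (st ξ η (Set.range v) (Set.range v))

/-- The vector `(1, -a₁, …, -aₙ)`. -/
def slv (a : Fin n → ℕ) : Fin (n + 1) → ℤ := Fin.cons 1 fun j => -(a j : ℤ)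

/-- The vector `(0, v₁, …, vₙ)`. -/
def ext (v : Fin n → ℤ) : Fin (n + 1) → ℤ := Fin.cons 0 v

/-- The relations of `ζ` over `ℂ` are generated by relations with coefficients in `K`. -/
def DefOver (K : Type) [Field K] [Algebra K ℂ] {κ : Type} (ζ : κ → Ω) : Prop :=
  ∀ f : MvPolynomial κ ℂ, aeval ζ f = 0 →
    f ∈ Ideal.span (map (algebraMap K ℂ) ''
      {g : MvPolynomial κ K | aeval ζ (map (algebraMap K ℂ) g) = 0})

/-- The sets `d m`, `m ∈ ℤⁿ`, are compatible with sums and multiples, up to algebraic closure. -/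
structure IsLat (d : (Fin n → ℤ) → Set Ω) : Prop where
  add : ∀ m m', d (m + m') ⊆ cl (d m ∪ d m')
  smul : ∀ (k : ℤ) m, d (k • m) ⊆ cl (d m)
  div : ∀ (k : ℤ) m, k ≠ 0 → d m ⊆ cl (d (k • m))

/-- The union of the `d m`, `m` an integral vector of the rational space `A`. -/
def D (d : (Fin n → ℤ) → Set Ω) (A : Submodule ℚ (Fin n → ℚ)) : Set Ω :=
  ⋃ m ∈ {m : Fin n → ℤ | (fun i => (m i : ℚ)) ∈ A}, d m

end Pool.Agent.Lib.MP_209724_lc.CT
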