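import Mathlib
import Pool.Agent.Lib.MP_209724_lc.CT.Defs

section

namespace Pool.Agent.Lib.MP_209724_lc.CT

open MvPolynomial

/-- A transcendental number. (Cardinality: the numbers which are algebraic over a countable field form a
countable set.) -/
theorem exists_transc (K : Subfield ℂ) (hK : (K : Set ℂ).Countable) :
    ∃ a : ℂ, AlgebraicIndependent K fun _ : Unit => a := by
  have hc : Countable K := hK
  have h1 : Set.Countable {x : ℂ | IsAlgebraic K x} := Algebraic.countable K ℂ
  have h2 : ∃ a : ℂ, ¬ IsAlgebraic K a := by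
    by_contra hno
    push Not at hno
    have h3 : {x : ℂ | IsAlgebraic K x} = Set.univ := Set.eq_univ_of_forall hno
    rw [h3] at h1
    exact not_countable_complex h1
  obtain ⟨a, ha⟩ := h2
  exact ⟨a, algebraicIndependent_unique_type_iff.2 ha⟩

private theorem gen_countable_mv (k : Type) [Field k] [Countable k] (m : ℕ) :
    Countable (MvPolynomial (Fin m) k) := by
  rw [← Cardinal.mk_le_aleph0_iff]
  refine (MvPolynomial.cardinalMk_le_max (σ := Fin m) (R := k)).trans ?_
  refine max_le (max_le ?_ ?_) le_rfl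
  · exact Cardinal.mk_le_aleph0
  · exact Cardinal.mk_le_aleph0

private theorem gen_zeros (g : ℂ → ℂ) (hg : AnalyticOnNhd ℂ g Set.univ) (h0 : ∃ x, g x ≠ 0) :
    {x : ℂ | g x = 0}.Countable := by
  have hd : DiscreteTopology {x : ℂ | g x = 0} := by
    rw [discreteTopology_subtype_iff]
    intro x _
    rw [Filter.inf_principal_eq_bot]
    rcases (hg x (Set.mem_univ x)).eventually_eq_zero_or_eventually_ne_zero with h | h
    · exfalso
      obtain ⟨y, hy⟩ := h0
      have h1 := hg.eqOn_zero_of_preconnected_of_eventuallyEq_zero isPreconnected_univ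
        (Set.mem_univ x) h
      exact hy (h1 (Set.mem_univ y))
    · filter_upwards [h] with y hy
      exact hy
  exact Set.countable_coe_iff.1 (TopologicalSpace.separableSpace_iff_countable.1 inferInstance)

private theorem gen_eval (Q : MvPolynomial (Fin 2) ℂ) (x y : ℂ) :
    Polynomial.eval x (MvPolynomial.aeval ![Polynomial.X, Polynomial.C y] Q) =
      MvPolynomial.eval ![x, y] Q := by
  have h : (Polynomial.evalRingHom x).comp
      ((MvPolynomial.aeval ![Polynomial.X, Polynomial.C y] :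
        MvPolynomial (Fin 2) ℂ →ₐ[ℂ] Polynomial ℂ) : MvPolynomial (Fin 2) ℂ →+* Polynomial ℂ) =
      MvPolynomial.eval ![x, y] := by
    apply MvPolynomial.ringHom_ext
    · intro r
      simp
    · intro i
      fin_cases i <;> simp
  exact congrArg (fun f : MvPolynomial (Fin 2) ℂ →+* ℂ => f Q) h

private theorem gen_nonzero (Q : MvPolynomial (Fin 2) ℂ)
    (h : ∀ x : ℂ, MvPolynomial.eval ![x, Complex.exp x] Q = 0) : Q = 0 := by
  -- for every `c` the polynomial `Q (X, e^c)` is zero
  have h1 : ∀ c x : ℂ, MvPolynomial.eval ![x, Complex.exp c] Q = 0 := by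
    intro c x
    rw [← gen_eval]
    have h2 : MvPolynomial.aeval ![Polynomial.X, Polynomial.C (Complex.exp c)] Q =
        (0 : Polynomial ℂ) := by
      apply Polynomial.eq_zero_of_infinite_isRoot
      have hinj : Function.Injective fun k : ℕ => c + (k : ℂ) * (2 * Real.pi * Complex.I) := by
        intro a b hab
        have h3 := add_left_cancel hab
        have h4 : (2 * (Real.pi : ℂ) * Complex.I) ≠ 0 := Complex.two_pi_I_ne_zero
        exact_mod_cast mul_right_cancel₀ h4 h3
      refine (Set.infinite_range_of_injective hinj).mono ?_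
      rintro _ ⟨k, rfl⟩
      show Polynomial.IsRoot _ _
      rw [Polynomial.IsRoot.def, gen_eval]
      have h5 := h (c + (k : ℂ) * (2 * Real.pi * Complex.I))
      rwa [Complex.exp_add, Complex.exp_nat_mul, Complex.exp_two_pi_mul_I, one_pow, mul_one] at h5
    rw [h2, Polynomial.eval_zero]
  have h6 : Q * MvPolynomial.X 1 = 0 := by
    apply MvPolynomial.funext
    intro v
    rw [map_mul, MvPolynomial.eval_X, map_zero]
    by_cases hv : v 1 = 0
    · rw [hv, mul_zero]
    · have h7 : v = ![v 0, Complex.exp (Complex.log (v 1))] := by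
        rw [Complex.exp_log hv]
        funext i
        fin_cases i <;> rfl
      have h8 : MvPolynomial.eval v Q = 0 := by
        rw [h7]
        exact h1 _ _
      rw [h8, zero_mul]
  rcases mul_eq_zero.1 h6 with h7 | h7
  · exact h7
  · exact absurd h7 (MvPolynomial.X_ne_zero 1)

/-- **Generic points of the graph of `exp`.** Proof. For each of the countably many nonzero
`P : MvPolynomial (Fin 2) K` the entire function `x ↦ P(x, exp x)` is not identically zero (the functions
`x`, `exp x` are algebraically independent: for instance for `x = 2πi k + c`, `k ∈ ℤ`, `P(x, e^c)` would vanish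
for infinitely many `x`, so `P(X, e^c) = 0` for all `c ∈ ℂ`, i.e. `P = 0`), so its zeros form a countable set
(a nonzero entire function has countably many zeros: the zeros are isolated,
`AnalyticOnNhd.eqOn_zero_of_preconnected_of_frequently_eq_zero`, a discrete closed subset of `ℂ` is
countable). `ℂ` is uncountable. (Perhaps one of the files `SC/Ev*.lean` or `SC/Gn*.lean` has a lemma of this
kind.) -/
theorem exists_exp (K : Subfield ℂ) (hK : (K : Set ℂ).Countable) :
    ∃ x : ℂ, AlgebraicIndependent K ![x, Complex.exp x] := by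
  have hc : Countable K := hK
  have hcm := gen_countable_mv K 2
  set ev : MvPolynomial (Fin 2) K → ℂ → ℂ := fun P x =>
    MvPolynomial.eval ![x, Complex.exp x] (MvPolynomial.map (algebraMap K ℂ) P) with hev
  have hcount : ∀ P : MvPolynomial (Fin 2) K, P ≠ 0 → {x : ℂ | ev P x = 0}.Countable := by
    intro P hP
    apply gen_zeros
    · intro x _
      have hdiff : Differentiable ℂ (ev P) := by
        have h1 : ev P = fun x => ∑ d ∈ (MvPolynomial.map (algebraMap K ℂ) P).support,
            (MvPolynomial.map (algebraMap K ℂ) P).coeff d *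
              ∏ i, (![x, Complex.exp x] : Fin 2 → ℂ) i ^ d i := by
          funext x
          rw [hev]
          exact MvPolynomial.eval_eq' _ _
        rw [h1]
        simp only [Fin.prod_univ_two, Matrix.cons_val_zero, Matrix.cons_val_one]
        fun_prop
      exact hdiff.analyticAt x
    · by_contra hno
      push Not at hno
      apply hP
      have := gen_nonzero _ hno
      exact (MvPolynomial.map_injective (algebraMap K ℂ) (algebraMap K ℂ).injective)
        (by rw [this, map_zero])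
  have hun : (⋃ P : {P : MvPolynomial (Fin 2) K // P ≠ 0}, {x : ℂ | ev P.1 x = 0}).Countable :=
    Set.countable_iUnion fun P => hcount P.1 P.2
  obtain ⟨x, hx⟩ : ∃ x : ℂ, x ∉ ⋃ P : {P : MvPolynomial (Fin 2) K // P ≠ 0},
      {x : ℂ | ev P.1 x = 0} := by
    by_contra hno
    push Not at hno
    rw [Set.eq_univ_of_forall hno] at hun
    exact not_countable_complex hun
  refine ⟨x, ?_⟩
  rw [algebraicIndependent_iff]
  intro P hP
  by_contra hP0
  apply hx
  rw [Set.mem_iUnion]
  refine ⟨⟨P, hP0⟩, ?_⟩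
  show ev P x = 0
  rw [hev]
  show MvPolynomial.eval ![x, Complex.exp x] (MvPolynomial.map (algebraMap K ℂ) P) = 0
  rw [MvPolynomial.eval_map, ← MvPolynomial.aeval_def]
  exact hP

end Pool.Agent.Lib.MP_209724_lc.CT
end

section

namespace Pool.Agent.Lib.MP_209724_lc.CT

open MvPolynomial AlgebraicIndependent
open OV (cl td lin mon HasExp IsConst)

variable {Ω : Type} [Field Ω] [Algebra ℂ Ω]

/-- a linear functional applied to the coefficients -/
private noncomputable def ldPhi {K σ : Type} [Field K] [Algebra K ℂ] (φ : ℂ →ₗ[K] K)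
    (p : MvPolynomial σ ℂ) : MvPolynomial σ K :=
  ∑ m ∈ p.support, monomial m (φ (coeff m p))

private theorem ldPhi_coeff {K σ : Type} [Field K] [Algebra K ℂ] (φ : ℂ →ₗ[K] K)
    (p : MvPolynomial σ ℂ) (m : σ →₀ ℕ) : coeff m (ldPhi φ p) = φ (coeff m p) := by
  classical
  unfold ldPhi
  rw [coeff_sum]
  simp only [coeff_monomial]
  rw [Finset.sum_ite_eq']
  split_ifs with h
  · rfl
  · rw [notMem_support_iff.mp h, map_zero]

private theorem ldPhi_add {K σ : Type} [Field K] [Algebra K ℂ] (φ : ℂ →ₗ[K] K)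
    (p q : MvPolynomial σ ℂ) : ldPhi φ (p + q) = ldPhi φ p + ldPhi φ q := by
  ext m
  rw [ldPhi_coeff, coeff_add, coeff_add, ldPhi_coeff, ldPhi_coeff, map_add]

private theorem ldPhi_zero {K σ : Type} [Field K] [Algebra K ℂ] (φ : ℂ →ₗ[K] K) :
    ldPhi φ (0 : MvPolynomial σ ℂ) = 0 := by
  ext m
  rw [ldPhi_coeff, coeff_zero, coeff_zero, map_zero]

private theorem ldPhi_sum {K σ ι : Type} [Field K] [Algebra K ℂ] (φ : ℂ →ₗ[K] K) (s : Finset ι)
    (f : ι → MvPolynomial σ ℂ) : ldPhi φ (∑ i ∈ s, f i) = ∑ i ∈ s, ldPhi φ (f i) := by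
  classical
  induction s using Finset.induction_on with
  | empty => rw [Finset.sum_empty, Finset.sum_empty, ldPhi_zero]
  | insert a s ha ih => rw [Finset.sum_insert ha, Finset.sum_insert ha, ldPhi_add, ih]

private theorem ldPhi_mul {K σ : Type} [Field K] [Algebra K ℂ] (φ : ℂ →ₗ[K] K)
    (p : MvPolynomial σ ℂ) (g : MvPolynomial σ K) :
    ldPhi φ (p * map (algebraMap K ℂ) g) = ldPhi φ p * g := by
  classical
  ext m
  rw [ldPhi_coeff, coeff_mul, coeff_mul, map_sum]
  refine Finset.sum_congr rfl fun x _ => ?_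
  rw [ldPhi_coeff, coeff_map, mul_comm, ← Algebra.smul_def, map_smul, smul_eq_mul, mul_comm]

private theorem ldPhi_C {K σ : Type} [Field K] [Algebra K ℂ] (φ : ℂ →ₗ[K] K) (c : ℂ) :
    ldPhi φ (C c : MvPolynomial σ ℂ) = C (φ c) := by
  classical
  ext m
  rw [ldPhi_coeff, coeff_C, coeff_C]
  split_ifs
  · rfl
  · exact map_zero φ

private theorem ldPhi_mem' {K σ : Type} [Field K] [Algebra K ℂ] (φ : ℂ →ₗ[K] K)
    (I : Ideal (MvPolynomial σ K)) {p : MvPolynomial σ ℂ}
    (hp : p ∈ I.map (map (algebraMap K ℂ))) : ∀ a, ldPhi φ (a * p) ∈ I := by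
  rw [Ideal.map] at hp
  induction hp using Submodule.span_induction with
  | mem x hx =>
    obtain ⟨g, hg, rfl⟩ := hx
    intro a
    rw [ldPhi_mul]
    exact I.mul_mem_left _ hg
  | zero => intro a; rw [mul_zero, ldPhi_zero]; exact I.zero_mem
  | add x y _ _ hx hy => intro a; rw [mul_add, ldPhi_add]; exact I.add_mem (hx a) (hy a)
  | smul b x hx ih =>
    intro a
    rw [smul_eq_mul, ← mul_assoc]
    exact ih (a * b)

private theorem ldPhi_mem {K σ : Type} [Field K] [Algebra K ℂ] (φ : ℂ →ₗ[K] K)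
    (I : Ideal (MvPolynomial σ K)) {p : MvPolynomial σ ℂ}
    (hp : p ∈ I.map (map (algebraMap K ℂ))) : ldPhi φ p ∈ I := by
  have h := ldPhi_mem' φ I hp 1
  rwa [one_mul] at h

omit [Algebra ℂ Ω] in
private theorem ld_denom {K : Type} [Field K] [Algebra K Ω] {κ : Type} (ζ : κ → Ω) {ι : Type}
    (s : Finset ι) (v : ι → Ω)
    (hv : ∀ i ∈ s, v i ∈ IntermediateField.adjoin K (Set.range ζ)) :
    ∃ q : Ω, q ≠ 0 ∧ q ∈ Algebra.adjoin K (Set.range ζ) ∧
      ∀ i ∈ s, q * v i ∈ Algebra.adjoin K (Set.range ζ) := by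
  classical
  induction s using Finset.induction_on with
  | empty =>
    exact ⟨1, one_ne_zero, one_mem _, fun i hi => absurd hi (Finset.notMem_empty i)⟩
  | insert a s _ ih =>
    obtain ⟨q, hq, hqm, hqv⟩ := ih fun i hi => hv i (Finset.mem_insert_of_mem hi)
    obtain ⟨r, hr, t, ht, hrt⟩ := IntermediateField.mem_adjoin_iff_div.mp
      (hv a (Finset.mem_insert_self a s))
    by_cases h0 : t = 0
    · refine ⟨q, hq, hqm, fun i hi => ?_⟩
      rcases Finset.mem_insert.mp hi with rfl | hi
      · rw [hrt, h0, div_zero, mul_zero]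
        exact zero_mem _
      · exact hqv i hi
    · refine ⟨q * t, mul_ne_zero hq h0, mul_mem hqm ht, fun i hi => ?_⟩
      rcases Finset.mem_insert.mp hi with rfl | hi
      · rw [hrt, mul_assoc, mul_div_cancel₀ r h0]
        exact mul_mem hqm hr
      · rw [mul_comm q t, mul_assoc]
        exact mul_mem ht (hqv i hi)

/-- **Linear disjointness.** `ζ` is defined over `K`, `φ : ℂ → K` is a `K`-linear functional. A linear
relation with complex coefficients between elements of the field `K(ζ)` stays true if `φ` is applied to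
the coefficients.

Proof. Case 1: `v i = aeval ζ (map (algebraMap K ℂ) (g i))` for polynomials `g i` over `K`. Then
`f = ∑ C (e i) * map (g i)` is in the kernel of `aeval ζ`, hence in the span of `hdef`. Let
`Φ : MvPolynomial κ ℂ → MvPolynomial κ K` apply `φ` to the coefficients (`fin1Phi` in `SC/Fin1.lean`, with
`fin1_mem`: `Φ f` is in the ideal of all `g` with `aeval ζ (map g) = 0`; use them, or copy). Since
`Φ (C e * map g) = C (φ e) * g` we get `∑ C (φ (e i)) * g i` in this ideal, which is the claim.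
Case 2: in general the elements of `IntermediateField.adjoin K (Set.range ζ)` are quotients of elements
of `Algebra.adjoin K (Set.range ζ)` (`IntermediateField.mem_adjoin_range_iff` or
`IntermediateField.mem_adjoin_iff_div`); for finitely many `v i` there is a common denominator
`q ≠ 0` in `K[ζ]`; multiply the relation by `q`. -/
theorem ld {K : Type} [Field K] [Algebra K ℂ] [Algebra K Ω] [IsScalarTower K ℂ Ω] {κ : Type}
    (ζ : κ → Ω) (hdef : DefOver K ζ) (φ : ℂ →ₗ[K] K) {ι : Type} (s : Finset ι) (e : ι → ℂ)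
    (v : ι → Ω) (hv : ∀ i ∈ s, v i ∈ IntermediateField.adjoin K (Set.range ζ))
    (h : ∑ i ∈ s, algebraMap ℂ Ω (e i) * v i = 0) :
    ∑ i ∈ s, algebraMap K Ω (φ (e i)) * v i = 0 := by
  classical
  obtain ⟨q, hq, -, hqv⟩ := ld_denom ζ s v hv
  have hg : ∀ i, ∃ g : MvPolynomial κ K, i ∈ s → aeval ζ g = q * v i := by
    intro i
    by_cases hi : i ∈ s
    · have h1 := hqv i hi
      rw [Algebra.adjoin_range_eq_range_aeval] at h1
      obtain ⟨g, hg⟩ := h1
      exact ⟨g, fun _ => hg⟩
    · exact ⟨0, fun h => absurd h hi⟩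
  choose g hg using hg
  let I : Ideal (MvPolynomial κ K) :=
    RingHom.ker ((aeval ζ : MvPolynomial κ ℂ →ₐ[ℂ] Ω).toRingHom.comp (map (algebraMap K ℂ)))
  have hI : ∀ p : MvPolynomial κ K, p ∈ I ↔ aeval ζ (map (algebraMap K ℂ) p) = 0 := fun p =>
    Iff.rfl
  have hf0 : aeval ζ (∑ i ∈ s, C (e i) * map (algebraMap K ℂ) (g i)) = 0 := by
    rw [map_sum]
    have h1 : ∀ i ∈ s, aeval ζ (C (e i) * map (algebraMap K ℂ) (g i)) =
        q * (algebraMap ℂ Ω (e i) * v i) := by
      intro i hi
      rw [map_mul, aeval_C, aeval_map_algebraMap, hg i hi]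
      ring
    rw [Finset.sum_congr rfl h1, ← Finset.mul_sum, h, mul_zero]
  have hf1 := hdef _ hf0
  have hf2 : (∑ i ∈ s, C (e i) * map (algebraMap K ℂ) (g i)) ∈ I.map (map (algebraMap K ℂ)) := hf1
  have h2 := ldPhi_mem φ I hf2
  rw [ldPhi_sum, Finset.sum_congr rfl fun i _ => ldPhi_mul φ (C (e i)) (g i)] at h2
  simp only [ldPhi_C] at h2
  rw [hI, aeval_map_algebraMap, map_sum] at h2
  have h3 : ∀ i ∈ s, aeval ζ (C (φ (e i)) * g i) =
      q * (algebraMap K Ω (φ (e i)) * v i) := by
    intro i hi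
    rw [map_mul, aeval_C, hg i hi]
    ring
  rw [Finset.sum_congr rfl h3, ← Finset.mul_sum] at h2
  exact (mul_eq_zero.mp h2).resolve_left hq

end Pool.Agent.Lib.MP_209724_lc.CT
end

section

namespace Pool.Agent.Lib.MP_209724_lc.CT

open MvPolynomial AlgebraicIndependent
open OV (cl td lin mon HasExp IsConst)

variable {Ω : Type} [Field Ω] [Algebra ℂ Ω] {n : ℕ}

/-- Proof. `lin (m + m') ξ = lin m ξ + lin m' ξ`, `lin (k • m) ξ = k lin m ξ` (`OV.mul_mem_cl_iff`). -/
theorem isLat_lin (ξ : Fin n → Ω) : IsLat fun m => ({lin m ξ} : Set Ω) := by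
  have hs : ∀ (k : ℤ) (m : Fin n → ℤ), lin (k • m) ξ = algebraMap ℂ Ω (k : ℂ) * lin m ξ := by
    intro k m
    simp only [OV.lin, Finset.mul_sum]
    refine Finset.sum_congr rfl fun i _ => ?_
    rw [Pi.smul_apply, smul_eq_mul, Int.cast_mul, map_mul, mul_assoc]
  refine ⟨fun m m' => ?_, fun k m => ?_, fun k m hk => ?_⟩
  · have h1 : lin (m + m') ξ = lin m ξ + lin m' ξ := by
      simp only [OV.lin, ← Finset.sum_add_distrib]
      refine Finset.sum_congr rfl fun i _ => ?_
      rw [Pi.add_apply, Int.cast_add, map_add, add_mul]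
    rw [Set.singleton_subset_iff, h1]
    exact OV.add_mem_cl (OV.subset_cl _ (Set.mem_union_left _ (Set.mem_singleton _)))
      (OV.subset_cl _ (Set.mem_union_right _ (Set.mem_singleton _)))
  · rw [Set.singleton_subset_iff, hs]
    exact OV.mul_mem_cl (OV.const_mem_cl _ _) (OV.subset_cl _ (Set.mem_singleton _))
  · rw [Set.singleton_subset_iff]
    have h1 : lin (k • m) ξ ∈ cl ({lin (k • m) ξ} : Set Ω) :=
      OV.subset_cl _ (Set.mem_singleton _)
    have h2 : algebraMap ℂ Ω (k : ℂ) * lin m ξ ∈ cl ({lin (k • m) ξ} : Set Ω) := by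
      rw [← hs]; exact h1
    exact (OV.mul_mem_cl_iff (Int.cast_ne_zero.2 hk)).1 h2

/-- Proof. `mon (m + m') η = mon m η * mon m' η`, `mon (k • m) η = (mon m η) ^ k`; `OV.mem_cl_of_zpow`. -/
theorem isLat_mon (η : Fin n → Ω) (hη : ∀ i, η i ≠ 0) : IsLat fun m => ({mon m η} : Set Ω) := by
  have hs : ∀ (k : ℤ) (m : Fin n → ℤ), mon (k • m) η = (mon m η) ^ k := by
    intro k m
    simp only [OV.mon, ← Finset.prod_zpow]
    refine Finset.prod_congr rfl fun i _ => ?_
    rw [Pi.smul_apply, smul_eq_mul, mul_comm, zpow_mul]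
  refine ⟨fun m m' => ?_, fun k m => ?_, fun k m hk => ?_⟩
  · have h1 : mon (m + m') η = mon m η * mon m' η := by
      simp only [OV.mon, ← Finset.prod_mul_distrib]
      refine Finset.prod_congr rfl fun i _ => ?_
      rw [Pi.add_apply, zpow_add₀ (hη i)]
    rw [Set.singleton_subset_iff, h1]
    exact OV.mul_mem_cl (OV.subset_cl _ (Set.mem_union_left _ (Set.mem_singleton _)))
      (OV.subset_cl _ (Set.mem_union_right _ (Set.mem_singleton _)))
  · rw [Set.singleton_subset_iff, hs]
    have h2 : mon m η ∈ cl ({mon m η} : Set Ω) := OV.subset_cl _ (Set.mem_singleton _)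
    exact OV.zpow_mem_cl h2 k
  · rw [Set.singleton_subset_iff]
    have h3 : mon (k • m) η ∈ cl ({mon (k • m) η} : Set Ω) :=
      OV.subset_cl _ (Set.mem_singleton _)
    have h2 : (mon m η) ^ k ∈ cl ({mon (k • m) η} : Set Ω) := by
      rw [hs] at h3 ⊢
      exact h3
    exact OV.mem_cl_of_zpow hk h2

theorem isLat_union {d d' : (Fin n → ℤ) → Set Ω} (h : IsLat d) (h' : IsLat d') :
    IsLat fun m => d m ∪ d' m := by
  refine ⟨fun m m' => ?_, fun k m => ?_, fun k m hk => ?_⟩
  · refine Set.union_subset ((h.add m m').trans (OV.cl_mono ?_)) ((h'.add m m').trans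
      (OV.cl_mono ?_))
    · exact Set.union_subset_union Set.subset_union_left Set.subset_union_left
    · exact Set.union_subset_union Set.subset_union_right Set.subset_union_right
  · exact Set.union_subset ((h.smul k m).trans (OV.cl_mono Set.subset_union_left))
      ((h'.smul k m).trans (OV.cl_mono Set.subset_union_right))
  · exact Set.union_subset ((h.div k m hk).trans (OV.cl_mono Set.subset_union_left))
      ((h'.div k m hk).trans (OV.cl_mono Set.subset_union_right))

private theorem rk_den {ι : Type} [Finite ι] (q : ι → ℚ) :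
    ∃ N : ℤ, N ≠ 0 ∧ ∃ m : ι → ℤ, ∀ i, (m i : ℚ) = N * q i := by
  obtain ⟨b, hb⟩ := IsLocalization.exist_integer_multiples_of_finite (nonZeroDivisors ℤ) q
  choose m hm using hb
  refine ⟨b, nonZeroDivisors.coe_ne_zero b, m, fun i => ?_⟩
  have h1 := hm i
  rw [zsmul_eq_mul] at h1
  simpa using h1

omit [Field Ω] [Algebra ℂ Ω] in
private theorem rk_sub_D {d : (Fin n → ℤ) → Set Ω} {A : Submodule ℚ (Fin n → ℚ)} {m : Fin n → ℤ}
    (hm : (fun i => (m i : ℚ)) ∈ A) : d m ⊆ D d A :=
  Set.subset_iUnion₂ (s := fun m (_ : m ∈ {m : Fin n → ℤ | (fun i => (m i : ℚ)) ∈ A}) => d m) m hm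

/-- `D d (A ⊔ B) ⊆ cl (D d A ∪ D d B)`. Proof. If the integral vector `m` is `a + b`, `a ∈ A`, `b ∈ B`, let `N > 0`
be a common denominator of `a`, `b`: `N m = a' + b'` with integral `a' = N a ∈ A`, `b' = N b ∈ B`, so
`d m ⊆ cl (d (N • m)) ⊆ cl (d a' ∪ d b')`. -/
theorem D_sup {d : (Fin n → ℤ) → Set Ω} (h : IsLat d) (A B : Submodule ℚ (Fin n → ℚ)) :
    D d (A ⊔ B) ⊆ cl (D d A ∪ D d B) := by
  refine Set.iUnion₂_subset fun m hm => ?_
  obtain ⟨a, ha, b, hb, hab⟩ := Submodule.mem_sup.1 hm
  obtain ⟨N, hN, a', ha'⟩ := rk_den a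
  obtain ⟨b', hb'⟩ : ∃ b' : Fin n → ℤ, b' = N • m - a' := ⟨_, rfl⟩
  have h1 : N • m = a' + b' := by rw [hb']; abel
  have h2 : (fun i => (a' i : ℚ)) ∈ A := by
    have h3 : (fun i => (a' i : ℚ)) = (N : ℚ) • a := by
      funext i
      rw [ha' i, Pi.smul_apply, smul_eq_mul]
    rw [h3]
    exact A.smul_mem _ ha
  have h4 : (fun i => (b' i : ℚ)) ∈ B := by
    have h3 : (fun i => (b' i : ℚ)) = (N : ℚ) • b := by
      funext i
      have h5 : a i + b i = (m i : ℚ) := congrFun hab i
      rw [hb', Pi.sub_apply, Pi.smul_apply, smul_eq_mul, Int.cast_sub, Int.cast_mul, ha' i, ← h5,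
        Pi.smul_apply, smul_eq_mul]
      ring
    rw [h3]
    exact B.smul_mem _ hb
  refine (h.div N m hN).trans (OV.cl_subset ?_)
  rw [h1]
  refine (h.add a' b').trans (OV.cl_mono ?_)
  exact Set.union_subset_union (rk_sub_D h2) (rk_sub_D h4)

/-- Submodularity. Proof. `OV.td_union_inter` for `cl (D d A)`, `cl (D d B)`, `D_sup`,
`D d (A ⊓ B) ⊆ D d A ∩ D d B`. -/
theorem rk_submod {d : (Fin n → ℤ) → Set Ω} (h : IsLat d) (A B : Submodule ℚ (Fin n → ℚ)) :
    td (D d (A ⊔ B)) + td (D d (A ⊓ B)) ≤ td (D d A) + td (D d B) := by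
  have h1 := OV.td_union_inter (cl (D d A)) (cl (D d B))
  rw [OV.td_cl, OV.td_cl] at h1
  have h2 : td (D d (A ⊔ B)) ≤ td (cl (D d A) ∪ cl (D d B)) :=
    OV.td_le_of_subset_cl ((D_sup h A B).trans (OV.cl_mono
      (Set.union_subset_union (OV.subset_cl _) (OV.subset_cl _))))
  have h3 : td (D d (A ⊓ B)) ≤ td (cl (D d A) ∩ cl (D d B)) := by
    refine OV.td_mono (Set.iUnion₂_subset fun m hm => Set.subset_inter ?_ ?_)
    · exact (rk_sub_D (Submodule.mem_inf.1 hm).1).trans (OV.subset_cl _)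
    · exact (rk_sub_D (Submodule.mem_inf.1 hm).2).trans (OV.subset_cl _)
  calc td (D d (A ⊔ B)) + td (D d (A ⊓ B))
      ≤ td (cl (D d A) ∪ cl (D d B)) + td (cl (D d A) ∩ cl (D d B)) := add_le_add h2 h3
    _ = td (cl (D d A) ∩ cl (D d B)) + td (cl (D d A) ∪ cl (D d B)) := add_comm _ _
    _ ≤ _ := h1

/-- The space generated by integral vectors. Proof. `⊇` is clear. If `m` is an integral vector in the span,
then `N m = ∑ k i v i` for integers `k i`, `N > 0`; induction on the sum with `add`, `smul`. (`d 0 ⊆ cl ∅`: from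
`smul` with `k = 0` we get `d 0 ⊆ cl (d m)` only; for `r = 0` use the hypothesis `h0`.) -/
theorem D_span {d : (Fin n → ℤ) → Set Ω} (h : IsLat d) (h0 : d 0 ⊆ cl ∅) {r : ℕ}
    (v : Fin r → Fin n → ℤ) :
    cl (D d (Submodule.span ℚ (Set.range fun i j => (v i j : ℚ)))) = cl (⋃ i, d (v i)) := by
  refine OV.cl_eq_of (Set.iUnion₂_subset fun m hm => ?_) (Set.iUnion_subset fun i => ?_)
  · obtain ⟨c, hc⟩ := (Submodule.mem_span_range_iff_exists_fun ℚ).1 hm
    obtain ⟨N, hN, k, hk⟩ := rk_den c
    have h1 : N • m = ∑ i, k i • v i := by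
      funext j
      have h2 : ∑ i, c i * (v i j : ℚ) = (m j : ℚ) := by
        have h3 := congrFun hc j
        rw [Finset.sum_apply] at h3
        exact h3
      have h4 : ((N * m j : ℤ) : ℚ) = ((∑ i, k i * v i j : ℤ) : ℚ) := by
        rw [Int.cast_mul, ← h2, Finset.mul_sum, Int.cast_sum]
        refine Finset.sum_congr rfl fun i _ => ?_
        rw [Int.cast_mul, hk i]
        ring
      rw [Pi.smul_apply, smul_eq_mul, Finset.sum_apply]
      exact_mod_cast h4
    have h5 : ∀ s : Finset (Fin r), d (∑ i ∈ s, k i • v i) ⊆ cl (⋃ i, d (v i)) := by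
      intro s
      induction s using Finset.induction_on with
      | empty =>
        rw [Finset.sum_empty]
        exact h0.trans (OV.cl_mono (Set.empty_subset _))
      | insert a s ha ih =>
        rw [Finset.sum_insert ha]
        refine (h.add _ _).trans (OV.cl_subset (Set.union_subset ?_ ih))
        refine (h.smul _ _).trans (OV.cl_mono ?_)
        exact Set.subset_iUnion (fun i => d (v i)) a
    refine (h.div N m hN).trans (OV.cl_subset ?_)
    rw [h1]
    exact h5 _
  · refine (rk_sub_D ?_).trans (OV.subset_cl _)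
    exact Submodule.subset_span ⟨i, rfl⟩

/-- Every rational space has a basis of integral vectors, linearly independent over `ℤ`. -/
theorem exists_int_basis (A : Submodule ℚ (Fin n → ℚ)) :
    ∃ v : Fin (Module.finrank ℚ A) → Fin n → ℤ, LinearIndependent ℤ v ∧
      Submodule.span ℚ (Set.range fun i j => (v i j : ℚ)) = A := by
  let b := Module.finBasis ℚ A
  have hden := fun i => rk_den (b i : Fin n → ℚ)
  choose N hN v hv using hden
  have hv' : ∀ i, (fun j => (v i j : ℚ)) = (N i : ℚ) • (b i : Fin n → ℚ) := by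
    intro i
    funext j
    rw [hv i j, Pi.smul_apply, smul_eq_mul]
  have hN' : ∀ i, (N i : ℚ) ≠ 0 := fun i => Int.cast_ne_zero.2 (hN i)
  refine ⟨v, ?_, le_antisymm ?_ ?_⟩
  · have h1 : LinearIndependent ℚ fun i => (b i : Fin n → ℚ) :=
      b.linearIndependent.map' A.subtype (Submodule.ker_subtype A)
    have h2 : LinearIndependent ℚ fun i j => (v i j : ℚ) := by
      have h3 := h1.units_smul fun i => Units.mk0 (N i : ℚ) (hN' i)
      have h4 : (fun i j => (v i j : ℚ)) =
          (fun i => Units.mk0 (N i : ℚ) (hN' i)) • fun i => (b i : Fin n → ℚ) := by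
        funext i
        rw [hv' i]
        rfl
      rw [h4]
      exact h3
    have h5 : LinearIndependent ℤ fun i j => (v i j : ℚ) :=
      h2.restrict_scalars (fun x y hxy => by simpa using hxy)
    let f : (Fin n → ℤ) →ₗ[ℤ] (Fin n → ℚ) :=
      { toFun := fun m j => (m j : ℚ)
        map_add' := fun m m' => by funext j; simp
        map_smul' := fun k m => by funext j; simp }
    exact LinearIndependent.of_comp f h5
  · rw [Submodule.span_le]
    rintro _ ⟨i, rfl⟩
    show (fun j => (v i j : ℚ)) ∈ A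
    rw [hv' i]
    exact A.smul_mem _ (b i).2
  · have h1 : A = Submodule.span ℚ (Set.range fun i => (b i : Fin n → ℚ)) := by
      have h2 := congrArg (Submodule.map A.subtype) b.span_eq
      rw [Submodule.map_span, Submodule.map_top, Submodule.range_subtype, ← Set.range_comp] at h2
      exact h2.symm
    conv_lhs => rw [h1]
    rw [Submodule.span_le]
    rintro _ ⟨i, rfl⟩
    have h3 : (b i : Fin n → ℚ) = (N i : ℚ)⁻¹ • fun j => (v i j : ℚ) := by
      rw [hv' i, smul_smul, inv_mul_cancel₀ (hN' i), one_smul]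
    show (b i : Fin n → ℚ) ∈ _
    rw [h3]
    exact Submodule.smul_mem _ _ (Submodule.subset_span ⟨i, rfl⟩)

/-- The vectors `m` with `g m ∈ cl s` are the integral vectors of a rational space. Proof.
`N = {q | ∃ k : ℤ, k ≠ 0 ∧ ∃ m : Fin n → ℤ, k q = m ∧ g m ∈ cl s}` is a subspace (`add`, `smul`, `h0`), and for
integral `m` with `k m = m'`, `g m' ∈ cl s`, `k ≠ 0` we have `g m ∈ cl s` by `div`. -/
theorem exists_subspace {g : (Fin n → ℤ) → Ω} (h : IsLat fun m => ({g m} : Set Ω)) (s : Set Ω)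
    (h0 : g 0 ∈ cl s) :
    ∃ N : Submodule ℚ (Fin n → ℚ), ∀ m : Fin n → ℤ, (fun i => (m i : ℚ)) ∈ N ↔ g m ∈ cl s := by
  have hsm : ∀ (k : ℤ) (m : Fin n → ℤ), g m ∈ cl s → g (k • m) ∈ cl s := fun k m hm =>
    OV.cl_subset (Set.singleton_subset_iff.2 hm) (Set.singleton_subset_iff.1 (h.smul k m))
  refine ⟨{ carrier := {q | ∃ k : ℤ, k ≠ 0 ∧ ∃ m : Fin n → ℤ, (∀ i, (m i : ℚ) = k * q i) ∧
                g m ∈ cl s}
            zero_mem' := ⟨1, one_ne_zero, 0, fun i => by simp, h0⟩
            add_mem' := ?_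
            smul_mem' := ?_ }, fun m => ⟨?_, fun hm => ⟨1, one_ne_zero, m, fun i => by simp, hm⟩⟩⟩
  · rintro q q' ⟨k, hk, m, hm, hg⟩ ⟨k', hk', m', hm', hg'⟩
    refine ⟨k * k', mul_ne_zero hk hk', k' • m + k • m', fun i => ?_, ?_⟩
    · rw [Pi.add_apply, Pi.smul_apply, Pi.smul_apply, smul_eq_mul, smul_eq_mul, Int.cast_add,
        Int.cast_mul, Int.cast_mul, Int.cast_mul, hm i, hm' i, Pi.add_apply]
      ring
    · refine OV.cl_subset (Set.union_subset (Set.singleton_subset_iff.2 (hsm k' m hg))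
        (Set.singleton_subset_iff.2 (hsm k m' hg'))) (Set.singleton_subset_iff.1 (h.add _ _))
  · rintro c q ⟨k, hk, m, hm, hg⟩
    refine ⟨k * c.den, mul_ne_zero hk (by exact_mod_cast c.den_nz), c.num • m, fun i => ?_,
      hsm _ _ hg⟩
    rw [Pi.smul_apply, smul_eq_mul, Int.cast_mul, Int.cast_mul, hm i, Pi.smul_apply, smul_eq_mul]
    have h1 : (c.num : ℚ) = c * c.den := (Rat.mul_den_eq_num c).symm
    rw [h1, Int.cast_natCast]
    ring
  · rintro ⟨k, hk, m', hm', hg⟩
    have h1 : m' = k • m := by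
      funext i
      have h2 : (m' i : ℚ) = k * (m i : ℚ) := hm' i
      rw [Pi.smul_apply, smul_eq_mul]
      exact_mod_cast h2
    rw [h1] at hg
    exact OV.cl_subset (Set.singleton_subset_iff.2 hg) (Set.singleton_subset_iff.1 (h.div k m hk))

/-- Proof. `exists_int_basis` and `D_span`: `D d A` is algebraic over `finrank A` elements. -/
theorem rk_le_finrank {g : (Fin n → ℤ) → Ω} (h : IsLat fun m => ({g m} : Set Ω))
    (h0 : g 0 ∈ cl (∅ : Set Ω)) (A : Submodule ℚ (Fin n → ℚ)) :
    td (D (fun m => ({g m} : Set Ω)) A) ≤ Module.finrank ℚ A := by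
  obtain ⟨v, -, hv⟩ := exists_int_basis A
  have h1 := D_span h (Set.singleton_subset_iff.2 h0) v
  rw [hv] at h1
  rw [OV.td_eq_of_cl h1]
  refine (OV.td_le_encard _).trans ?_
  have h2 : (⋃ i, ({g (v i)} : Set Ω)) = (fun i => g (v i)) '' Set.univ := by
    ext x
    simp [eq_comm]
  rw [h2]
  refine (Set.encard_image_le _ _).trans ?_
  rw [Set.encard_univ, ENat.card_eq_coe_fintype_card, Fintype.card_fin]

/-- Proof. Let `C` be a complement of `A` (`Submodule.exists_isCompl`). By `D_sup`
`td (D g ⊤) ≤ td (D g A) + td (D g C) ≤ td (D g A) + n - finrank A` (`rk_le_finrank`). -/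
theorem finrank_le_rk {g : (Fin n → ℤ) → Ω} (h : IsLat fun m => ({g m} : Set Ω))
    (h0 : g 0 ∈ cl (∅ : Set Ω)) (hn : (n : ℕ∞) ≤ td (Set.range g) + 1)
    (A : Submodule ℚ (Fin n → ℚ)) :
    (Module.finrank ℚ A : ℕ∞) ≤ td (D (fun m => ({g m} : Set Ω)) A) + 1 := by
  obtain ⟨C, hC⟩ := Submodule.exists_isCompl A
  have h1 : Set.range g ⊆ cl (D (fun m => ({g m} : Set Ω)) A ∪ D (fun m => ({g m} : Set Ω)) C) := by
    refine Set.Subset.trans ?_ (D_sup h A C)
    rintro _ ⟨m, rfl⟩
    have h2 : (fun i => (m i : ℚ)) ∈ A ⊔ C := by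
      rw [hC.sup_eq_top]
      exact Submodule.mem_top
    exact rk_sub_D (d := fun m => ({g m} : Set Ω)) h2 rfl
  have h2 := (OV.td_le_of_subset_cl h1).trans (OV.td_union_le _ _)
  have h3 := rk_le_finrank h h0 C
  have h4 : Module.finrank ℚ A + Module.finrank ℚ C = n := by
    have h5 := Submodule.finrank_add_eq_of_isCompl hC
    rw [Module.finrank_fin_fun] at h5
    exact h5
  have h5 : (n : ℕ∞) ≤ td (D (fun m => ({g m} : Set Ω)) A) + Module.finrank ℚ C + 1 :=
    hn.trans (add_le_add_left (h2.trans (add_le_add_right h3 _)) 1)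
  have h7 : (n : ℕ∞) = (Module.finrank ℚ A : ℕ∞) + Module.finrank ℚ C := by
    rw [← Nat.cast_add, h4]
  rw [h7] at h5
  have h6 : (Module.finrank ℚ A : ℕ∞) + Module.finrank ℚ C ≤
      (td (D (fun m => ({g m} : Set Ω)) A) + 1) + Module.finrank ℚ C := by
    refine h5.trans (le_of_eq ?_)
    rw [add_right_comm]
  exact (ENat.add_le_add_iff_right (ENat.natCast_ne_top _)).1 h6

end Pool.Agent.Lib.MP_209724_lc.CT
end

section

namespace Pool.Agent.Lib.MP_209724_lc.CT

open MvPolynomial AlgebraicIndependent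
open OV (cl td lin mon HasExp IsConst)

variable {Ω : Type} [Field Ω] [Algebra ℂ Ω]

/-- **Algebraic independence over `K` and `ℂ`.** Proof. Let `F : MvPolynomial ι ℂ`, `aeval x F = 0`, and
suppose `F.coeff m₀ ≠ 0`. There is a `K`-linear `φ : ℂ → K` with `φ (F.coeff m₀) ≠ 0`
(`Module.forall_dual_apply_eq_zero_iff`). By `ld` (with `s = F.support`, `e m = F.coeff m`,
`v m = ∏ x i ^ m i`, in `K(ζ)`) `∑ φ(F.coeff m) x ^ m = 0`: a nontrivial relation over `K`. -/
theorem algInd_of_algInd {K : Type} [Field K] [Algebra K ℂ] [Algebra K Ω] [IsScalarTower K ℂ Ω]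
    {κ : Type} (ζ : κ → Ω) (hdef : DefOver K ζ) {ι : Type} (x : ι → Ω)
    (hx : ∀ i, x i ∈ IntermediateField.adjoin K (Set.range ζ)) (h : AlgebraicIndependent K x) :
    AlgebraicIndependent ℂ x := by
  classical
  rw [algebraicIndependent_iff] at h ⊢
  intro F hF
  by_contra hne
  obtain ⟨m₀, hm₀⟩ := MvPolynomial.exists_coeff_ne_zero hne
  have h1 : ∃ φ : Module.Dual K ℂ, φ (F.coeff m₀) ≠ 0 := by
    by_contra hcon
    push Not at hcon
    exact hm₀ ((Module.forall_dual_apply_eq_zero_iff K (F.coeff m₀)).1 hcon)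
  obtain ⟨φ, hφ⟩ := h1
  have h2 : ∑ m ∈ F.support, algebraMap ℂ Ω (F.coeff m) * ∏ i ∈ m.support, x i ^ m i = 0 := by
    rw [← hF, MvPolynomial.aeval_def, MvPolynomial.eval₂_eq]
  have h3 := ld ζ hdef φ F.support (fun m => F.coeff m) (fun m => ∏ i ∈ m.support, x i ^ m i)
    (fun m _ => prod_mem fun i _ => pow_mem (hx i) _) h2
  have h4 := h (∑ m ∈ F.support, MvPolynomial.monomial m (φ (F.coeff m))) (by
    rw [map_sum, ← h3]
    refine Finset.sum_congr rfl fun m _ => ?_
    rw [MvPolynomial.aeval_monomial]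
    rfl)
  have h5 := congrArg (MvPolynomial.coeff m₀) h4
  rw [MvPolynomial.coeff_sum, MvPolynomial.coeff_zero] at h5
  simp only [MvPolynomial.coeff_monomial] at h5
  rw [Finset.sum_ite_eq' F.support m₀, if_pos (MvPolynomial.mem_support_iff.2 hm₀)] at h5
  exact hφ h5

/-- Elements of `K(ζ)` which are algebraic over `ℂ(S)`, `S ⊆ K(ζ)`, are algebraic over `K(S)`.

Proof. Take a maximal subset `B ⊆ S` which is algebraically independent over `K`
(`exists_maximal_algebraicIndependent`); all elements of `S` are algebraic over `K(B)`. If `y` is not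
algebraic over `K(S)`, then it is not algebraic over `K(B)`, so `B ∪ {y}` is algebraically independent
over `K`, hence over `ℂ` (`algInd_of_algInd`), while `S` is algebraic over `ℂ(B)`. So `y` is not algebraic
over `ℂ(S)`. (The matroids `AlgebraicIndependent.matroid K Ω` and `matroid ℂ Ω`, with
`AlgebraicIndependent.matroid_closure_eq`, may help.) -/
theorem isAlgebraic_of_mem_cl {K : Type} [Field K] [Algebra K ℂ] [Algebra K Ω]
    [IsScalarTower K ℂ Ω] {κ : Type} (ζ : κ → Ω) (hdef : DefOver K ζ) (S : Set Ω)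
    (hS : S ⊆ (IntermediateField.adjoin K (Set.range ζ) : Set Ω)) (y : Ω)
    (hy : y ∈ IntermediateField.adjoin K (Set.range ζ)) (h : y ∈ cl S) :
    IsAlgebraic (Algebra.adjoin K S) y := by
  obtain ⟨B, hB⟩ := (matroid K Ω).exists_isBasis S (by simp)
  have hBS : B ⊆ S := hB.subset
  have hcl : ∀ z, z ∈ (matroid K Ω).closure S ↔ IsAlgebraic (Algebra.adjoin K S) z := by
    intro z
    rw [matroid_closure_eq]
    rfl
  have hsub : ∀ (T : Set Ω), T ⊆ (IntermediateField.adjoin K (Set.range ζ) : Set Ω) →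
      (matroid K Ω).Indep T → (matroid ℂ Ω).Indep T := by
    intro T hT hI
    rw [matroid_indep_iff] at hI ⊢
    exact algInd_of_algInd ζ hdef _ (fun i => hT i.2) hI
  have hres : ∀ T : Set Ω, (matroid ℂ Ω).Indep T → (matroid K Ω).Indep T := by
    intro T hI
    rw [matroid_indep_iff] at hI ⊢
    exact AlgebraicIndependent.restrictScalars (algebraMap K ℂ).injective hI
  have hBC : (matroid ℂ Ω).Indep B := hsub B (hBS.trans hS) hB.indep
  have hSB : S ⊆ (matroid ℂ Ω).closure B := by
    intro s hs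
    by_contra hcon
    rw [hBC.notMem_closure_iff (by simp)] at hcon
    have h1 : s ∉ (matroid K Ω).closure B := by
      rw [hB.indep.notMem_closure_iff (by simp)]
      exact ⟨hres _ hcon.1, hcon.2⟩
    rw [hB.closure_eq_closure] at h1
    exact h1 ((matroid K Ω).subset_closure S (by simp) hs)
  rw [← hcl, ← hB.closure_eq_closure]
  by_contra hcon
  have h2 := hcon
  rw [hB.indep.notMem_closure_iff (by simp)] at h2
  have h3 : (matroid ℂ Ω).Indep (insert y B) :=
    hsub _ (Set.insert_subset hy (hBS.trans hS)) h2.1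
  have h4 : y ∉ (matroid ℂ Ω).closure B := by
    rw [hBC.notMem_closure_iff (by simp)]
    exact ⟨h3, h2.2⟩
  apply h4
  have h5 : (matroid ℂ Ω).closure S ⊆ (matroid ℂ Ω).closure B := by
    rw [← (matroid ℂ Ω).closure_closure B]
    exact (matroid ℂ Ω).closure_subset_closure hSB
  apply h5
  rw [OV.closure_eq]
  exact h

end Pool.Agent.Lib.MP_209724_lc.CT
end

section

namespace Pool.Agent.Lib.MP_209724_lc.CT

open MvPolynomial AlgebraicIndependent
open OV (cl td lin mon HasExp IsConst)

variable {Ω : Type} [Field Ω] [Algebra ℂ Ω] {n : ℕ}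

/-- **The largest tight space.** Proof. Call `A` tight if `td (D d A) = finrank A` (equivalently `≤`, by
`hrot`). `⊥` is tight or there is no tight space at all (then take `N = ⊥`, but `⊥ ≠ ⊤` needs `n > 0`: from
`htop` and `n = 0` we get `⊤ = ⊥`, see below). If `A`, `B` are tight, then by `rk_submod` and `hrot` for `A ⊓ B`
and `Submodule.finrank_sup_add_finrank_inf_eq`
`td (D d (A ⊔ B)) ≤ finrank A + finrank B - finrank (A ⊓ B) = finrank (A ⊔ B)`, so `A ⊔ B` is tight. Let `N` be a
tight space of maximal dimension; every tight `A` has `A ⊔ N` tight, so `A ≤ N`. `N ≠ ⊤` since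
`td (D d ⊤) > n = finrank ⊤`. If there is no tight space: `n > 0` (if `n = 0`, then by `htop`
`td (D d ⊤) > 0`, while `hzero` says that `D d ⊥ ⊆ cl ∅` and `⊤ = ⊥`); take `N = ⊥`. (With `hzero`, `⊥` is always
tight.) -/
theorem exists_tight {d : (Fin n → ℤ) → Set Ω} (h : IsLat d) (hzero : d 0 ⊆ cl ∅)
    (hrot : ∀ A : Submodule ℚ (Fin n → ℚ), (Module.finrank ℚ A : ℕ∞) ≤ td (D d A))
    (htop : (n : ℕ∞) < td (D d ⊤)) :
    ∃ N : Submodule ℚ (Fin n → ℚ), N ≠ ⊤ ∧
      ∀ A : Submodule ℚ (Fin n → ℚ), td (D d A) ≤ Module.finrank ℚ A → A ≤ N := by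
  have hbot : td (D d ⊥) ≤ Module.finrank ℚ (⊥ : Submodule ℚ (Fin n → ℚ)) := by
    have h1 : D d ⊥ ⊆ cl ∅ := by
      intro x hx
      simp only [D, Set.mem_iUnion, Set.mem_ofPred_eq, Submodule.mem_bot] at hx
      obtain ⟨m, hm, hxm⟩ := hx
      have hm0 : m = 0 := by
        funext i
        have := congrFun hm i
        simpa using this
      rw [hm0] at hxm
      exact hzero hxm
    have h2 := OV.td_le_of_subset_cl h1
    rw [OV.td_empty] at h2
    exact h2.trans (by simp)
  have hsup : ∀ A B : Submodule ℚ (Fin n → ℚ), td (D d A) ≤ Module.finrank ℚ A →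
      td (D d B) ≤ Module.finrank ℚ B →
      td (D d (A ⊔ B)) ≤ Module.finrank ℚ (A ⊔ B : Submodule ℚ (Fin n → ℚ)) := by
    intro A B hA hB
    have h1 := rk_submod h A B
    have h2 : ((Module.finrank ℚ (A ⊔ B : Submodule ℚ (Fin n → ℚ)) : ℕ∞)) +
        Module.finrank ℚ (A ⊓ B : Submodule ℚ (Fin n → ℚ)) =
        Module.finrank ℚ A + Module.finrank ℚ B := by
      exact_mod_cast Submodule.finrank_sup_add_finrank_inf_eq A B
    have h3 := hrot (A ⊓ B)
    have h4 : td (D d (A ⊓ B)) ≠ ⊤ := by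
      have h5 : D d (A ⊓ B) ⊆ D d A := by
        intro x hx
        simp only [D, Set.mem_iUnion, Set.mem_ofPred_eq] at hx ⊢
        obtain ⟨m, hm, hxm⟩ := hx
        exact ⟨m, hm.1, hxm⟩
      have h6 := (OV.td_mono h5).trans hA
      exact ne_top_of_le_ne_top (ENat.natCast_ne_top _) h6
    have h7 : td (D d (A ⊔ B)) + td (D d (A ⊓ B)) ≤
        Module.finrank ℚ (A ⊔ B : Submodule ℚ (Fin n → ℚ)) + td (D d (A ⊓ B)) := by
      refine h1.trans ((add_le_add hA hB).trans ?_)
      rw [← h2]
      gcongr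
    exact (ENat.add_le_add_iff_right h4).1 h7
  obtain ⟨N, hN, hmax⟩ := (wellFounded_gt (α := Submodule ℚ (Fin n → ℚ))).has_min
    {A | td (D d A) ≤ Module.finrank ℚ A} ⟨⊥, hbot⟩
  refine ⟨N, ?_, fun A hA => ?_⟩
  · rintro rfl
    have h1 : td (D d ⊤) ≤ Module.finrank ℚ (⊤ : Submodule ℚ (Fin n → ℚ)) := hN
    rw [finrank_top, Module.finrank_fin_fun] at h1
    exact absurd htop (not_lt.2 h1)
  · have h1 := hmax (A ⊔ N) (hsup A N hA hN)
    have h2 : N ≤ A ⊔ N := le_sup_right
    have h3 : A ⊔ N = N := by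
      by_contra hne
      exact h1 (lt_of_le_of_ne h2 (Ne.symm hne))
    exact sup_eq_right.1 h3

/-- **The exceptional plane.** `td (D d A) ≥ finrank A - 1` for all `A`, and `d m` is not constant for `m ≠ 0`.
Then all planes `A` with `td (D d A) ≤ 1` are in a proper subspace (in fact there is at most one).

Proof. Let `A`, `B` be planes with `td ≤ 1`. By `rk_submod`
`td (D d (A ⊔ B)) + td (D d (A ⊓ B)) ≤ 2`. If `A ⊓ B = ⊥`, then `finrank (A ⊔ B) = 4` and
`td (D d (A ⊔ B)) ≥ 3`: impossible. If `finrank (A ⊓ B) = 1`, then `td (D d (A ⊓ B)) ≥ 1` (it contains an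
integral vector `m ≠ 0`) and `td (D d (A ⊔ B)) ≥ 2`: impossible. So `A = B`. If there is such a plane `A`, take
`N = A`, `N ≠ ⊤` because `n ≥ 3`; if there is none, take `N = ⊥`. -/
theorem exists_plane {d : (Fin n → ℤ) → Set Ω} (h : IsLat d) (hn : 3 ≤ n)
    (h1 : ∀ A : Submodule ℚ (Fin n → ℚ), (Module.finrank ℚ A : ℕ∞) ≤ td (D d A) + 1)
    (h2 : ∀ m, m ≠ 0 → 1 ≤ td (d m)) :
    ∃ N : Submodule ℚ (Fin n → ℚ), N ≠ ⊤ ∧
      ∀ A : Submodule ℚ (Fin n → ℚ), Module.finrank ℚ A = 2 → td (D d A) ≤ 1 → A ≤ N := by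
  by_cases hex : ∃ A : Submodule ℚ (Fin n → ℚ), Module.finrank ℚ A = 2 ∧ td (D d A) ≤ 1
  · obtain ⟨A, hA2, hA1⟩ := hex
    refine ⟨A, ?_, fun B hB2 hB1 => ?_⟩
    · rintro rfl
      rw [finrank_top, Module.finrank_fin_fun] at hA2
      omega
    · have hs := rk_submod h A B
      have hs2 : td (D d (A ⊔ B)) + td (D d (A ⊓ B)) ≤ 2 := by
        refine hs.trans ((add_le_add hA1 hB1).trans ?_)
        norm_num
      have hf := Submodule.finrank_sup_add_finrank_inf_eq A B
      rw [hA2, hB2] at hf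
      have hle : Module.finrank ℚ (A ⊓ B : Submodule ℚ (Fin n → ℚ)) ≤ 2 := by
        rw [← hB2]
        exact Submodule.finrank_mono inf_le_right
      have ht := h1 (A ⊔ B)
      rcases Nat.lt_or_ge (Module.finrank ℚ (A ⊓ B : Submodule ℚ (Fin n → ℚ))) 2 with hlt | hge
      · exfalso
        rcases Nat.eq_zero_or_pos (Module.finrank ℚ (A ⊓ B : Submodule ℚ (Fin n → ℚ))) with h0 | h0
        · have h4 : Module.finrank ℚ (A ⊔ B : Submodule ℚ (Fin n → ℚ)) = 4 := by omega
          rw [h4] at ht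
          have h5 : td (D d (A ⊔ B)) ≤ 2 := (le_self_add).trans hs2
          have h6 : ((4 : ℕ) : ℕ∞) ≤ 2 + 1 := ht.trans (by gcongr)
          exact absurd h6 (by decide)
        · have h3 : Module.finrank ℚ (A ⊔ B : Submodule ℚ (Fin n → ℚ)) = 3 := by omega
          rw [h3] at ht
          obtain ⟨v, hv, hspan⟩ := exists_int_basis (A ⊓ B)
          have hv0 : v ⟨0, h0⟩ ≠ 0 := hv.ne_zero _
          have hmem : (fun j => (v ⟨0, h0⟩ j : ℚ)) ∈ A ⊓ B := by
            have hsub : (fun j => (v ⟨0, h0⟩ j : ℚ)) ∈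
                Submodule.span ℚ (Set.range fun i j => (v i j : ℚ)) :=
              Submodule.subset_span ⟨⟨0, h0⟩, rfl⟩
            exact hspan.le hsub
          have h5 : 1 ≤ td (D d (A ⊓ B)) := by
            refine (h2 _ hv0).trans (OV.td_mono ?_)
            intro x hx
            simp only [D, Set.mem_iUnion, Set.mem_ofPred_eq]
            exact ⟨_, hmem, hx⟩
          have h6 : td (D d (A ⊔ B)) + 1 ≤ 2 := (add_le_add le_rfl h5).trans hs2
          have h7 : ((3 : ℕ) : ℕ∞) ≤ 2 := ht.trans h6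
          exact absurd h7 (by decide)
      · have h8 : A ⊓ B = B := Submodule.eq_of_le_of_finrank_le inf_le_right (by omega)
        exact inf_eq_right.1 h8
  · refine ⟨⊥, ?_, fun A hA2 hA1 => (hex ⟨A, hA2, hA1⟩).elim⟩
    intro hbt
    have h3 : Module.finrank ℚ (⊥ : Submodule ℚ (Fin n → ℚ)) =
        Module.finrank ℚ (⊤ : Submodule ℚ (Fin n → ℚ)) := by rw [hbt]
    rw [finrank_top, Module.finrank_fin_fun, finrank_bot] at h3
    omega

/-- Proof. Every proper subspace `N i` is contained in the kernel of a nonzero linear form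
`φ i (x) = ∑ j, c i j x j`. `P = ∏ i, (c i 0 - ∑ j, c i (j + 1) X ^ (j + 1)) : ℚ[X]` is not zero; take a natural
number `t` with `P(t) ≠ 0` and `a j = t ^ (j + 1)`. -/
theorem exists_avoid {r : ℕ} (N : Fin r → Submodule ℚ (Fin (n + 1) → ℚ)) (hN : ∀ i, N i ≠ ⊤) :
    ∃ a : Fin n → ℕ, ∀ i, (fun j => (slv a j : ℚ)) ∉ N i := by
  have hφ : ∀ i, ∃ c : Fin (n + 1) → ℚ, c ≠ 0 ∧ ∀ x ∈ N i, ∑ j, x j * c j = 0 := by
    intro i
    obtain ⟨f, hf0, hf⟩ := Submodule.exists_le_ker_of_lt_top (N i) (lt_top_iff_ne_top.2 (hN i))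
    refine ⟨fun j => f (Pi.single j 1), ?_, fun x hx => ?_⟩
    · intro h0
      apply hf0
      refine LinearMap.pi_ext' fun j => LinearMap.ext_ring ?_
      have := congrFun h0 j
      simpa using this
    · have h1 : f x = 0 := hf hx
      rw [← h1]
      conv_rhs => rw [pi_eq_sum_univ' x, map_sum]
      refine Finset.sum_congr rfl fun j _ => ?_
      rw [map_smul, smul_eq_mul]
  choose c hc0 hc using hφ
  let P : Fin r → Polynomial ℚ := fun i =>
    Polynomial.C (c i 0) - ∑ j : Fin n, Polynomial.C (c i j.succ) * Polynomial.X ^ ((j : ℕ) + 1)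
  have hcoeff0 : ∀ i, (P i).coeff 0 = c i 0 := by
    intro i
    simp [P]
  have hcoeff : ∀ i (j : Fin n), (P i).coeff ((j : ℕ) + 1) = -c i j.succ := by
    intro i j
    simp only [P, Polynomial.coeff_sub, Polynomial.finsetSum_coeff, Polynomial.coeff_C_mul,
      Polynomial.coeff_X_pow, Polynomial.coeff_C_succ, zero_sub, neg_inj]
    rw [Finset.sum_eq_single j]
    · simp
    · intro b _ hb
      rw [if_neg, mul_zero]
      intro h
      apply hb
      apply Fin.ext
      omega
    · intro h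
      exact absurd (Finset.mem_univ j) h
  have hP : ∀ i, P i ≠ 0 := by
    intro i h0
    apply hc0 i
    funext j
    refine Fin.cases ?_ (fun j => ?_) j
    · have := hcoeff0 i
      rw [h0, Polynomial.coeff_zero] at this
      simpa using this.symm
    · have := hcoeff i j
      rw [h0, Polynomial.coeff_zero] at this
      have h2 : c i j.succ = 0 := by linarith
      simpa using h2
  have hprod : ∏ i, P i ≠ 0 := Finset.prod_ne_zero_iff.2 fun i _ => hP i
  have ht : ∃ t : ℕ, (∏ i, P i).eval (t : ℚ) ≠ 0 := by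
    by_contra hcon
    have hcon' : ∀ t : ℕ, (∏ i, P i).eval (t : ℚ) = 0 := by
      intro t
      by_contra h
      exact hcon ⟨t, h⟩
    apply hprod
    apply Polynomial.eq_zero_of_infinite_isRoot
    refine Set.Infinite.mono ?_ (Set.infinite_range_of_injective (Nat.cast_injective (R := ℚ)))
    rintro _ ⟨t, rfl⟩
    exact hcon' t
  obtain ⟨t, ht⟩ := ht
  rw [Polynomial.eval_prod] at ht
  refine ⟨fun j => t ^ ((j : ℕ) + 1), fun i hi => ?_⟩
  have h1 := hc i _ hi
  have h2 := Finset.prod_ne_zero_iff.1 ht i (Finset.mem_univ i)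
  apply h2
  rw [Fin.sum_univ_succ] at h1
  simp only [slv, Fin.cons_zero, Fin.cons_succ] at h1
  simp only [P, Polynomial.eval_sub, Polynomial.eval_C, Polynomial.eval_finsetSum,
    Polynomial.eval_mul, Polynomial.eval_pow, Polynomial.eval_X]
  push_cast at h1
  rw [sub_eq_add_neg, ← Finset.sum_neg_distrib, ← h1, one_mul]
  congr 1
  refine Finset.sum_congr rfl fun j _ => ?_
  ring

end Pool.Agent.Lib.MP_209724_lc.CT
end

section

namespace Pool.Agent.Lib.MP_209724_lc.CT

open MvPolynomial AlgebraicIndependent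
open OV (cl td lin mon HasExp IsConst)

variable {Ω : Type} [Field Ω] [Algebra ℂ Ω]

/-- **Generic linear combinations.** `x`, `y` are algebraically independent over `cl s`; for countably many
`g i` which are not algebraic over `s` there is `b ∈ ℂ` such that they are not algebraic over
`s ∪ {x + b y}`.

Proof. Suppose that `g ∉ cl s` and that `g ∈ cl (insert (x + b y) s)` and `g ∈ cl (insert (x + b' y) s)` with
`b ≠ b'`. By `OV.cl_exchange` `x + b y` and `x + b' y` are in `cl (insert g s)`, hence `x` and `y` are. So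
`td (s ∪ {x, y}) ≤ td (insert g s) ≤ td s + 1`, a contradiction (`td s` is finite). So each `g i` excludes at
most one `b`; `ℂ` is uncountable. -/
theorem exists_comb {s : Set Ω} (hs : td s ≠ ⊤) {x y : Ω} (hxy : td (insert x (insert y s)) = td s + 2)
    {lam : Type} [Countable lam] (g : lam → Ω) (hg : ∀ l, g l ∉ cl s) :
    ∃ b : ℂ, ∀ l, g l ∉ cl (insert (x + algebraMap ℂ Ω b * y) s) := by
  have key : ∀ l, {b : ℂ | g l ∈ cl (insert (x + algebraMap ℂ Ω b * y) s)}.Subsingleton := by
    intro l b hb b' hb'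
    by_contra hne
    have h1 : x + algebraMap ℂ Ω b * y ∈ OV.Cl (insert (g l) s) :=
      OV.cl_exchange hb (hg l)
    have h2 : x + algebraMap ℂ Ω b' * y ∈ OV.Cl (insert (g l) s) :=
      OV.cl_exchange hb' (hg l)
    have hbb : algebraMap ℂ Ω (b - b') ≠ 0 := by
      rw [Ne, map_eq_zero_iff _ (algebraMap ℂ Ω).injective]
      exact sub_ne_zero.2 hne
    have hy : y ∈ OV.Cl (insert (g l) s) := by
      have h3 : y = (x + algebraMap ℂ Ω b * y - (x + algebraMap ℂ Ω b' * y)) *
          (algebraMap ℂ Ω (b - b'))⁻¹ := by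
        rw [eq_mul_inv_iff_mul_eq₀ hbb, map_sub]
        ring
      rw [h3]
      exact mul_mem (sub_mem h1 h2) (inv_mem ((OV.Cl (insert (g l) s)).algebraMap_mem _))
    have hx : x ∈ OV.Cl (insert (g l) s) := by
      have h3 : x = x + algebraMap ℂ Ω b * y - algebraMap ℂ Ω b * y := by ring
      rw [h3]
      exact sub_mem h1 (mul_mem ((OV.Cl (insert (g l) s)).algebraMap_mem _) hy)
    have h4 : insert x (insert y s) ⊆ cl (insert (g l) s) := by
      refine Set.insert_subset hx (Set.insert_subset hy ?_)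
      exact (Set.subset_insert _ _).trans (OV.subset_cl _)
    have h5 : td s + 2 ≤ td s + 1 := by
      rw [← hxy]
      exact (OV.td_le_of_subset_cl h4).trans (OV.td_insert_le _ _)
    have h6 := (ENat.add_le_add_iff_left hs).1 h5
    exact absurd h6 (by decide)
  have hcount : (⋃ l, {b : ℂ | g l ∈ cl (insert (x + algebraMap ℂ Ω b * y) s)}).Countable :=
    Set.countable_iUnion fun l => (key l).countable
  by_contra hcon
  push Not at hcon
  refine not_countable_complex (hcount.mono ?_)
  intro b _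
  obtain ⟨l, hl⟩ := hcon b
  exact Set.mem_iUnion.2 ⟨l, hl⟩

/-- Two algebraically independent elements of a family. Proof. A basis (in the matroid) of `Set.range y` over
`s`: choose `i` with `y i ∉ cl s` and `j` with `y j ∉ cl (insert (y i) s)`; they exist since otherwise
`td (s ∪ Set.range y) ≤ td s + 1`. -/
theorem exists_pair {s : Set Ω} (hs : td s ≠ ⊤) {n : ℕ} (y : Fin n → Ω)
    (h : td s + 2 ≤ td (s ∪ Set.range y)) :
    ∃ i j, td (insert (y i) (insert (y j) s)) = td s + 2 := by
  have h1 : ∃ j, y j ∉ cl s := by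
    by_contra hcon
    push Not at hcon
    have h2 : td (s ∪ Set.range y) ≤ td s := by
      refine OV.td_le_of_subset_cl (Set.union_subset (OV.subset_cl s) ?_)
      rintro _ ⟨j, rfl⟩
      exact hcon j
    have h3 : td s + 2 ≤ td s + 0 := by
      rw [add_zero]
      exact h.trans h2
    exact absurd ((ENat.add_le_add_iff_left hs).1 h3) (by decide)
  obtain ⟨j, hj⟩ := h1
  have h2 : ∃ i, y i ∉ cl (insert (y j) s) := by
    by_contra hcon
    push Not at hcon
    have h3 : td (s ∪ Set.range y) ≤ td (insert (y j) s) := by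
      refine OV.td_le_of_subset_cl (Set.union_subset ?_ ?_)
      · exact (Set.subset_insert _ _).trans (OV.subset_cl _)
      · rintro _ ⟨i, rfl⟩
        exact hcon i
    have h4 : td s + 2 ≤ td s + 1 := h.trans (h3.trans (OV.td_insert_le _ _))
    exact absurd ((ENat.add_le_add_iff_left hs).1 h4) (by decide)
  obtain ⟨i, hi⟩ := h2
  refine ⟨i, j, ?_⟩
  rw [OV.td_insert_eq hi, OV.td_insert_eq hj, add_assoc]
  norm_num

end Pool.Agent.Lib.MP_209724_lc.CT
end
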