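import Mathlib
import Pool.Agent.Lib.MP_209724_lc.CT.Defs
import Pool.Agent.Lib.MP_209724_lc.CT.Par
import Pool.Agent.Lib.MP_209724_lc.HS.Sector
import Pool.Agent.Lib.MP_209724_lc.OV.AllDim
import Pool.Agent.Lib.MP_209724_lc.OV.LemmaAFin

section

namespace Pool.Agent.Lib.MP_209724_lc.CT

open MvPolynomial AlgebraicIndependent
open OV (cl td lin mon HasExp IsConst)

variable {Ω : Type} [Field Ω] [Algebra ℂ Ω]

/-- **A countable field of definition.** Proof. The ideal `I = ker (aeval ζ)` of the noetherian ring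
`MvPolynomial κ ℂ` is the span of a finite set `s`. Let `K` be the subfield of `ℂ` generated by `T` and
the coefficients of the elements of `s` (a countable set; a subfield generated by a countable set is
countable: `Subfield.closure`, compare `exists_avoid` in `SC/Gn1.lean`, which uses
`IntermediateField.cardinalMk_adjoin_le` over `ℚ`; one may take `IntermediateField.adjoin ℚ _` and its
`toSubfield`). Each `g ∈ s` is `map (algebraMap K ℂ) g'` for some `g'`
(`MvPolynomial.mem_range_map_iff_coeffs_subset` or explicitly by `as_sum`). -/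
theorem exists_field {κ : Type} [Finite κ] (ζ : κ → Ω) (T : Set ℂ) (hT : T.Countable) :
    ∃ K : Subfield ℂ, (K : Set ℂ).Countable ∧ T ⊆ (K : Set ℂ) ∧ DefOver K ζ := by
  obtain ⟨s, hs⟩ := (isNoetherianRing_iff_ideal_fg (MvPolynomial κ ℂ)).mp inferInstance
    (RingHom.ker (aeval ζ : MvPolynomial κ ℂ →ₐ[ℂ] Ω))
  have hC : (T ∪ ⋃ g ∈ s, ((g.coeffs : Finset ℂ) : Set ℂ)).Countable := by
    refine hT.union ?_
    exact s.countable_toSet.biUnion fun g _ => g.coeffs.countable_toSet
  refine ⟨Subfield.closure (T ∪ ⋃ g ∈ s, ((g.coeffs : Finset ℂ) : Set ℂ)), ?_, ?_, ?_⟩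
  · have h1 : Cardinal.mk (Subfield.closure (T ∪ ⋃ g ∈ s, ((g.coeffs : Finset ℂ) : Set ℂ))) ≤
        Cardinal.aleph0 := by
      refine (Subfield.cardinalMk_closure_le_max _).trans (max_le ?_ le_rfl)
      exact Cardinal.mk_le_aleph0_iff.2 hC
    exact Cardinal.mk_le_aleph0_iff.1 h1
  · exact Set.subset_union_left.trans Subfield.subset_closure
  · intro f hf
    have hfI : f ∈ Ideal.span (s : Set (MvPolynomial κ ℂ)) := by
      rw [hs]
      exact (RingHom.mem_ker).mpr hf
    refine Ideal.span_mono ?_ hfI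
    intro g hg
    have hgs : g ∈ s := hg
    have h1 : g ∈ Set.range (MvPolynomial.map (algebraMap (Subfield.closure
        (T ∪ ⋃ g ∈ s, ((g.coeffs : Finset ℂ) : Set ℂ))) ℂ)) := by
      rw [MvPolynomial.mem_range_map_iff_coeffs_subset]
      intro c hc
      refine ⟨⟨c, Subfield.subset_closure (Or.inr ?_)⟩, rfl⟩
      exact Set.mem_biUnion hgs hc
    obtain ⟨g', hg'⟩ := h1
    refine ⟨g', ?_, hg'⟩
    show aeval ζ (map (algebraMap _ ℂ) g') = 0
    rw [hg']
    have h2 : g ∈ RingHom.ker (aeval ζ : MvPolynomial κ ℂ →ₐ[ℂ] Ω) := by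
      rw [← hs]
      exact Ideal.subset_span hgs
    exact (RingHom.mem_ker).mp h2

end Pool.Agent.Lib.MP_209724_lc.CT
end

section

namespace Pool.Agent.Lib.MP_209724_lc.CT

open MvPolynomial AlgebraicIndependent
open OV (cl td lin mon HasExp IsConst)

variable {Ω : Type} [Field Ω] [Algebra ℂ Ω] {n : ℕ}

private theorem lin_zero' (ξ : Fin n → Ω) : lin (0 : Fin n → ℤ) ξ = 0 := by
  simp [lin]

omit [Algebra ℂ Ω] in
private theorem mon_zero' (η : Fin n → Ω) : mon (0 : Fin n → ℤ) η = 1 := by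
  simp [mon]

private theorem lin_single' (i : Fin n) (ξ : Fin n → Ω) : lin (Pi.single i 1) ξ = ξ i := by
  rw [lin, Finset.sum_eq_single i]
  · simp
  · intro j _ hj
    simp [Pi.single_eq_of_ne hj]
  · intro h
    exact absurd (Finset.mem_univ i) h

omit [Algebra ℂ Ω] in
private theorem mon_single' (i : Fin n) (η : Fin n → Ω) : mon (Pi.single i 1) η = η i := by
  rw [mon, Finset.prod_eq_single i]
  · simp
  · intro j _ hj
    simp [Pi.single_eq_of_ne hj]
  · intro h
    exact absurd (Finset.mem_univ i) h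

private theorem zero_mem_cl (s : Set Ω) : (0 : Ω) ∈ cl s := by
  have h := OV.const_mem_cl s 0
  rwa [map_zero] at h

private theorem one_mem_cl (s : Set Ω) : (1 : Ω) ∈ cl s := by
  have h := OV.const_mem_cl s 1
  rwa [map_one] at h

private theorem lin_range (ξ : Fin n → Ω) (m : Fin n → ℤ) : lin m ξ ∈ cl (Set.range ξ) :=
  OV.lin_mem_cl m fun i => OV.subset_cl _ ⟨i, rfl⟩

private theorem mon_range (η : Fin n → Ω) (m : Fin n → ℤ) : mon m η ∈ cl (Set.range η) :=
  OV.mon_mem_cl m fun i => OV.subset_cl _ ⟨i, rfl⟩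

omit [Field Ω] [Algebra ℂ Ω] in
private theorem mem_D {d : (Fin n → ℤ) → Set Ω} {A : Submodule ℚ (Fin n → ℚ)} {m : Fin n → ℤ}
    (hm : (fun i => (m i : ℚ)) ∈ A) : d m ⊆ D d A := by
  intro x hx
  simp only [D, Set.mem_iUnion]
  exact ⟨m, hm, hx⟩

/-- linear independence of `m = slv a` and the `ext (v i)` over `ℚ` -/
private theorem li_cons {r : ℕ} (a : Fin n → ℕ) (v : Fin r → Fin n → ℤ)
    (hv : LinearIndependent ℤ v) :
    LinearIndependent ℚ (fun (i : Fin (r + 1)) (j : Fin (n + 1)) =>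
      (((Fin.cons (slv a) (fun i => ext (v i)) : Fin (r + 1) → Fin (n + 1) → ℤ) i j : ℤ) : ℚ)) := by
  have h1 : (fun (i : Fin (r + 1)) (j : Fin (n + 1)) =>
      (((Fin.cons (slv a) (fun i => ext (v i)) : Fin (r + 1) → Fin (n + 1) → ℤ) i j : ℤ) : ℚ)) =
      (Fin.cons (fun j => (slv a j : ℚ)) (fun i j => (ext (v i) j : ℚ)) :
        Fin (r + 1) → Fin (n + 1) → ℚ) := by
    funext i j
    refine Fin.cases ?_ (fun i => ?_) i <;> simp
  rw [h1, linearIndependent_finCons]
  constructor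
  · -- the vectors `ext (v i)`
    have h2 : LinearIndependent ℚ (fun (i : Fin r) (j : Fin n) => (v i j : ℚ)) := by
      rw [← LinearIndependent.iff_fractionRing ℤ ℚ]
      let φ : (Fin n → ℤ) →ₗ[ℤ] (Fin n → ℚ) :=
        { toFun := fun m i => (m i : ℚ)
          map_add' := fun m m' => by funext i; simp
          map_smul' := fun k m => by funext i; simp }
      have hφ : LinearMap.ker φ = ⊥ := by
        rw [LinearMap.ker_eq_bot]
        intro m m' h
        funext i
        have := congrFun h i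
        exact Int.cast_injective (α := ℚ) this
      exact hv.map' φ hφ
    let ψ : (Fin n → ℚ) →ₗ[ℚ] (Fin (n + 1) → ℚ) :=
      { toFun := fun q => Fin.cons 0 q
        map_add' := fun q q' => by
          funext i
          refine Fin.cases ?_ (fun i => ?_) i <;> simp
        map_smul' := fun k q => by
          funext i
          refine Fin.cases ?_ (fun i => ?_) i <;> simp }
    have hψ : LinearMap.ker ψ = ⊥ := by
      rw [LinearMap.ker_eq_bot]
      intro q q' h
      funext i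
      have h6 := congrFun h i.succ
      simpa [ψ] using h6
    have h3 := h2.map' ψ hψ
    have h7 : (fun (i : Fin r) (j : Fin (n + 1)) => (ext (v i) j : ℚ)) =
        ψ ∘ fun (i : Fin r) (j : Fin n) => (v i j : ℚ) := by
      funext i j
      refine Fin.cases ?_ (fun j => ?_) j <;> simp [ψ, ext]
    rw [h7]
    exact h3
  · intro h
    have h4 : ∀ x ∈ Submodule.span ℚ (Set.range fun (i : Fin r) (j : Fin (n + 1)) =>
        (ext (v i) j : ℚ)), x 0 = 0 := by
      intro x hx
      refine Submodule.span_induction ?_ ?_ ?_ ?_ hx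
      · rintro _ ⟨i, rfl⟩
        simp [ext]
      · rfl
      · intro x y _ _ hx hy
        rw [Pi.add_apply, hx, hy, add_zero]
      · intro k x _ hx
        rw [Pi.smul_apply, hx, smul_zero]
    have h5 := h4 _ h
    simp [slv] at h5

/-- **Good directions of slices.** `W` is a hypersurface, `V` has codimension three, some monomial is
algebraic over `ℂ(W)`.

Proof. All spaces are subspaces of `Fin (n + 1) → ℚ`. Let `d m = {lin m ξ} ∪ {mon m η}` (`isLat_union`).
1. `hrot'`: `finrank A ≤ td (D d A)` for all `A` (`exists_int_basis`, `hrot`, `D_span`); `td (D d ⊤) = td (range ξ ∪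
   range η) = 2 n - 1 > n + 1`. `exists_tight` gives `N₁`.
2. `N₂`: `exists_subspace` for `g m = mon m η`, `s = range ξ`. `N₂ ≠ ⊤`: otherwise all `η i ∈ cl (range ξ)` and
   `2 n - 1 = td (range ξ ∪ range η) = td (range ξ) = n`.
3. `N₃`: `exists_subspace` for `g m = lin m ξ`, `s = range η`. `N₃ ≠ ⊤`: otherwise all `ξ i ∈ cl (range η)` and
   `2 n - 1 = td (range η) ≤ n + 1`, but `n ≥ 3`.
4. `N₄`: `exists_plane` for `d m = {lin m ξ}` (`finrank_le_rk`, `td (range ξ) = n`; `td {lin m ξ} ≥ 1` by `hadd`,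
   `OV.isConst_iff`).
5. `td (range η) ≥ n`: `mon m₀ η` is in `cl (range ξ) ∩ cl (range η)`, not constant, so by `OV.td_union_inter`
   `(2 n - 1) + 1 ≤ td (range ξ) + td (range η) = n + td (range η)`. `N₅`: `exists_plane` for `d m = {mon m η}`.
`exists_avoid` gives `a` with `m = slv a ∉ N₁, …, N₅`. The first claim is `m ∉ N₂`. Let `v ≠ 0`; `ext v` and `m` are
linearly independent (first coordinates `0` and `1`), `A = span {m, ext v}` is a plane.
* Suppose `lin (ext v) ξ ∈ cl {lin m ξ, mon m η}`. If `lin (ext v) ξ ∉ cl {lin m ξ}`, then by `OV.cl_exchange`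
  `mon m η ∈ cl {lin m ξ, lin (ext v) ξ} ⊆ cl (range ξ)`, which contradicts the first claim. So
  `lin (ext v) ξ ∈ cl {lin m ξ}` and `td (D {lin} A) = td {lin m ξ, lin (ext v) ξ} ≤ 1` (`D_span`), hence
  `m ∈ A ≤ N₄`, a contradiction.
* Suppose `mon (ext v) η ∈ cl {lin m ξ, mon m η}`. If it is not in `cl {mon m η}`, then
  `lin m ξ ∈ cl {mon m η, mon (ext v) η} ⊆ cl (range η)`, a contradiction to `m ∉ N₃`; otherwise `A ≤ N₅`, a
  contradiction.
* Let `v : Fin r → Fin n → ℤ` be linearly independent, `A` the span of `m` and the `ext (v i)`,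
  `finrank A = r + 1`. `A ≤ N₁` is false, so `td (D d A) > r + 1`, and `td (D d A)` is the right hand side
  (`D_span` for `Fin.cons m (ext ∘ v)`). -/
theorem exists_good (hn : 3 ≤ n) (ξ η : Fin (n + 1) → Ω) (hη : ∀ i, η i ≠ 0)
    (hadd : ∀ m : Fin (n + 1) → ℤ, m ≠ 0 → ¬ IsConst (lin m ξ))
    (hmul : ∀ m : Fin (n + 1) → ℤ, m ≠ 0 → ¬ IsConst (mon m η)) (hrot : Rot ξ η)
    (h1 : td (Set.range ξ) = n) (h2 : td (Set.range ξ ∪ Set.range η) + 1 = 2 * n)
    (m₀ : Fin (n + 1) → ℤ) (hm₀ : m₀ ≠ 0) (hL : mon m₀ η ∈ cl (Set.range ξ)) :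
    ∃ a : Fin n → ℕ, mon (slv a) η ∉ cl (Set.range ξ) ∧
      (∀ v : Fin n → ℤ, v ≠ 0 →
        lin (ext v) ξ ∉ cl ({lin (slv a) ξ, mon (slv a) η} : Set Ω)) ∧
      (∀ v : Fin n → ℤ, v ≠ 0 →
        mon (ext v) η ∉ cl ({lin (slv a) ξ, mon (slv a) η} : Set Ω)) ∧
      ∀ (r : ℕ) (v : Fin r → Fin n → ℤ), LinearIndependent ℤ v → (r : ℕ∞) + 2 ≤
        td (st ξ η (ext '' Set.range v) (ext '' Set.range v) ∪
          {lin (slv a) ξ, mon (slv a) η}) := by
  have h2n : (2 * n : ℕ) = td (Set.range ξ ∪ Set.range η) + 1 := by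
    rw [h2]; push_cast; ring
  obtain ⟨t, ht⟩ : ∃ t : ℕ, td (Set.range ξ ∪ Set.range η) = t := by
    have h3 : td (Set.range ξ ∪ Set.range η) ≠ ⊤ := by
      intro h4
      rw [h4, top_add] at h2n
      exact ENat.natCast_ne_top _ h2n
    obtain ⟨t, ht⟩ := ENat.ne_top_iff_exists.1 h3
    exact ⟨t, ht.symm⟩
  have ht2 : 2 * n = t + 1 := by
    rw [ht] at h2n
    exact_mod_cast h2n
  have hLl : IsLat fun m => ({lin m ξ} : Set Ω) := isLat_lin ξ
  have hLm : IsLat fun m => ({mon m η} : Set Ω) := isLat_mon η hη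
  have hLd : IsLat fun m => ({lin m ξ} : Set Ω) ∪ {mon m η} := isLat_union hLl hLm
  have h0l : lin (0 : Fin (n + 1) → ℤ) ξ ∈ cl (∅ : Set Ω) := by
    rw [lin_zero']; exact zero_mem_cl _
  have h0m : mon (0 : Fin (n + 1) → ℤ) η ∈ cl (∅ : Set Ω) := by
    rw [mon_zero']; exact one_mem_cl _
  have h0d : ({lin (0 : Fin (n + 1) → ℤ) ξ} : Set Ω) ∪ {mon (0 : Fin (n + 1) → ℤ) η} ⊆ cl ∅ := by
    rintro x (rfl | rfl)
    · exact h0l
    · exact h0m
  -- the tight space
  obtain ⟨N₁, hN₁, hN₁'⟩ := exists_tight hLd h0d (by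
    intro A
    obtain ⟨v, hv, hvA⟩ := exists_int_basis A
    refine (hrot _ v hv).trans (OV.td_mono ?_)
    rintro x (⟨m, ⟨i, rfl⟩, rfl⟩ | ⟨m, ⟨i, rfl⟩, rfl⟩)
    · refine mem_D (m := v i) ?_ (Or.inl rfl)
      rw [← hvA]
      exact Submodule.subset_span ⟨i, rfl⟩
    · refine mem_D (m := v i) ?_ (Or.inr rfl)
      rw [← hvA]
      exact Submodule.subset_span ⟨i, rfl⟩) (by
    have h3 : td (Set.range ξ ∪ Set.range η) ≤
        td (D (fun m => ({lin m ξ} : Set Ω) ∪ {mon m η}) (⊤ : Submodule ℚ (Fin (n + 1) → ℚ))) := by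
      refine OV.td_mono ?_
      rintro x (⟨i, rfl⟩ | ⟨i, rfl⟩)
      · refine mem_D (m := Pi.single i 1) Submodule.mem_top (Or.inl ?_)
        rw [lin_single']; rfl
      · refine mem_D (m := Pi.single i 1) Submodule.mem_top (Or.inr ?_)
        rw [mon_single']; rfl
    refine lt_of_lt_of_le ?_ h3
    rw [ht]
    exact_mod_cast (by omega : n + 1 < t))
  -- the second space
  obtain ⟨N₂, hN₂'⟩ := exists_subspace hLm (Set.range ξ) (OV.cl_mono (Set.empty_subset _) h0m)
  have hN₂ : N₂ ≠ ⊤ := by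
    rintro rfl
    have h3 : Set.range η ⊆ cl (Set.range ξ) := by
      rintro x ⟨i, rfl⟩
      have h4 := (hN₂' (Pi.single i 1)).1 Submodule.mem_top
      rwa [mon_single'] at h4
    have h4 := OV.td_union_eq_of_subset h3
    rw [h1, ht] at h4
    have h5 : t = n := by exact_mod_cast h4
    omega
  -- the third space
  obtain ⟨N₃, hN₃'⟩ := exists_subspace hLl (Set.range η) (OV.cl_mono (Set.empty_subset _) h0l)
  have hN₃ : N₃ ≠ ⊤ := by
    rintro rfl
    have h3 : Set.range ξ ⊆ cl (Set.range η) := by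
      rintro x ⟨i, rfl⟩
      have h4 := (hN₃' (Pi.single i 1)).1 Submodule.mem_top
      rwa [lin_single'] at h4
    have h4 := OV.td_union_eq_of_subset h3
    rw [Set.union_comm, ht] at h4
    have h5 : td (Set.range η) ≤ ((n + 1 : ℕ) : ℕ∞) := by
      refine (OV.td_le_encard _).trans ?_
      rw [← Set.image_univ]
      refine (Set.encard_image_le _ _).trans ?_
      rw [Set.encard_univ]
      simp
    rw [← h4] at h5
    have h6 : t ≤ n + 1 := by exact_mod_cast h5
    omega
  -- the planes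
  have hrl : (((n + 1 : ℕ)) : ℕ∞) ≤ td (Set.range fun m => lin m ξ) + 1 := by
    have h3 : td (Set.range ξ) ≤ td (Set.range fun m : Fin (n + 1) → ℤ => lin m ξ) := by
      refine OV.td_mono ?_
      rintro x ⟨i, rfl⟩
      exact ⟨Pi.single i 1, lin_single' i ξ⟩
    rw [h1] at h3
    push_cast
    gcongr
  obtain ⟨N₄, hN₄, hN₄'⟩ := exists_plane hLl (by omega) (finrank_le_rk hLl h0l hrl) (by
    intro m hm
    rw [OV.td_singleton (hadd m hm)])
  have hreta : (n : ℕ∞) ≤ td (Set.range η) := by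
    have h3 := OV.td_union_inter (cl (Set.range ξ)) (cl (Set.range η))
    rw [OV.td_cl, OV.td_cl, h1] at h3
    have h4 : (1 : ℕ∞) ≤ td (cl (Set.range ξ) ∩ cl (Set.range η)) := by
      rw [← OV.td_singleton (hmul m₀ hm₀)]
      refine OV.td_mono ?_
      rintro x rfl
      exact ⟨hL, mon_range η m₀⟩
    have h5 : (t : ℕ∞) ≤ td (cl (Set.range ξ) ∪ cl (Set.range η)) := by
      rw [← ht]
      exact OV.td_mono (Set.union_subset_union (OV.subset_cl _) (OV.subset_cl _))
    have h6 : (1 : ℕ∞) + t ≤ n + td (Set.range η) := (add_le_add h4 h5).trans h3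
    have h7 : (n : ℕ∞) + n ≤ n + td (Set.range η) := by
      refine le_trans ?_ h6
      exact_mod_cast (by omega : n + n ≤ 1 + t)
    exact (ENat.add_le_add_iff_left (ENat.natCast_ne_top n)).1 h7
  have hrm : (((n + 1 : ℕ)) : ℕ∞) ≤ td (Set.range fun m => mon m η) + 1 := by
    have h3 : td (Set.range η) ≤ td (Set.range fun m : Fin (n + 1) → ℤ => mon m η) := by
      refine OV.td_mono ?_
      rintro x ⟨i, rfl⟩
      exact ⟨Pi.single i 1, mon_single' i η⟩
    have h4 := hreta.trans h3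
    push_cast
    gcongr
  obtain ⟨N₅, hN₅, hN₅'⟩ := exists_plane hLm (by omega) (finrank_le_rk hLm h0m hrm) (by
    intro m hm
    rw [OV.td_singleton (hmul m hm)])
  obtain ⟨a, ha⟩ := exists_avoid ![N₁, N₂, N₃, N₄, N₅] (by
    intro i
    fin_cases i
    · exact hN₁
    · exact hN₂
    · exact hN₃
    · exact hN₄
    · exact hN₅)
  have ha1 : (fun j => (slv a j : ℚ)) ∉ N₁ := ha 0
  have ha2 : (fun j => (slv a j : ℚ)) ∉ N₂ := ha 1
  have ha3 : (fun j => (slv a j : ℚ)) ∉ N₃ := ha 2
  have ha4 : (fun j => (slv a j : ℚ)) ∉ N₄ := ha 3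
  have ha5 : (fun j => (slv a j : ℚ)) ∉ N₅ := ha 4
  have c1 : mon (slv a) η ∉ cl (Set.range ξ) := fun h => ha2 ((hN₂' _).2 h)
  have c3 : lin (slv a) ξ ∉ cl (Set.range η) := fun h => ha3 ((hN₃' _).2 h)
  -- the span of `slv a` and the `ext (v i)`
  have hfin : ∀ (r : ℕ) (v : Fin r → Fin n → ℤ), LinearIndependent ℤ v →
      Module.finrank ℚ (Submodule.span ℚ (Set.range fun (i : Fin (r + 1)) (j : Fin (n + 1)) =>
        (((Fin.cons (slv a) (fun i => ext (v i)) : Fin (r + 1) → Fin (n + 1) → ℤ) i j : ℤ) : ℚ)))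
        = r + 1 := by
    intro r v hv
    rw [finrank_span_eq_card (li_cons a v hv), Fintype.card_fin]
  have hmemA : ∀ (r : ℕ) (v : Fin r → Fin n → ℤ), (fun j => (slv a j : ℚ)) ∈
      Submodule.span ℚ (Set.range fun (i : Fin (r + 1)) (j : Fin (n + 1)) =>
        (((Fin.cons (slv a) (fun i => ext (v i)) : Fin (r + 1) → Fin (n + 1) → ℤ) i j : ℤ) : ℚ)) :=
    fun r v => Submodule.subset_span ⟨0, by simp⟩
  have hone : ∀ v : Fin n → ℤ, v ≠ 0 → LinearIndependent ℤ (fun _ : Fin 1 => v) := by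
    intro v hv
    rw [linearIndependent_unique_iff]
    exact hv
  have htd1 : ∀ (g : (Fin (n + 1) → ℤ) → Ω), IsLat (fun m => ({g m} : Set Ω)) →
      g 0 ∈ cl (∅ : Set Ω) → ∀ v : Fin n → ℤ, g (ext v) ∈ cl {g (slv a)} →
      td (D (fun m => ({g m} : Set Ω)) (Submodule.span ℚ (Set.range
        fun (i : Fin (1 + 1)) (j : Fin (n + 1)) =>
        (((Fin.cons (slv a) (fun _ : Fin 1 => ext v) : Fin (1 + 1) → Fin (n + 1) → ℤ) i j : ℤ) :
          ℚ)))) ≤ 1 := by
    intro g hg hg0 v hv
    rw [← OV.td_cl, D_span hg (by rintro x rfl; exact hg0), OV.td_cl]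
    refine le_trans (OV.td_le_of_subset_cl (t := {g (slv a)}) ?_) (OV.td_singleton_le _)
    refine Set.iUnion_subset fun i => ?_
    refine Fin.cases ?_ (fun i => ?_) i
    · simp only [Fin.cons_zero]
      exact OV.subset_cl _
    · simp only [Fin.cons_succ]
      rintro x rfl
      exact hv
  refine ⟨a, c1, ?_, ?_, ?_⟩
  · intro v hv hcon
    by_cases h3 : lin (ext v) ξ ∈ cl {lin (slv a) ξ}
    · exact ha4 (hN₄' _ (hfin 1 _ (hone v hv)) (htd1 (fun m => lin m ξ) hLl h0l v h3)
        (hmemA 1 fun _ => v))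
    · rw [Set.pair_comm] at hcon
      have h4 := OV.cl_exchange hcon h3
      refine c1 (OV.cl_subset ?_ h4)
      rintro x (rfl | rfl)
      · exact lin_range ξ _
      · exact lin_range ξ _
  · intro v hv hcon
    by_cases h3 : mon (ext v) η ∈ cl {mon (slv a) η}
    · exact ha5 (hN₅' _ (hfin 1 _ (hone v hv)) (htd1 (fun m => mon m η) hLm h0m v h3)
        (hmemA 1 fun _ => v))
    · have h4 := OV.cl_exchange hcon h3
      refine c3 (OV.cl_subset ?_ h4)
      rintro x (rfl | rfl)
      · exact mon_range η _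
      · exact mon_range η _
  · intro r v hv
    have h3 := mt (hN₁' (Submodule.span ℚ (Set.range fun (i : Fin (r + 1)) (j : Fin (n + 1)) =>
        (((Fin.cons (slv a) (fun i => ext (v i)) : Fin (r + 1) → Fin (n + 1) → ℤ) i j : ℤ) : ℚ))))
      fun h => ha1 (h (hmemA r v))
    rw [hfin r v hv, not_le, ← OV.td_cl, D_span hLd h0d, OV.td_cl] at h3
    have h4 : (r : ℕ∞) + 2 ≤ td (⋃ i, (({lin ((Fin.cons (slv a) (fun i => ext (v i)) :
        Fin (r + 1) → Fin (n + 1) → ℤ) i) ξ} : Set Ω) ∪ {mon ((Fin.cons (slv a)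
        (fun i => ext (v i)) : Fin (r + 1) → Fin (n + 1) → ℤ) i) η})) := by
      have h5 := Order.add_one_le_of_lt h3
      refine le_trans (le_of_eq ?_) h5
      push_cast
      ring
    refine h4.trans (OV.td_mono ?_)
    refine Set.iUnion_subset fun i => ?_
    refine Fin.cases ?_ (fun i => ?_) i
    · simp only [Fin.cons_zero]
      rintro x (rfl | rfl)
      · exact Or.inr (Or.inl rfl)
      · exact Or.inr (Or.inr rfl)
    · simp only [Fin.cons_succ]
      rintro x (rfl | rfl)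
      · exact Or.inl (Or.inl ⟨_, ⟨_, ⟨i, rfl⟩, rfl⟩, rfl⟩)
      · exact Or.inl (Or.inr ⟨_, ⟨_, ⟨i, rfl⟩, rfl⟩, rfl⟩)

end Pool.Agent.Lib.MP_209724_lc.CT
end

section

namespace Pool.Agent.Lib.MP_209724_lc.CT

open MvPolynomial AlgebraicIndependent
open OV (cl td lin mon HasExp IsConst)
open SC (Om omX)

/-- homomorphisms and algebraic closures -/
private theorem hom_mem_cl {k F Ω' : Type} [Field k] [Algebra k ℂ] [Field F] [Algebra k F]
    [Field Ω'] [Algebra ℂ Ω'] (σ : F →+* Ω')
    (hσ : ∀ c : k, σ (algebraMap k F c) = algebraMap ℂ Ω' (algebraMap k ℂ c)) (s : Set F) (x : F)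
    (hx : x ∈ (matroid k F).closure s) : σ x ∈ cl (σ '' s) := by
  rw [matroid_closure_eq] at hx
  have hx' : IsAlgebraic (Algebra.adjoin k s) x := hx
  have hmem : ∀ a ∈ Algebra.adjoin k s, σ a ∈ Algebra.adjoin ℂ (σ '' s) := by
    intro a ha
    induction ha using Algebra.adjoin_induction with
    | mem a ha => exact Algebra.subset_adjoin ⟨a, ha, rfl⟩
    | algebraMap c => rw [hσ]; exact Subalgebra.algebraMap_mem _ _
    | add a b _ _ iha ihb => rw [map_add]; exact add_mem iha ihb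
    | mul a b _ _ iha ihb => rw [map_mul]; exact mul_mem iha ihb
  let f : Algebra.adjoin k s →+* Algebra.adjoin ℂ (σ '' s) :=
    (σ.comp (Algebra.adjoin k s).val.toRingHom).codRestrict (Algebra.adjoin ℂ (σ '' s))
      (fun a => hmem a a.2)
  refine hx'.ringHom_of_comp_eq f σ (fun p q hpq => ?_) ?_
  · have h1 : σ (p : F) = σ (q : F) := congrArg Subtype.val hpq
    exact Subtype.ext (σ.injective h1)
  · ext a
    rfl

/-- rank of the image in `Om s` -/
private theorem rank_sigma {k F ι : Type} [Field k] [Algebra k ℂ] [Field F] [Algebra k F]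
    [Fintype ι] {s : ℕ} (b : Fin s → F) (u : ι → F)
    (hbas : IsTranscendenceBasis k (Sum.elim b u)) (σ : F →+* Om s)
    (hσ : ∀ c : k, σ (algebraMap k F c) = algebraMap ℂ (Om s) (algebraMap k ℂ c))
    (hσb : ∀ i, σ (b i) = omX i) (a : ι → ℂ) (hσu : ∀ j, σ (u j) = algebraMap ℂ (Om s) (a j))
    (X : Set F) :
    td (σ '' X) + Fintype.card ι = (matroid k F).eRk (X ∪ Set.range u) := by
  classical
  have hi : AlgebraicIndependent k u := hbas.1.comp Sum.inr Sum.inr_injective
  have huinj : Function.Injective u := hi.injective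
  have hui : (matroid k F).Indep (Set.range u) := matroid_indep_iff.2 hi.to_subtype_range
  have hucard : (Set.range u).encard = Fintype.card ι := by
    rw [← Set.image_univ, huinj.encard_image, Set.encard_univ]
    simp
  obtain ⟨I0, hI0, huI0⟩ := hui.subset_isBasis_of_subset (X := X ∪ Set.range u)
    Set.subset_union_right (by simp)
  obtain ⟨B, hB, hI0B⟩ := hI0.indep.exists_isBase_superset
  have hBcard : B.encard = s + Fintype.card ι := by
    have h1 : (matroid k F).IsBase (Set.range (Sum.elim b u)) :=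
      matroid_isBase_iff.2 hbas.to_subtype_range
    rw [hB.encard_eq_eRank, ← h1.encard_eq_eRank, ← Set.image_univ,
      hbas.1.injective.encard_image, Set.encard_univ]
    simp
  set I := I0 \ Set.range u with hI
  have hIc : I.encard + Fintype.card ι = I0.encard := by
    rw [← hucard]
    exact Set.encard_sdiff_add_encard_of_subset huI0
  have hJc : (B \ I0).encard + I0.encard = B.encard := Set.encard_sdiff_add_encard_of_subset hI0B
  rw [hI0.eRk_eq_encard, ← hIc]
  congr 1
  have hconst : ∀ S : Set (Om s), ∀ x ∈ Set.range u, σ x ∈ cl S := by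
    rintro S _ ⟨j, rfl⟩
    rw [hσu]
    exact OV.const_mem_cl S (a j)
  have h0 : σ '' I0 ⊆ cl (σ '' I) := by
    rintro _ ⟨x, hx, rfl⟩
    by_cases hxu : x ∈ Set.range u
    · exact hconst _ x hxu
    · exact OV.subset_cl _ ⟨x, ⟨hx, hxu⟩, rfl⟩
  have hIX : I ⊆ X := by
    rintro x ⟨hx, hxu⟩
    rcases hI0.subset hx with h | h
    · exact h
    · exact absurd h hxu
  have hup : td (σ '' X) ≤ I.encard := by
    have h1 : σ '' X ⊆ cl (σ '' I0) := by
      rintro _ ⟨x, hx, rfl⟩
      refine hom_mem_cl σ hσ I0 x ?_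
      rw [hI0.closure_eq_closure]
      exact (matroid k F).subset_closure _ (by simp) (Set.mem_union_left _ hx)
    calc td (σ '' X) ≤ td (σ '' I0) := OV.td_le_of_subset_cl h1
      _ ≤ td (σ '' I) := OV.td_le_of_subset_cl h0
      _ ≤ (σ '' I).encard := OV.td_le_encard _
      _ ≤ I.encard := Set.encard_image_le _ _
  have hlow : (s : ℕ∞) ≤ td (σ '' X) + (B \ I0).encard := by
    have h1 : td (Set.range (omX : Fin s → Om s)) = s := by
      have h2 := SC.algInd_omX s
      have h3 : (matroid ℂ (Om s)).Indep (Set.range (omX : Fin s → Om s)) :=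
        matroid_indep_iff.2 h2.to_subtype_range
      show (matroid ℂ (Om s)).eRk _ = _
      rw [h3.eRk_eq_encard, ← Set.image_univ, h2.injective.encard_image, Set.encard_univ]
      simp
    have h2 : Set.range (omX : Fin s → Om s) ⊆ cl (σ '' B) := by
      rintro _ ⟨i, rfl⟩
      rw [← hσb]
      refine hom_mem_cl σ hσ B _ ?_
      rw [hB.closure_eq]
      trivial
    have h3 : σ '' B ⊆ cl (σ '' X ∪ σ '' (B \ I0)) := by
      rintro _ ⟨x, hx, rfl⟩
      by_cases hx0 : x ∈ I0
      · by_cases hxu : x ∈ Set.range u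
        · exact hconst _ x hxu
        · exact OV.subset_cl _ (Or.inl ⟨x, hIX ⟨hx0, hxu⟩, rfl⟩)
      · exact OV.subset_cl _ (Or.inr ⟨x, ⟨hx, hx0⟩, rfl⟩)
    calc (s : ℕ∞) = td (Set.range (omX : Fin s → Om s)) := h1.symm
      _ ≤ td (σ '' B) := OV.td_le_of_subset_cl h2
      _ ≤ td (σ '' X ∪ σ '' (B \ I0)) := OV.td_le_of_subset_cl h3
      _ ≤ td (σ '' X) + td (σ '' (B \ I0)) := OV.td_union_le _ _
      _ ≤ td (σ '' X) + (B \ I0).encard := by
        gcongr
        exact (OV.td_le_encard _).trans (Set.encard_image_le _ _)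
  refine le_antisymm hup ?_
  have hsum : (B \ I0).encard + (I.encard + Fintype.card ι) = (s : ℕ∞) + Fintype.card ι := by
    rw [hIc, hJc, hBcard]
  have hfinJ : (B \ I0).encard ≠ ⊤ := by
    intro h
    rw [h, top_add] at hsum
    have : (s : ℕ∞) + Fintype.card ι = ((s + Fintype.card ι : ℕ) : ℕ∞) := by push_cast; rfl
    rw [this] at hsum
    exact absurd hsum.symm (ENat.natCast_ne_top _)
  have hfinI : I.encard ≠ ⊤ := by
    intro h
    rw [h, top_add, add_top] at hsum
    have : (s : ℕ∞) + Fintype.card ι = ((s + Fintype.card ι : ℕ) : ℕ∞) := by push_cast; rfl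
    rw [this] at hsum
    exact absurd hsum.symm (ENat.natCast_ne_top _)
  obtain ⟨i, hi'⟩ := ENat.ne_top_iff_exists.1 hfinI
  obtain ⟨j, hj'⟩ := ENat.ne_top_iff_exists.1 hfinJ
  rw [← hi', ← hj'] at hsum
  have hsum' : j + (i + Fintype.card ι) = s + Fintype.card ι := by exact_mod_cast hsum
  have hs' : s = i + j := by omega
  have hlow' : (i : ℕ∞) + j ≤ td (σ '' X) + j := by
    have h1 : (i : ℕ∞) + j = s := by rw [hs']; push_cast; rfl
    rw [h1, hj']
    exact hlow
  rw [← hi']
  exact (ENat.add_le_add_iff_right (ENat.natCast_ne_top j)).1 hlow'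

/-- rank in `K(ζ)` and rank over `ℂ` -/
private theorem rank_val {Ω : Type} [Field Ω] [Algebra ℂ Ω] {K : Type} [Field K] [Algebra K ℂ]
    [Algebra K Ω] [IsScalarTower K ℂ Ω] {κ : Type} (ζ : κ → Ω) (hdef : DefOver K ζ)
    (X : Set (IntermediateField.adjoin K (Set.range ζ))) :
    td ((fun x : IntermediateField.adjoin K (Set.range ζ) => (x : Ω)) '' X) =
      (matroid K (IntermediateField.adjoin K (Set.range ζ))).eRk X := by
  obtain ⟨I, hI⟩ := (matroid K (IntermediateField.adjoin K (Set.range ζ))).exists_isBasis X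
  let v : IntermediateField.adjoin K (Set.range ζ) →+* Ω :=
    (IntermediateField.adjoin K (Set.range ζ)).val.toRingHom
  have hv : ∀ c : K, v (algebraMap K _ c) = algebraMap ℂ Ω (algebraMap K ℂ c) := by
    intro c
    rw [← IsScalarTower.algebraMap_apply K ℂ Ω]
    rfl
  have h1 : AlgebraicIndependent K fun x : I => (x : IntermediateField.adjoin K (Set.range ζ)) :=
    matroid_indep_iff.1 hI.indep
  have h2 : AlgebraicIndependent K
      fun x : I => ((x : IntermediateField.adjoin K (Set.range ζ)) : Ω) :=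
    h1.map' (f := (IntermediateField.adjoin K (Set.range ζ)).val) Subtype.val_injective
  have h3 : AlgebraicIndependent ℂ
      fun x : I => ((x : IntermediateField.adjoin K (Set.range ζ)) : Ω) :=
    algInd_of_algInd ζ hdef _ (fun x => x.1.2) h2
  have h4 : (matroid ℂ Ω).Indep (v '' I) := by
    have h5 := matroid_indep_iff.2 h3.to_subtype_range
    have h6 : Set.range (fun x : I => ((x : IntermediateField.adjoin K (Set.range ζ)) : Ω)) =
        v '' I := by
      ext y
      simp only [Set.mem_range, Set.mem_image]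
      constructor
      · rintro ⟨x, rfl⟩
        exact ⟨x.1, x.2, rfl⟩
      · rintro ⟨x, hx, rfl⟩
        exact ⟨⟨x, hx⟩, rfl⟩
    rwa [h6] at h5
  have h5 : v '' X ⊆ cl (v '' I) := by
    rintro _ ⟨x, hx, rfl⟩
    refine hom_mem_cl v hv I x ?_
    rw [hI.closure_eq_closure]
    exact (matroid K _).subset_closure _ (by simp) hx
  show td (v '' X) = _
  rw [hI.eRk_eq_encard]
  refine le_antisymm ?_ ?_
  · calc td (v '' X) ≤ td (v '' I) := OV.td_le_of_subset_cl h5
      _ ≤ (v '' I).encard := OV.td_le_encard _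
      _ ≤ I.encard := Set.encard_image_le _ _
  · calc I.encard = (v '' I).encard := (v.injective.encard_image I).symm
      _ = td (v '' I) := h4.eRk_eq_encard.symm
      _ ≤ td (v '' X) := OV.td_mono (Set.image_mono hI.subset)

/-- a transcendence basis of `K(ζ)` with prescribed first elements -/
private theorem exists_bas {K Ω κ ι : Type} [Field K] [Field Ω] [Algebra K Ω] [Finite κ]
    [Fintype ι] (ζ : κ → Ω) (L : IntermediateField K Ω)
    (hL : L = IntermediateField.adjoin K (Set.range ζ)) (u : ι → L)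
    (hu : AlgebraicIndependent K u) :
    ∃ (s : ℕ) (b : Fin s → L), IsTranscendenceBasis K (Sum.elim b u) := by
  classical
  let ζL : κ → L := fun i => ⟨ζ i, by
    rw [hL]
    exact IntermediateField.subset_adjoin K _ ⟨i, rfl⟩⟩
  have hspan : (matroid K L).closure (Set.range ζL) = Set.univ := by
    rw [matroid_closure_eq]
    rw [Set.eq_univ_iff_forall]
    intro x
    have hx2 : (x : Ω) ∈ IntermediateField.adjoin K (Set.range ζ) := by
      rw [← hL]
      exact x.2
    obtain ⟨p, hp, q, hq, hpq⟩ := (IntermediateField.mem_adjoin_iff_div).1 hx2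
    have hlift : ∀ y ∈ Algebra.adjoin K (Set.range ζ), ∃ z ∈ Algebra.adjoin K (Set.range ζL),
        (z : Ω) = y := by
      intro y hy
      have h1 : Set.range ζ = L.val '' Set.range ζL := by
        rw [← Set.range_comp]
        rfl
      rw [h1, ← AlgHom.map_adjoin] at hy
      obtain ⟨z, hz, hzy⟩ := hy
      exact ⟨z, hz, hzy⟩
    obtain ⟨p', hp', hpp⟩ := hlift p hp
    obtain ⟨q', hq', hqq⟩ := hlift q hq
    have hx : x = p' * q'⁻¹ := by
      apply Subtype.ext
      rw [hpq, ← hpp, ← hqq, div_eq_mul_inv]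
      rfl
    have hal : ∀ z ∈ Algebra.adjoin K (Set.range ζL),
        IsAlgebraic (Algebra.adjoin K (Set.range ζL)) z := by
      intro z hz
      exact isAlgebraic_algebraMap (⟨z, hz⟩ : Algebra.adjoin K (Set.range ζL))
    show IsAlgebraic (Algebra.adjoin K (Set.range ζL)) x
    rw [hx]
    exact (hal p' hp').mul (hal q' hq').inv
  have hui : (matroid K L).Indep (Set.range u) := matroid_indep_iff.2 hu.to_subtype_range
  obtain ⟨B, hB, huB⟩ := hui.exists_isBase_superset
  have hfin : B.Finite := by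
    have h1 : B.encard ≤ (Set.range ζL).encard := by
      rw [hB.encard_eq_eRank, ← Matroid.eRk_ground, matroid_e, ← hspan, Matroid.eRk_closure_eq]
      exact Matroid.eRk_le_encard _ _
    exact Set.encard_lt_top_iff.1 (h1.trans_lt (Set.encard_lt_top_iff.2 (Set.finite_range _)))
  have hfin' : (B \ Set.range u).Finite := hfin.sdiff
  have : Fintype (B \ Set.range u : Set L) := hfin'.fintype
  let e := Fintype.equivFin (B \ Set.range u : Set L)
  refine ⟨Fintype.card (B \ Set.range u : Set L), fun i => (e.symm i : L), ?_⟩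
  have hB' : IsTranscendenceBasis K ((↑) : B → L) := matroid_isBase_iff.1 hB
  -- the bijection
  let f : Fin (Fintype.card (B \ Set.range u : Set L)) ⊕ ι → B :=
    Sum.elim (fun i => ⟨(e.symm i : L), (e.symm i).2.1⟩) fun j => ⟨u j, huB ⟨j, rfl⟩⟩
  have hf : Function.Bijective f := by
    constructor
    · rintro (i | i) (j | j) h
      · have h1 : ((e.symm i : (B \ Set.range u : Set L)) : L) =
            ((e.symm j : (B \ Set.range u : Set L)) : L) :=
          congrArg (Subtype.val : B → L) h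
        have h2 := e.symm.injective (Subtype.ext h1)
        rw [h2]
      · have h1 : ((e.symm i : (B \ Set.range u : Set L)) : L) = u j := congrArg Subtype.val h
        exact absurd ⟨j, h1.symm⟩ (e.symm i).2.2
      · have h1 : u i = ((e.symm j : (B \ Set.range u : Set L)) : L) := congrArg Subtype.val h
        exact absurd ⟨i, h1⟩ (e.symm j).2.2
      · have h1 : u i = u j := congrArg Subtype.val h
        rw [hu.injective h1]
    · rintro ⟨x, hx⟩
      by_cases hxu : x ∈ Set.range u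
      · obtain ⟨j, rfl⟩ := hxu
        exact ⟨Sum.inr j, rfl⟩
      · refine ⟨Sum.inl (e ⟨x, hx, hxu⟩), ?_⟩
        apply Subtype.ext
        show ((e.symm (e ⟨x, hx, hxu⟩) : (B \ Set.range u : Set L)) : L) = x
        rw [Equiv.symm_apply_apply]
  have h1 := hB'.comp_equiv (Equiv.ofBijective f hf)
  have h2 : ((↑) : B → L) ∘ (Equiv.ofBijective f hf) = Sum.elim (fun i => (e.symm i : L)) u := by
    funext i
    rcases i with i | i <;> rfl
  rw [h2] at h1
  exact h1

section Poly

variable {Ω : Type} [Field Ω] [Algebra ℂ Ω]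

/-- polynomials with coefficients in a subfield -/
private theorem exists_map {K : Subfield ℂ} {κ : Type} (f : MvPolynomial κ ℂ)
    (hf : ∀ m, f.coeff m ∈ K) : ∃ g : MvPolynomial κ K, map (algebraMap K ℂ) g = f := by
  refine ⟨∑ m ∈ f.support, monomial m (⟨f.coeff m, hf m⟩ : K), ?_⟩
  rw [map_sum]
  conv_rhs => rw [f.as_sum]
  refine Finset.sum_congr rfl fun m _ => ?_
  rw [map_monomial]
  rfl

end Poly

/-- values of polynomials over `K` under homomorphisms of `K(ζ)` -/
private theorem hom_aeval {K Ω Ω' κ : Type} [Field K] [Algebra K ℂ] [Field Ω] [Algebra K Ω]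
    [Field Ω'] [Algebra ℂ Ω'] (L : IntermediateField K Ω) (σ : L →+* Ω')
    (hσ : ∀ c : K, σ (algebraMap K L c) = algebraMap ℂ Ω' (algebraMap K ℂ c)) (z : κ → L)
    (g : MvPolynomial κ K) :
    σ (aeval z g) = aeval (fun i => σ (z i)) (map (algebraMap K ℂ) g) := by
  induction g using MvPolynomial.induction_on with
  | C c => rw [map_C, aeval_C, aeval_C, hσ]
  | add p q hp hq => rw [map_add, map_add, map_add, map_add, hp, hq]
  | mul_X p i hp => rw [map_mul, map_mul, map_mul, map_mul, hp, aeval_X, map_X, aeval_X]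

variable {Ω : Type} [Field Ω] [Algebra ℂ Ω]

/-- **Specialization of algebraically independent elements to complex numbers.**

Proof (compare `exists_spec` in `SC/Sp1.lean`). Let `u j = aeval ζ (U j)`. By `exists_field` there is a
countable `K` which contains the coefficients of all `U j`, `F l`, over which `ζ` is defined; `Ω` is a
`K`-algebra through `ℂ` (`IsScalarTower K ℂ Ω`). Let `L = IntermediateField.adjoin K (Set.range ζ)`; it
contains the `u j` and the values `aeval ζ (F l)`. Let `a` be algebraically independent over `K`. The `u j`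
are algebraically independent over `ℂ`, hence over `K`; extend them to a transcendence basis `u ∪ b` of
`L` over `K`, `b` a finite family (`Fin s`). Let `Ω'` be an algebraic closure of
`FractionRing (MvPolynomial (Fin s) ℂ)` (`Om s` and `omX`, `SC/Sp0.lean`). The family `(a, omX)` in `Ω'` is
algebraically independent over `K` (`a` over `K`, `omX` over `ℂ`: `AlgebraicIndependent.sumElim_of_tower`
or similar), so there is a `K`-homomorphism of `K[u, b]` to `Ω'` with `u ↦ a`, `b ↦ omX`, injective; it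
extends to the fraction field and then to the algebraic extension `L` (`IsAlgClosed.lift`, as in
`SC/Sp1.lean`). Call it `σ : L → Ω'`, `ζ' i = σ (ζ i)`.
* If `aeval ζ f = 0` then `aeval ζ' f = 0`: by `DefOver` it suffices to see this for
  `f = map (algebraMap K ℂ) g`, and then `aeval ζ' f = σ (aeval ζ f)`.
* `aeval ζ' (U j) = σ (u j) = a j`; `aeval ζ' (F l) = σ (aeval ζ (F l))`, which is `≠ 0` if
  `aeval ζ (F l) ≠ 0` (`σ` is injective).
* The ranks. Let `G = (fun l => aeval ζ (F l)) '' S`, `G ⊆ L`. Let `H ⊆ G` be such that `u ∪ H` is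
  algebraically independent over `K` (equivalently over `ℂ`, `algInd_of_algInd`), `H` maximal; then
  `td (G ∪ u) = card ι + card H` (all elements of `G` are algebraic over `K(u, H)`). Every element of `σ G`
  is algebraic over `K(a, σ H)`, so `td (σ G) ≤ td (σ H) ≤ card H`. Conversely extend `u ∪ H` to a
  transcendence basis `u ∪ H ∪ H'` of `L` over `K`, `card H + card H' = s`. Then `b` is algebraic over
  `K(u, H, H')`, hence `omX` is algebraic over `ℂ(σ H, σ H')` and
  `s = td omX ≤ td (σ H ∪ σ H') ≤ td (σ H) + card H'`, so `td (σ H) ≥ card H`. -/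
theorem spec {κ ι lam : Type} [Finite κ] [Fintype ι] [Countable lam] (ζ : κ → Ω)
    (U : ι → MvPolynomial κ ℂ) (F : lam → MvPolynomial κ ℂ)
    (hU : AlgebraicIndependent ℂ fun j => aeval ζ (U j)) :
    ∃ K : Subfield ℂ, (K : Set ℂ).Countable ∧ ∀ a : ι → ℂ, AlgebraicIndependent K a →
      ∃ (Ω' : Type) (_ : Field Ω') (_ : Algebra ℂ Ω') (_ : IsAlgClosed Ω') (ζ' : κ → Ω'),
        (∀ f : MvPolynomial κ ℂ, aeval ζ f = 0 → aeval ζ' f = 0) ∧
        (∀ j, aeval ζ' (U j) = algebraMap ℂ Ω' (a j)) ∧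
        (∀ l, aeval ζ (F l) ≠ 0 → aeval ζ' (F l) ≠ 0) ∧
        ∀ S : Set lam, td ((fun l => aeval ζ' (F l)) '' S) + Fintype.card ι =
          td ((fun l => aeval ζ (F l)) '' S ∪ Set.range fun j => aeval ζ (U j)) := by
  classical
  let T : Set ℂ := (⋃ j, (U j).coeff '' Set.univ) ∪ ⋃ l, (F l).coeff '' Set.univ
  have hT : T.Countable := by
    have h1 : ∀ f : MvPolynomial κ ℂ, (f.coeff '' Set.univ).Countable := fun f =>
      Set.Countable.image (Set.to_countable _) _
    exact (Set.countable_iUnion fun j => h1 _).union (Set.countable_iUnion fun l => h1 _)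
  obtain ⟨K, hKc, hTK, hdef⟩ := exists_field ζ T hT
  refine ⟨K, hKc, fun a ha => ?_⟩
  have hU' : ∀ j, ∃ g : MvPolynomial κ K, map (algebraMap K ℂ) g = U j := fun j =>
    exists_map _ fun m => hTK (Or.inl (Set.mem_iUnion.2 ⟨j, m, trivial, rfl⟩))
  have hF' : ∀ l, ∃ g : MvPolynomial κ K, map (algebraMap K ℂ) g = F l := fun l =>
    exists_map _ fun m => hTK (Or.inr (Set.mem_iUnion.2 ⟨l, m, trivial, rfl⟩))
  choose U' hU' using hU'
  choose F' hF' using hF'
  obtain ⟨L, hL⟩ : ∃ L : IntermediateField K Ω, L = IntermediateField.adjoin K (Set.range ζ) :=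
    ⟨_, rfl⟩
  obtain ⟨ζL, hζL⟩ : ∃ ζL : κ → L, ∀ i, (ζL i : Ω) = ζ i :=
    ⟨fun i => ⟨ζ i, by rw [hL]; exact IntermediateField.subset_adjoin K _ ⟨i, rfl⟩⟩, fun _ => rfl⟩
  have hval : ∀ g : MvPolynomial κ K, ((aeval ζL g : L) : Ω) = aeval ζ (map (algebraMap K ℂ) g) := by
    intro g
    have h1 := hom_aeval (Ω' := Ω) L L.val.toRingHom (fun c => by
      rw [← IsScalarTower.algebraMap_apply K ℂ Ω]
      rfl) ζL g
    have h2 : (fun i => L.val.toRingHom (ζL i)) = ζ := funext hζL
    rw [h2] at h1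
    exact h1
  have huK : AlgebraicIndependent K fun j => (aeval ζL (U' j) : L) := by
    have h1 : AlgebraicIndependent K fun j => aeval ζ (U j) := hU.restrictScalars
      (algebraMap K ℂ).injective
    have h2 : (fun j => aeval ζ (U j)) = L.val ∘ fun j => (aeval ζL (U' j) : L) := by
      funext j
      rw [← hU' j]
      exact (hval (U' j)).symm
    rw [h2] at h1
    exact h1.of_comp L.val
  obtain ⟨s, b, hbas⟩ := exists_bas ζ L hL (fun j => (aeval ζL (U' j) : L)) huK
  -- the homomorphism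
  let e := Fintype.equivFin ι
  have hbas2 : IsTranscendenceBasis K
      (Sum.elim b ((fun j => (aeval ζL (U' j) : L)) ∘ e.symm)) := by
    have h1 := hbas.comp_equiv ((Equiv.refl (Fin s)).sumCongr e.symm)
    have h2 : Sum.elim b (fun j => (aeval ζL (U' j) : L)) ∘
        ((Equiv.refl (Fin s)).sumCongr e.symm) =
        Sum.elim b ((fun j => (aeval ζL (U' j) : L)) ∘ e.symm) := by
      funext i
      rcases i with i | i <;> rfl
    rw [h2] at h1
    exact h1
  have htd : Algebra.trdeg K L = ((s + Fintype.card ι : ℕ) : Cardinal) := by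
    rw [← hbas2.cardinalMk_eq_trdeg]
    simp
  obtain ⟨σ, hσK, hσb, hσu'⟩ := SC.exists_spec htd b _ hbas2.1 (a ∘ e.symm)
    (ha.comp e.symm e.symm.injective)
  have hσu : ∀ j, σ (aeval ζL (U' j)) = algebraMap ℂ (Om s) (a j) := by
    intro j
    have h1 := hσu' (e j)
    simp only [Function.comp_apply, Equiv.symm_apply_apply] at h1
    exact h1
  have hmap : ∀ g : MvPolynomial κ K, aeval (fun i => σ (ζL i)) (map (algebraMap K ℂ) g) =
      σ (aeval ζL g) := fun g => (hom_aeval L σ hσK ζL g).symm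
  refine ⟨Om s, inferInstance, inferInstance, inferInstance, fun i => σ (ζL i), ?_, ?_, ?_, ?_⟩
  · intro f hf
    have h1 : Ideal.span (map (algebraMap K ℂ) ''
        {g : MvPolynomial κ K | aeval ζ (map (algebraMap K ℂ) g) = 0}) ≤
        RingHom.ker (aeval (fun i => σ (ζL i)) : MvPolynomial κ ℂ →ₐ[ℂ] Om s).toRingHom := by
      rw [Ideal.span_le]
      rintro _ ⟨g, hg, rfl⟩
      show aeval (fun i => σ (ζL i)) (map (algebraMap K ℂ) g) = 0
      rw [hmap]
      have h2 : (aeval ζL g : L) = 0 := by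
        apply Subtype.ext
        rw [hval]
        exact hg
      rw [h2, map_zero]
    exact h1 (hdef f hf)
  · intro j
    rw [← hU' j, hmap]
    exact hσu j
  · intro l hl h0
    rw [← hF' l, hmap] at h0
    apply hl
    rw [← hF' l, ← hval, (map_eq_zero σ).1 h0]
    rfl
  · intro S
    have h1 : (fun l => aeval (fun i => σ (ζL i)) (F l)) '' S =
        σ '' ((fun l => (aeval ζL (F' l) : L)) '' S) := by
      rw [Set.image_image]
      refine Set.image_congr fun l _ => ?_
      rw [← hF' l, hmap]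
    have h2 : (fun l => aeval ζ (F l)) '' S ∪ Set.range (fun j => aeval ζ (U j)) =
        (fun x : L => (x : Ω)) '' ((fun l => (aeval ζL (F' l) : L)) '' S ∪
          Set.range fun j => (aeval ζL (U' j) : L)) := by
      rw [Set.image_union, Set.image_image, ← Set.range_comp]
      congr 1
      · refine Set.image_congr fun l _ => ?_
        rw [← hF' l]
        exact (hval _).symm
      · congr 1
        funext j
        rw [← hU' j]
        exact (hval _).symm
    rw [h1, h2, rank_sigma b _ hbas σ hσK hσb a hσu]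
    subst hL
    exact (rank_val ζ hdef _).symm

end Pool.Agent.Lib.MP_209724_lc.CT
end

section

namespace Pool.Agent.Lib.MP_209724_lc.CT

open MvPolynomial AlgebraicIndependent
open OV (cl td lin mon HasExp IsConst)

variable {Ω : Type} [Field Ω] [Algebra ℂ Ω] {n : ℕ}

/-- the polynomials whose values are the forms and the monomials -/
private noncomputable def cutF (c : MvPolynomial (Fin n) ℂ) :
    Option ((Fin n → ℤ) ⊕ (Fin n → ℤ)) → MvPolynomial (Fin n ⊕ (Fin n ⊕ Fin n)) ℂ
  | none => rename Sum.inl c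
  | some (Sum.inl m) => ∑ i, C (m i : ℂ) * X (Sum.inl i)
  | some (Sum.inr m) => ∏ i, (X (Sum.inr (Sum.inl i)) ^ (m i).toNat *
      X (Sum.inr (Sum.inr i)) ^ (-(m i)).toNat)

private theorem cut_zpow {E : Type} [Field E] (y : E) (m : ℤ) :
    y ^ m.toNat * (y⁻¹) ^ (-m).toNat = y ^ m := by
  rcases le_total 0 m with h | h
  · rw [Int.toNat_eq_zero.2 (by omega : -m ≤ 0), pow_zero, mul_one]
    conv_rhs => rw [← Int.toNat_of_nonneg h]
    rw [zpow_natCast]
  · rw [Int.toNat_eq_zero.2 h, pow_zero, one_mul, inv_pow]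
    have h1 : m = -(((-m).toNat : ℕ) : ℤ) := by
      rw [Int.toNat_of_nonneg (by omega)]
      omega
    conv_rhs => rw [h1]
    rw [zpow_neg, zpow_natCast]

private theorem cutF_none (c : MvPolynomial (Fin n) ℂ) (ξ : Fin n → Ω) (z : Fin n ⊕ Fin n → Ω) :
    aeval (Sum.elim ξ z) (cutF c none) = aeval ξ c := by
  show aeval (Sum.elim ξ z) (rename Sum.inl c) = aeval ξ c
  rw [aeval_rename]
  rfl

private theorem cutF_inl (c : MvPolynomial (Fin n) ℂ) (ξ : Fin n → Ω) (z : Fin n ⊕ Fin n → Ω)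
    (m : Fin n → ℤ) : aeval (Sum.elim ξ z) (cutF c (some (Sum.inl m))) = lin m ξ := by
  show aeval (Sum.elim ξ z) (∑ i, C (m i : ℂ) * X (Sum.inl i)) = lin m ξ
  rw [map_sum]
  refine Finset.sum_congr rfl fun i _ => ?_
  rw [map_mul, aeval_X, aeval_C]
  rfl

private theorem cutF_inr (c : MvPolynomial (Fin n) ℂ) (ξ η : Fin n → Ω) (m : Fin n → ℤ) :
    aeval (Sum.elim ξ (Sum.elim η fun i => (η i)⁻¹)) (cutF c (some (Sum.inr m))) = mon m η := by
  show aeval (Sum.elim ξ (Sum.elim η fun i => (η i)⁻¹))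
    (∏ i, (X (Sum.inr (Sum.inl i)) ^ (m i).toNat *
      X (Sum.inr (Sum.inr i)) ^ (-(m i)).toNat)) = mon m η
  rw [map_prod]
  refine Finset.prod_congr rfl fun i _ => ?_
  rw [map_mul, map_pow, map_pow, aeval_X, aeval_X]
  exact cut_zpow (η i) (m i)

private theorem cut_image (c : MvPolynomial (Fin n) ℂ) (ξ η : Fin n → Ω)
    (S T : Set (Fin n → ℤ)) :
    (fun l => aeval (Sum.elim ξ (Sum.elim η fun i => (η i)⁻¹)) (cutF c l)) ''
      (some '' (Sum.inl '' S ∪ Sum.inr '' T)) = st ξ η S T := by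
  unfold st
  rw [Set.image_union, Set.image_union, Set.image_image, Set.image_image, Set.image_image,
    Set.image_image]
  simp only [cutF_inl, cutF_inr c ξ η]

/-- **Cutting with one equation.** `p(ξ, η)` is not constant. There is a generic point `(ξ', η')` of (a
component of) the section `p = a`, `a` a generic complex number.

Proof. Apply `spec` with `κ = Fin n ⊕ Fin n ⊕ Fin n`, `ζ = Sum.elim ξ (Sum.elim η η⁻¹)` (`η⁻¹` the family of the
`(η i)⁻¹`), `ι = Unit`, `U = p` (renamed by `Sum.inl`, `Sum.inr ∘ Sum.inl`), and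
`lam = Option ((Fin n → ℤ) ⊕ (Fin n → ℤ))`, `F none = c`, `F (inl m)` the form `∑ C (m i) * X (inl i)`,
`F (inr m)` the monomial `∏ X_{η i} ^ (m i).toNat * X_{η⁻¹ i} ^ (-(m i)).toNat`, whose value is `mon m η`. With
`K` from `spec` take `a` from `exists_transc`. `AlgebraicIndependent ℂ (fun _ : Unit => p(ξ, η))` is `hp`
(`p(ξ, η) ∉ cl ∅` means transcendental over `ℂ`). Let `ξ', η'` be the corresponding components of `ζ'`. The
relations `η i * (η i)⁻¹ = 1` pass to `ζ'`, so `η' i ≠ 0`, the third component is `η'⁻¹` and the value of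
`F (inr m)` at `ζ'` is `mon m η'`. The last claim is the rank formula for
`S' = some '' (inl '' S ∪ inr '' T)`. -/
theorem exists_cut (ξ η : Fin n → Ω) (hη : ∀ i, η i ≠ 0) (p : MvPolynomial (Fin n ⊕ Fin n) ℂ)
    (hp : aeval (Sum.elim ξ η) p ∉ cl (∅ : Set Ω)) (c : MvPolynomial (Fin n) ℂ)
    (hc : aeval ξ c ≠ 0) :
    ∃ (Ω' : Type) (_ : Field Ω') (_ : Algebra ℂ Ω') (_ : IsAlgClosed Ω') (ξ' η' : Fin n → Ω'),
      (∀ i, η' i ≠ 0) ∧ aeval ξ' c ≠ 0 ∧
      (∀ f : MvPolynomial (Fin n ⊕ Fin n) ℂ, aeval (Sum.elim ξ η) f = 0 →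
        aeval (Sum.elim ξ' η') f = 0) ∧
      ∀ S T : Set (Fin n → ℤ), td (st ξ' η' S T) + 1 =
        td (insert (aeval (Sum.elim ξ η) p) (st ξ η S T)) := by
  set ζ : Fin n ⊕ (Fin n ⊕ Fin n) → Ω := Sum.elim ξ (Sum.elim η fun i => (η i)⁻¹) with hζ
  have hren : ∀ (E : Type) [Field E] [Algebra ℂ E] (z : Fin n ⊕ (Fin n ⊕ Fin n) → E)
      (f : MvPolynomial (Fin n ⊕ Fin n) ℂ),
      aeval z (rename (Sum.map id Sum.inl) f) =
        aeval (Sum.elim (fun i => z (Sum.inl i)) fun i => z (Sum.inr (Sum.inl i))) f := by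
    intro E _ _ z f
    rw [aeval_rename]
    congr 1
    congr 1
    funext i
    rcases i with i | i <;> rfl
  have hU0 : aeval ζ (rename (Sum.map id Sum.inl) p) = aeval (Sum.elim ξ η) p := hren Ω ζ p
  have hU : AlgebraicIndependent ℂ
      fun _ : Unit => aeval ζ (rename (Sum.map id Sum.inl) p) := by
    rw [algebraicIndependent_unique_type_iff, hU0]
    intro halg
    apply hp
    rw [OV.mem_cl]
    exact IsAlgebraic.extendScalars
      (algebraMap ℂ (Algebra.adjoin ℂ (∅ : Set Ω))).injective halg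
  obtain ⟨K, hK, hspec⟩ := spec ζ (fun _ : Unit => rename (Sum.map id Sum.inl) p) (cutF c) hU
  obtain ⟨a, ha⟩ := exists_transc K hK
  obtain ⟨Ω', i1, i2, i3, ζ', h1, -, h3, h4⟩ := hspec (fun _ => a) ha
  -- the relations for the inverses
  have hinv : ∀ i, ζ' (Sum.inr (Sum.inl i)) * ζ' (Sum.inr (Sum.inr i)) = 1 := by
    intro i
    have h5 := h1 (X (Sum.inr (Sum.inl i)) * X (Sum.inr (Sum.inr i)) - 1) (by
      rw [map_sub, map_mul, aeval_X, aeval_X, map_one, sub_eq_zero]
      exact mul_inv_cancel₀ (hη i))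
    rw [map_sub, map_mul, aeval_X, aeval_X, map_one, sub_eq_zero] at h5
    exact h5
  have hη' : ∀ i, ζ' (Sum.inr (Sum.inl i)) ≠ 0 := fun i => left_ne_zero_of_mul_eq_one (hinv i)
  have hζ' : ζ' = Sum.elim (fun i => ζ' (Sum.inl i)) (Sum.elim
      (fun i => ζ' (Sum.inr (Sum.inl i))) fun i => (ζ' (Sum.inr (Sum.inl i)))⁻¹) := by
    funext i
    rcases i with i | i | i
    · rfl
    · rfl
    · exact eq_inv_of_mul_eq_one_right (hinv i)
  refine ⟨Ω', i1, i2, i3, fun i => ζ' (Sum.inl i), fun i => ζ' (Sum.inr (Sum.inl i)), hη', ?_,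
    ?_, ?_⟩
  · have h5 := h3 none (by rw [hζ, cutF_none]; exact hc)
    rw [hζ', cutF_none] at h5
    exact h5
  · intro f hf
    rw [← hren Ω' ζ' f]
    exact h1 _ ((hren Ω ζ f).trans hf)
  · intro S T
    have h5 := h4 (some '' (Sum.inl '' S ∪ Sum.inr '' T))
    rw [hζ, cut_image c ξ η, ← hζ] at h5
    have h6 := cut_image c (fun i => ζ' (Sum.inl i)) (fun i => ζ' (Sum.inr (Sum.inl i))) S T
    rw [← hζ'] at h6
    rw [h6, Fintype.card_unit] at h5
    rw [Set.range_const, hU0, Set.union_comm, Set.singleton_union] at h5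
    exact_mod_cast h5

end Pool.Agent.Lib.MP_209724_lc.CT
end

section

namespace Pool.Agent.Lib.MP_209724_lc.CT

open MvPolynomial AlgebraicIndependent
open OV (cl td lin mon HasExp IsConst)

variable {Ω : Type} [Field Ω] [Algebra ℂ Ω] {n : ℕ}

/-- the form `∑ m i ξ i` as a polynomial -/
private noncomputable def slLf {N : ℕ} (m : Fin N → ℤ) :
    MvPolynomial (Fin N ⊕ Fin N ⊕ Fin N) ℂ :=
  ∑ i, C (m i : ℂ) * X (Sum.inl i)

/-- the monomial `∏ η i ^ m i` as a polynomial in `η`, `η⁻¹` -/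
private noncomputable def slMf {N : ℕ} (m : Fin N → ℤ) :
    MvPolynomial (Fin N ⊕ Fin N ⊕ Fin N) ℂ :=
  ∏ i, (X (Sum.inr (Sum.inl i)) ^ (m i).toNat * X (Sum.inr (Sum.inr i)) ^ (-(m i)).toNat)

private theorem slLf_aeval {L : Type} [Field L] [Algebra ℂ L] {N : ℕ}
    (z : Fin N ⊕ Fin N ⊕ Fin N → L) (m : Fin N → ℤ) :
    aeval z (slLf m) = lin m fun i => z (Sum.inl i) := by
  unfold slLf OV.lin
  rw [map_sum]
  refine Finset.sum_congr rfl fun i _ => ?_
  rw [map_mul, aeval_C, aeval_X]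

private theorem sl_zpow {L : Type} [Field L] {x y : L} (h : x * y = 1) (k : ℤ) :
    x ^ k.toNat * y ^ (-k).toNat = x ^ k := by
  have hy : y = x⁻¹ := (eq_inv_of_mul_eq_one_right h)
  subst hy
  rcases le_total 0 k with hk | hk
  · rw [Int.toNat_of_nonpos (by omega : -k ≤ 0), pow_zero, mul_one]
    conv_rhs => rw [← Int.toNat_of_nonneg hk]
    rw [zpow_natCast]
  · rw [Int.toNat_of_nonpos hk, pow_zero, one_mul]
    conv_rhs => rw [show k = -((-k).toNat : ℤ) by rw [Int.toNat_of_nonneg (by omega)]; ring]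
    rw [zpow_neg, zpow_natCast, inv_pow]

private theorem slMf_aeval {L : Type} [Field L] [Algebra ℂ L] {N : ℕ}
    (z : Fin N ⊕ Fin N ⊕ Fin N → L)
    (hz : ∀ i, z (Sum.inr (Sum.inl i)) * z (Sum.inr (Sum.inr i)) = 1) (m : Fin N → ℤ) :
    aeval z (slMf m) = mon m fun i => z (Sum.inr (Sum.inl i)) := by
  unfold slMf OV.mon
  rw [map_prod]
  refine Finset.prod_congr rfl fun i _ => ?_
  rw [map_mul, map_pow, map_pow, aeval_X, aeval_X]
  exact sl_zpow (hz i) (m i)

private theorem sl_lin_slv {L : Type} [Field L] [Algebra ℂ L] (a : Fin n → ℕ)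
    (x : Fin (n + 1) → L) :
    lin (slv a) x = x 0 - ∑ j : Fin n, algebraMap ℂ L (a j : ℂ) * x j.succ := by
  unfold OV.lin slv
  rw [Fin.sum_univ_succ, sub_eq_add_neg, ← Finset.sum_neg_distrib]
  simp only [Fin.cons_zero, Fin.cons_succ, Int.cast_one, map_one, one_mul, Int.cast_neg,
    Int.cast_natCast, map_neg, neg_mul]

private theorem sl_mon_slv {L : Type} [Field L] (a : Fin n → ℕ)
    (x : Fin (n + 1) → L) (hx : ∀ i, x i ≠ 0) :
    x 0 = mon (slv a) x * ∏ j : Fin n, x j.succ ^ a j := by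
  unfold OV.mon slv
  rw [Fin.prod_univ_succ]
  simp only [Fin.cons_zero, Fin.cons_succ, zpow_one, zpow_neg, zpow_natCast]
  rw [mul_assoc, ← Finset.prod_mul_distrib]
  rw [Finset.prod_eq_one fun j _ => inv_mul_cancel₀ (pow_ne_zero _ (hx _)), mul_one]

private theorem sl_lin_ext {L : Type} [Field L] [Algebra ℂ L] (v : Fin n → ℤ)
    (x : Fin (n + 1) → L) : lin (ext v) x = lin v fun j => x j.succ := by
  unfold OV.lin ext
  rw [Fin.sum_univ_succ]
  simp only [Fin.cons_zero, Fin.cons_succ, Int.cast_zero, map_zero, zero_mul, zero_add]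

private theorem sl_mon_ext {L : Type} [Field L] (v : Fin n → ℤ)
    (x : Fin (n + 1) → L) : mon (ext v) x = mon v fun j => x j.succ := by
  unfold OV.mon ext
  rw [Fin.prod_univ_succ]
  simp only [Fin.cons_zero, Fin.cons_succ, zpow_zero, one_mul]

/-- substitution into the additive part -/
private noncomputable def slP (a : Fin n → ℕ) (x₀ : ℂ) : Fin (n + 1) → MvPolynomial (Fin n) ℂ :=
  Fin.cons (C x₀ + ∑ j, C (a j : ℂ) * X j) X

private theorem slP_aeval {L : Type} [CommRing L] [Algebra ℂ L] (a : Fin n → ℕ) (x₀ : ℂ)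
    (y : Fin n → L) (c : MvPolynomial (Fin (n + 1)) ℂ) :
    aeval y (aeval (slP a x₀) c) =
      aeval (Fin.cons (algebraMap ℂ L x₀ + ∑ j, algebraMap ℂ L (a j : ℂ) * y j) y :
        Fin (n + 1) → L) c := by
  rw [← AlgHom.comp_apply, comp_aeval]
  congr 2
  funext i
  refine Fin.cases ?_ (fun j => ?_) i
  · simp only [slP, Fin.cons_zero, map_add, map_sum, map_mul, aeval_C, aeval_X]
  · simp only [slP, Fin.cons_succ, aeval_X]

/-- substitution into both parts -/
private noncomputable def slQ (a : Fin n → ℕ) (x₀ e : ℂ) :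
    Fin (n + 1) ⊕ Fin (n + 1) → MvPolynomial (Fin n ⊕ Fin n) ℂ :=
  Sum.elim (Fin.cons (C x₀ + ∑ j, C (a j : ℂ) * X (Sum.inl j)) fun j => X (Sum.inl j))
    (Fin.cons (C e * ∏ j, X (Sum.inr j) ^ a j) fun j => X (Sum.inr j))

private theorem slQ_aeval {L : Type} [CommRing L] [Algebra ℂ L] (a : Fin n → ℕ) (x₀ e : ℂ)
    (y w : Fin n → L) (f : MvPolynomial (Fin (n + 1) ⊕ Fin (n + 1)) ℂ) :
    aeval (Sum.elim y w) (aeval (slQ a x₀ e) f) =
      aeval (Sum.elim (Fin.cons (algebraMap ℂ L x₀ + ∑ j, algebraMap ℂ L (a j : ℂ) * y j) y :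
        Fin (n + 1) → L) (Fin.cons (algebraMap ℂ L e * ∏ j, w j ^ a j) w : Fin (n + 1) → L)) f := by
  rw [← AlgHom.comp_apply, comp_aeval]
  congr 2
  funext i
  rcases i with i | i
  · refine Fin.cases ?_ (fun j => ?_) i
    · simp only [slQ, Sum.elim_inl, Fin.cons_zero, map_add, map_sum, map_mul, aeval_C, aeval_X]
    · simp only [slQ, Sum.elim_inl, Fin.cons_succ, aeval_X]
  · refine Fin.cases ?_ (fun j => ?_) i
    · simp only [slQ, Sum.elim_inr, Fin.cons_zero, map_prod, map_pow, map_mul, aeval_C, aeval_X]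
    · simp only [slQ, Sum.elim_inr, Fin.cons_succ, aeval_X]

/-- the family of polynomials for `spec` -/
private noncomputable def slF {N : ℕ} (c : MvPolynomial (Fin N) ℂ) :
    Option ((Fin N → ℤ) ⊕ (Fin N → ℤ)) → MvPolynomial (Fin N ⊕ Fin N ⊕ Fin N) ℂ
  | none => rename Sum.inl c
  | some (Sum.inl m) => slLf m
  | some (Sum.inr m) => slMf m

private theorem slF_image {L : Type} [Field L] [Algebra ℂ L] {N : ℕ}
    (c : MvPolynomial (Fin N) ℂ) (z : Fin N ⊕ Fin N ⊕ Fin N → L)
    (hz : ∀ i, z (Sum.inr (Sum.inl i)) * z (Sum.inr (Sum.inr i)) = 1)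
    (S T : Set (Fin N → ℤ)) :
    (fun l => aeval z (slF c l)) '' (some '' (Sum.inl '' S ∪ Sum.inr '' T)) =
      st (fun i => z (Sum.inl i)) (fun i => z (Sum.inr (Sum.inl i))) S T := by
  rw [Set.image_union, Set.image_union, st]
  simp only [Set.image_image, slF, slLf_aeval, slMf_aeval z hz]

/-- **Slices by cosets of subgroups.** Let `u = lin (slv a) ξ = ξ 0 - ∑ a j ξ (j + 1)`,
`w = mon (slv a) η = η 0 / ∏ η (j + 1) ^ a j`, algebraically independent. There is a generic point `(ξ', η')` of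
(a component of) the slice `u = x₀`, `w = exp x₀`, in the other `n` variables, `x₀` a generic complex number; its
exponential points give exponential points of `V`.

Proof. Apply `spec` with `κ = Fin (n + 1) ⊕ Fin (n + 1) ⊕ Fin (n + 1)`, `ζ = Sum.elim ξ (Sum.elim η η⁻¹)`,
`ι = Fin 2`, `U = ![form of slv a, monomial of slv a]` (forms and monomials as polynomials in `ζ` as in the
proof of `exists_cut`), `F` the constant family `c` together with all forms and monomials. With `K` from
`spec` take `x₀` from `exists_exp`, `a = ![x₀, exp x₀]`. Let `ξ' j = ζ'` at `ξ (j + 1)`, `η' j = ζ'` at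
`η (j + 1)` (`Fin.succ`), and let `ξ₀', η₀'` be the values of `ζ'` at `ξ 0`, `η 0`: so
`ξ₀' = x₀ + ∑ a j ξ' j`, `η₀' = exp x₀ * ∏ η' j ^ a j` (relations between `U` and the coordinates pass to `ζ'`).
The value of the form (monomial) of `ext v` at `ζ'` is `lin v ξ'` (`mon v η'`), this gives the rank formula.
`c' = aeval (Fin.cons (C x₀ + ∑ C (a j) * X j) X) c` has `aeval ξ' c' = ` value of `c` at `ζ'` `≠ 0`.
Finally let `p'` be as in the last claim and
`p = Fin.cons (x₀ + ∑ a j p' j) p'`; then `exp (p 0) = exp x₀ * ∏ exp (p' j) ^ a j`. For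
`f` with `aeval (Sum.elim ξ η) f = 0` let `f' : MvPolynomial (Fin n ⊕ Fin n) ℂ` be the image of `f` under
`X (inl 0) ↦ C x₀ + ∑ C (a j) * X (inl j)`, `X (inl (j + 1)) ↦ X (inl j)`,
`X (inr 0) ↦ C (exp x₀) * ∏ X (inr j) ^ a j`, `X (inr (j + 1)) ↦ X (inr j)`. Then
`aeval (Sum.elim ξ' η') f' = ` value of `f` at `ζ'` `= 0`, so `0 = eval (Sum.elim p' (exp p')) f' =
eval (Sum.elim p (exp p)) f`; the same for `c`, `c'`. -/
theorem exists_slice (ξ η : Fin (n + 1) → Ω) (hη : ∀ i, η i ≠ 0) (a : Fin n → ℕ)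
    (h2 : AlgebraicIndependent ℂ ![lin (slv a) ξ, mon (slv a) η])
    (c : MvPolynomial (Fin (n + 1)) ℂ) (hc : aeval ξ c ≠ 0) :
    ∃ (Ω' : Type) (_ : Field Ω') (_ : Algebra ℂ Ω') (_ : IsAlgClosed Ω') (ξ' η' : Fin n → Ω')
      (c' : MvPolynomial (Fin n) ℂ), (∀ i, η' i ≠ 0) ∧ aeval ξ' c' ≠ 0 ∧
      (∀ S T : Set (Fin n → ℤ), td (st ξ' η' S T) + 2 =
        td (st ξ η (ext '' S) (ext '' T) ∪ {lin (slv a) ξ, mon (slv a) η})) ∧
      ∀ p' : Fin n → ℂ, eval p' c' ≠ 0 →
        (∀ f : MvPolynomial (Fin n ⊕ Fin n) ℂ, aeval (Sum.elim ξ' η') f = 0 →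
          eval (Sum.elim p' fun i => Complex.exp (p' i)) f = 0) →
        ∃ p : Fin (n + 1) → ℂ, ‖p'‖ ≤ ‖p‖ ∧ eval p c ≠ 0 ∧
          ∀ f : MvPolynomial (Fin (n + 1) ⊕ Fin (n + 1)) ℂ, aeval (Sum.elim ξ η) f = 0 →
            eval (Sum.elim p fun i => Complex.exp (p i)) f = 0 := by
  classical
  set ζ : Fin (n + 1) ⊕ Fin (n + 1) ⊕ Fin (n + 1) → Ω :=
    Sum.elim ξ (Sum.elim η fun i => (η i)⁻¹) with hζ
  have hζ1 : ∀ i, ζ (Sum.inr (Sum.inl i)) * ζ (Sum.inr (Sum.inr i)) = 1 := by
    intro i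
    simp only [hζ, Sum.elim_inr, Sum.elim_inl]
    exact mul_inv_cancel₀ (hη i)
  have hval : ∀ j : Fin 2, aeval ζ ((![slLf (slv a), slMf (slv a)] :
      Fin 2 → MvPolynomial (Fin (n + 1) ⊕ Fin (n + 1) ⊕ Fin (n + 1)) ℂ) j) =
      (![lin (slv a) ξ, mon (slv a) η] : Fin 2 → Ω) j := by
    intro j
    fin_cases j
    · exact slLf_aeval ζ (slv a)
    · exact slMf_aeval ζ hζ1 (slv a)
  have hU : AlgebraicIndependent ℂ fun j : Fin 2 => aeval ζ ((![slLf (slv a), slMf (slv a)] :
      Fin 2 → MvPolynomial (Fin (n + 1) ⊕ Fin (n + 1) ⊕ Fin (n + 1)) ℂ) j) := by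
    rw [show (fun j : Fin 2 => aeval ζ ((![slLf (slv a), slMf (slv a)] :
      Fin 2 → MvPolynomial (Fin (n + 1) ⊕ Fin (n + 1) ⊕ Fin (n + 1)) ℂ) j)) =
      ![lin (slv a) ξ, mon (slv a) η] from funext hval]
    exact h2
  obtain ⟨K, hK, hspec⟩ := spec ζ _ (slF c) hU
  obtain ⟨x₀, hx₀⟩ := exists_exp K hK
  obtain ⟨Ω', i1, i2, i3, ζ', hz, hUz, hF, htd⟩ := hspec ![x₀, Complex.exp x₀] hx₀
  -- the third component
  have hζ'1 : ∀ i, ζ' (Sum.inr (Sum.inl i)) * ζ' (Sum.inr (Sum.inr i)) = 1 := by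
    intro i
    have h := hz (X (Sum.inr (Sum.inl i)) * X (Sum.inr (Sum.inr i)) - 1) (by
      rw [map_sub, map_mul, aeval_X, aeval_X, map_one, hζ1 i, sub_self])
    rw [map_sub, map_mul, aeval_X, aeval_X, map_one, sub_eq_zero] at h
    exact h
  set ξf : Fin (n + 1) → Ω' := fun i => ζ' (Sum.inl i) with hξf
  set ηf : Fin (n + 1) → Ω' := fun i => ζ' (Sum.inr (Sum.inl i)) with hηf
  have hηf0 : ∀ i, ηf i ≠ 0 := fun i => left_ne_zero_of_mul_eq_one (hζ'1 i)
  have hlin : lin (slv a) ξf = algebraMap ℂ Ω' x₀ := by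
    rw [← slLf_aeval ζ' (slv a)]
    exact hUz 0
  have hmon : mon (slv a) ηf = algebraMap ℂ Ω' (Complex.exp x₀) := by
    rw [← slMf_aeval ζ' hζ'1 (slv a)]
    exact hUz 1
  have hξ0 : ξf = (Fin.cons (algebraMap ℂ Ω' x₀ + ∑ j : Fin n, algebraMap ℂ Ω' (a j : ℂ) *
      ξf j.succ) (fun j : Fin n => ξf j.succ) : Fin (n + 1) → Ω') := by
    funext i
    refine Fin.cases ?_ (fun j => ?_) i
    · rw [Fin.cons_zero, ← hlin, sl_lin_slv, sub_add_cancel]
    · rw [Fin.cons_succ]
  have hη0 : ηf = (Fin.cons (algebraMap ℂ Ω' (Complex.exp x₀) * ∏ j : Fin n,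
      ηf j.succ ^ a j) (fun j : Fin n => ηf j.succ) : Fin (n + 1) → Ω') := by
    funext i
    refine Fin.cases ?_ (fun j => ?_) i
    · rw [Fin.cons_zero, ← hmon]
      exact sl_mon_slv a ηf hηf0
    · rw [Fin.cons_succ]
  refine ⟨Ω', i1, i2, i3, fun j => ξf j.succ, fun j => ηf j.succ, aeval (slP a x₀) c,
    fun i => hηf0 _, ?_, ?_, ?_⟩
  · rw [slP_aeval, ← hξ0]
    have h := hF none (by
      show aeval ζ (rename Sum.inl c) ≠ 0
      rw [aeval_rename]
      exact hc)
    have h' : aeval ζ' (rename Sum.inl c) ≠ 0 := h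
    rw [aeval_rename] at h'
    exact h'
  · intro S T
    have h := htd (some '' (Sum.inl '' (ext '' S) ∪ Sum.inr '' (ext '' T)))
    rw [slF_image c ζ' hζ'1, slF_image c ζ hζ1] at h
    have h1 : st ξf ηf (ext '' S) (ext '' T) =
        st (fun j : Fin n => ξf j.succ) (fun j : Fin n => ηf j.succ) S T := by
      unfold st
      simp only [Set.image_image, sl_lin_ext, sl_mon_ext]
    have h3 : (Set.range fun j : Fin 2 => aeval ζ ((![slLf (slv a), slMf (slv a)] :
      Fin 2 → MvPolynomial (Fin (n + 1) ⊕ Fin (n + 1) ⊕ Fin (n + 1)) ℂ) j)) =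
        {lin (slv a) ξ, mon (slv a) η} := by
      rw [show (fun j : Fin 2 => aeval ζ ((![slLf (slv a), slMf (slv a)] :
        Fin 2 → MvPolynomial (Fin (n + 1) ⊕ Fin (n + 1) ⊕ Fin (n + 1)) ℂ) j)) =
        ![lin (slv a) ξ, mon (slv a) η] from funext hval]
      rw [Matrix.range_cons, Matrix.range_cons, Matrix.range_empty, Set.union_empty]
      rfl
    rw [h3] at h
    rw [← h1]
    rw [Fintype.card_fin] at h
    exact h
  · intro p' hp' hf'
    refine ⟨Fin.cons (x₀ + ∑ j, (a j : ℂ) * p' j) p', ?_, ?_, ?_⟩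
    · rw [pi_norm_le_iff_of_nonneg (norm_nonneg _)]
      intro j
      have := norm_le_pi_norm (Fin.cons (x₀ + ∑ j, (a j : ℂ) * p' j) p' : Fin (n + 1) → ℂ) j.succ
      rwa [Fin.cons_succ] at this
    · rw [← aeval_eq_eval] at hp' ⊢
      have h := slP_aeval a x₀ p' c
      intro h0
      apply hp'
      show aeval p' (aeval (slP a x₀) c) = 0
      rw [h]
      exact h0
    · intro f hf
      have h := hf' (aeval (slQ a x₀ (Complex.exp x₀)) f) (by
        rw [slQ_aeval, ← hξ0, ← hη0]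
        have h4 := hz (rename (Sum.map id Sum.inl) f) (by
          rw [aeval_rename]
          rw [show ζ ∘ Sum.map id Sum.inl = Sum.elim ξ η by
            funext i; rcases i with i | i <;> rfl]
          exact hf)
        rw [aeval_rename] at h4
        rw [show ζ' ∘ Sum.map id Sum.inl = Sum.elim ξf ηf by
          funext i; rcases i with i | i <;> rfl] at h4
        exact h4)
      rw [← aeval_eq_eval] at h ⊢
      have h5 := slQ_aeval a x₀ (Complex.exp x₀) p' (fun i => Complex.exp (p' i)) f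
      rw [show (aeval (Sum.elim p' fun i => Complex.exp (p' i)) : MvPolynomial _ ℂ →ₐ[ℂ] ℂ)
        (aeval (slQ a x₀ (Complex.exp x₀)) f) = 0 from h] at h5
      have h6 : (Sum.elim (Fin.cons (x₀ + ∑ j, (a j : ℂ) * p' j) p' : Fin (n + 1) → ℂ)
          fun i => Complex.exp ((Fin.cons (x₀ + ∑ j, (a j : ℂ) * p' j) p' : Fin (n + 1) → ℂ) i)) =
          Sum.elim (Fin.cons (algebraMap ℂ ℂ x₀ + ∑ j, algebraMap ℂ ℂ (a j : ℂ) * p' j) p' :
            Fin (n + 1) → ℂ) (Fin.cons (algebraMap ℂ ℂ (Complex.exp x₀) *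
              ∏ j, Complex.exp (p' j) ^ a j) fun j => Complex.exp (p' j)) := by
        funext i
        rcases i with i | i
        · rfl
        · refine Fin.cases ?_ (fun j => ?_) i
          · simp only [Sum.elim_inr, Fin.cons_zero, Algebra.algebraMap_self, RingHom.id_apply]
            rw [Complex.exp_add, Complex.exp_sum]
            congr 1
            refine Finset.prod_congr rfl fun j _ => ?_
            rw [Complex.exp_nat_mul]
          · simp only [Sum.elim_inr, Fin.cons_succ]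
      show aeval _ f = 0
      rw [h6]
      exact h5.symm

end Pool.Agent.Lib.MP_209724_lc.CT
end

section

namespace Pool.Agent.Lib.MP_209724_lc.CT

open MvPolynomial AlgebraicIndependent
open OV (cl td lin mon HasExp IsConst)

variable {n : ℕ}

private theorem cutF_st_single {Ω : Type} [Field Ω] [Algebra ℂ Ω] (ξ η : Fin n → Ω) :
    st ξ η (Set.range fun i => Pi.single i 1) ∅ = Set.range ξ := by
  unfold st
  rw [Set.image_empty, Set.union_empty, ← Set.range_comp]
  congr 1
  funext i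
  exact OV.lin_single i ξ

private theorem cutF_st_single' {Ω : Type} [Field Ω] [Algebra ℂ Ω] (ξ η : Fin n → Ω) :
    st ξ η (Set.range fun i => Pi.single i 1) (Set.range fun i => Pi.single i 1) =
      Set.range ξ ∪ Set.range η := by
  unfold st
  rw [← Set.range_comp, ← Set.range_comp]
  congr 2
  · funext i
    exact OV.lin_single i ξ
  · funext i
    exact OV.mon_single i η

private theorem cutF_st_mon {Ω : Type} [Field Ω] [Algebra ℂ Ω] (ξ η : Fin n → Ω)
    (m : Fin n → ℤ) :
    st ξ η (Set.range fun i => Pi.single i 1) {m} = insert (mon m η) (Set.range ξ) := by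
  unfold st
  rw [← Set.range_comp, Set.image_singleton, Set.insert_eq, Set.union_comm]
  congr 2
  funext i
  exact OV.lin_single i ξ

private theorem cutF_st_lin {Ω : Type} [Field Ω] [Algebra ℂ Ω] (ξ η : Fin n → Ω)
    (m : Fin n → ℤ) : st ξ η {m} ∅ = {lin m ξ} := by
  unfold st
  rw [Set.image_singleton, Set.image_empty, Set.union_empty]

/-- **Hypersurfaces `W`, no algebraic monomials, fibres of any dimension.**

Proof. Induction on `e`. `e = 0`: `OV.hs_final` and `OV.HasExpD.hasExp`. `e + 1`: given `c`, `R`. Let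
`s = Set.range ξ`. Since `td (s ∪ range η) = n + e + 1 ≥ td s + 2`, by `exists_pair` there are `i, j` with `η i`, `η j`
algebraically independent over `s`; by `exists_comb` (`g m = mon m η`, `m ≠ 0`) there is `b` with
`mon m η ∉ cl (insert u s)` for all `m ≠ 0`, `u = η i + b η j`; `u ∉ cl s` (otherwise `η i ∈ cl (insert (η j) s)`), in
particular `u ∉ cl ∅`. Apply `exists_cut` with `p = X (inr i) + C b * X (inr j)`:
* `td (range ξ') + 1 = td (insert u s) = td s + 1`;
* `td (range ξ' ∪ range η') + 1 = td (range ξ ∪ range η)`;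
* `lin m ξ'` is not constant for `m ≠ 0`: `td {lin m ξ'} + 1 = td {u, lin m ξ} = 2`, because
  `lin m ξ ∈ cl s` is not constant and `u ∉ cl s`;
* `mon m η' ∉ cl (range ξ')` for `m ≠ 0`: otherwise `td (range ξ' ∪ {mon m η'}) + 1 = td (range ξ') + 1 = td s + 1`,
  but it is `td (insert u s ∪ {mon m η}) = td s + 2`.
By induction `HasExp ξ' η'`. -/
theorem hyp_free (hn : 0 < n) (e : ℕ) {Ω : Type} [Field Ω] [Algebra ℂ Ω]
    (ξ η : Fin n → Ω) (hη : ∀ i, η i ≠ 0)
    (hadd : ∀ m : Fin n → ℤ, m ≠ 0 → ¬ IsConst (lin m ξ))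
    (hmon : ∀ m : Fin n → ℤ, m ≠ 0 → mon m η ∉ cl (Set.range ξ))
    (h1 : td (Set.range ξ) + 1 = n)
    (h2 : td (Set.range ξ ∪ Set.range η) = n + e) : HasExp ξ η := by
  induction e generalizing Ω with
  | zero =>
    refine OV.HasExpD.hasExp (OV.hs_final hn ξ η hη h1 ?_ hadd hmon)
    rw [h2, Nat.cast_zero, add_zero]
  | succ e ih =>
    intro c hc R
    set s : Set Ω := Set.range ξ with hs_def
    -- the rank of `s` is a natural number
    obtain ⟨k, hk, -⟩ : ∃ k : ℕ, td s = k ∧ k ≤ n := by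
      apply OV.exists_eq_natCast
      calc td s ≤ td s + 1 := le_self_add
        _ = n := h1
    have hkn : k + 1 = n := by
      rw [hk] at h1
      exact_mod_cast h1
    have hs : td s ≠ ⊤ := by
      rw [hk]
      exact ENat.natCast_ne_top k
    have hpair : td s + 2 ≤ td (s ∪ Set.range η) := by
      rw [h2, hk]
      have : k + 2 ≤ n + (e + 1) := by omega
      exact_mod_cast this
    obtain ⟨i, j, hij⟩ := exists_pair hs η hpair
    obtain ⟨b, hb⟩ := exists_comb hs hij (lam := {m : Fin n → ℤ // m ≠ 0})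
      (fun m => mon m.1 η) (fun m => hmon m.1 m.2)
    set u : Ω := η i + algebraMap ℂ Ω b * η j with hu_def
    have hus : u ∉ cl s := by
      intro hu
      have h3 : η i ∈ cl (insert (η j) s) := by
        have h4 : η i = u - algebraMap ℂ Ω b * η j := by
          rw [hu_def]
          ring
        rw [h4]
        exact OV.sub_mem_cl (OV.cl_mono (Set.subset_insert _ _) hu)
          (OV.mul_mem_cl (OV.const_mem_cl _ b) (OV.subset_cl _ (Set.mem_insert _ _)))
      rw [OV.td_insert_of_mem h3] at hij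
      have h5 := OV.td_insert_le (η j) s
      rw [hij, hk] at h5
      have h6 : k + 2 ≤ k + 1 := by exact_mod_cast h5
      omega
    have hp : aeval (Sum.elim ξ η)
        (X (Sum.inr i) + C b * X (Sum.inr j) : MvPolynomial (Fin n ⊕ Fin n) ℂ) = u := by
      rw [map_add, map_mul, aeval_X, aeval_X, aeval_C, Sum.elim_inr, Sum.elim_inr]
    obtain ⟨Ω', iF, iA, -, ξ', η', hη', hc', hrel, hrank⟩ := exists_cut ξ η hη
      (X (Sum.inr i) + C b * X (Sum.inr j)) (by
        rw [hp]
        exact fun h => hus (OV.cl_mono (Set.empty_subset _) h)) c hc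
    rw [hp] at hrank
    have htd : td (insert u s) = td s + 1 := OV.td_insert_eq hus
    have e1 : td (Set.range ξ') + 1 = td (insert u s) := by
      have := hrank (Set.range fun i => Pi.single i 1) ∅
      rwa [cutF_st_single, cutF_st_single] at this
    have h1' : td (Set.range ξ') + 1 = n := by
      rw [e1, htd, h1]
    obtain ⟨k', hk', -⟩ : ∃ k' : ℕ, td (Set.range ξ') = k' ∧ k' ≤ n := by
      apply OV.exists_eq_natCast
      calc td (Set.range ξ') ≤ td (Set.range ξ') + 1 := le_self_add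
        _ = n := h1'
    have h2' : td (Set.range ξ' ∪ Set.range η') = n + e := by
      have h3 := hrank (Set.range fun i => Pi.single i 1) (Set.range fun i => Pi.single i 1)
      rw [cutF_st_single', cutF_st_single'] at h3
      have h4 : u ∈ cl (Set.range ξ ∪ Set.range η) := by
        rw [hu_def]
        exact OV.add_mem_cl (OV.subset_cl _ (Or.inr ⟨i, rfl⟩))
          (OV.mul_mem_cl (OV.const_mem_cl _ b) (OV.subset_cl _ (Or.inr ⟨j, rfl⟩)))
      rw [OV.td_insert_of_mem h4, h2] at h3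
      have h5 := OV.enat_cancel (k := n + e) (by
        rw [h3]
        push_cast
        ring)
      rw [h5]
      push_cast
      rfl
    have hadd' : ∀ m : Fin n → ℤ, m ≠ 0 → ¬ IsConst (lin m ξ') := by
      intro m hm hcon
      have h3 := hrank {m} ∅
      rw [cutF_st_lin, cutF_st_lin] at h3
      have h4 : td {lin m ξ'} = 0 := by
        have h5 := OV.td_insert_of_mem (s := (∅ : Set Ω')) (OV.isConst_iff.1 hcon)
        rw [OV.td_empty] at h5
        simpa using h5
      have h6 : u ∉ cl {lin m ξ} := by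
        intro h7
        apply hus
        refine OV.cl_subset ?_ h7
        rw [Set.singleton_subset_iff]
        exact OV.lin_mem_cl m fun i => OV.subset_cl _ ⟨i, rfl⟩
      rw [h4, OV.td_insert_eq h6, OV.td_singleton (hadd m hm)] at h3
      exact absurd h3 (by norm_num)
    have hmon' : ∀ m : Fin n → ℤ, m ≠ 0 → mon m η' ∉ cl (Set.range ξ') := by
      intro m hm hcon
      have h3 := hrank (Set.range fun i => Pi.single i 1) {m}
      rw [cutF_st_mon, cutF_st_mon, OV.td_insert_of_mem hcon, Set.insert_comm,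
        OV.td_insert_eq (hb ⟨m, hm⟩), e1, htd, hk] at h3
      have h4 : k + 1 = k + 1 + 1 := by exact_mod_cast h3
      omega
    obtain ⟨x, hx, hxc, hxr⟩ := ih ξ' η' hη' hadd' hmon' h1' h2' c hc' R
    exact ⟨x, hx, hxc, fun f hf => hxr f (hrel f hf)⟩

end Pool.Agent.Lib.MP_209724_lc.CT
end

section

namespace Pool.Agent.Lib.MP_209724_lc.CT

open MvPolynomial AlgebraicIndependent
open OV (cl td lin mon HasExp IsConst)

variable {n : ℕ}

private theorem or_img_lin {Ω : Type} [Field Ω] [Algebra ℂ Ω] (ξ : Fin n → Ω) :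
    (fun m => lin m ξ) '' Set.range (fun i : Fin n => (Pi.single i 1 : Fin n → ℤ)) =
      Set.range ξ := by
  ext x
  constructor
  · rintro ⟨_, ⟨i, rfl⟩, rfl⟩
    exact ⟨i, (OV.lin_single i ξ).symm⟩
  · rintro ⟨i, rfl⟩
    exact ⟨_, ⟨i, rfl⟩, OV.lin_single i ξ⟩

private theorem or_img_mon {Ω : Type} [Field Ω] [Algebra ℂ Ω] (η : Fin n → Ω) :
    (fun m => mon m η) '' Set.range (fun i : Fin n => (Pi.single i 1 : Fin n → ℤ)) =
      Set.range η := by
  ext x
  constructor
  · rintro ⟨_, ⟨i, rfl⟩, rfl⟩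
    exact ⟨i, (OV.mon_single i η).symm⟩
  · rintro ⟨i, rfl⟩
    exact ⟨_, ⟨i, rfl⟩, OV.mon_single i η⟩

private theorem or_cancel {a b : ℕ∞} (h : a + 1 ≤ b + 1) : a ≤ b :=
  (ENat.add_le_add_iff_right (by decide)).1 h

/-- **One exponential equation.** The fibres of `V → W` have codimension at most one.

Proof. Induction on `d`. `d = 1`: `OV.dim_one_all`. Let `d ≥ 2`. Given `c`, `R` (definition of `HasExp`).
By `exists_pair` (`s = ∅`) there are `i, j` with `td {ξ i, ξ j} = 2`, by `exists_comb` (`s = ∅`; `g m = lin m ξ`,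
`m ≠ 0`, and `g = 1`-element family of all of them) there is `b ∈ ℂ` with `lin m ξ ∉ cl {u}` for all `m ≠ 0`,
`u = ξ i + b ξ j`; `u ∉ cl ∅`, since otherwise `ξ i ∈ cl {ξ j}`. Apply `exists_cut` with
`p = X (inl i) + C b * X (inl j)`. The rank formula gives
* `td (range ξ') + 1 = td (range ξ)` (`S = ` the set of the `Pi.single i 1`, `T = ∅`; `u ∈ cl (range ξ)`),
  so `td (range ξ') = d - 1`;
* `td (range ξ' ∪ range η') + 1 = td (range ξ ∪ range η)`;
* if `lin m ξ'` were constant, `m ≠ 0`: `1 ≥ td {lin m ξ'} + 1 = td {u, lin m ξ} = 2` (as `lin m ξ ∉ cl {u}`,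
  `u ∉ cl ∅`), a contradiction.
By induction `HasExp ξ' η'`; apply it to `c`, `R`; every `f` with `aeval (Sum.elim ξ η) f = 0` has
`aeval (Sum.elim ξ' η') f = 0`. (State the induction for all `Ω : Type`.) -/
theorem one_rel (hn : 2 ≤ n) (d : ℕ) (hd : 1 ≤ d) {Ω : Type} [Field Ω] [Algebra ℂ Ω]
    (ξ η : Fin n → Ω) (hη : ∀ i, η i ≠ 0)
    (hadd : ∀ m : Fin n → ℤ, m ≠ 0 → ¬ IsConst (lin m ξ)) (h1 : td (Set.range ξ) = d)
    (h2 : (d : ℕ∞) + n ≤ td (Set.range ξ ∪ Set.range η) + 1) : HasExp ξ η := by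
  induction d, hd using Nat.le_induction generalizing Ω with
  | base =>
    refine OV.dim_one_all (by omega) hη hadd (by simpa using h1) (or_cancel ?_) hn
    rw [add_comm (n : ℕ∞) 1]
    simpa using h2
  | succ k hk ih =>
    intro c hc R
    have hT : td (∅ : Set Ω) = 0 := OV.td_empty
    have hT' : td (∅ : Set Ω) ≠ ⊤ := by rw [hT]; decide
    have h1' : td (Set.range ξ) = (k : ℕ∞) + 1 := by rw [h1]; push_cast; rfl
    obtain ⟨i, j, hij⟩ := exists_pair hT' ξ (by
      rw [hT, Set.empty_union, h1', zero_add]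
      have : (2 : ℕ∞) = 1 + 1 := by norm_num
      rw [this]
      exact add_le_add (by exact_mod_cast hk) le_rfl)
    obtain ⟨b, hb⟩ := exists_comb hT' hij (lam := {m : Fin n → ℤ // m ≠ 0})
      (fun m => lin m.1 ξ) (fun m h => hadd m.1 m.2 (OV.isConst_iff.2 h))
    set u : Ω := ξ i + algebraMap ℂ Ω b * ξ j with hu
    have hb' : ∀ m : Fin n → ℤ, m ≠ 0 → lin m ξ ∉ cl {u} := by
      intro m hm h
      refine hb ⟨m, hm⟩ ?_
      have e : (insert u ∅ : Set Ω) = {u} := by simp
      rw [e]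
      exact h
    have hucl : u ∉ cl (∅ : Set Ω) := by
      intro h
      have e1 : ξ i ∈ cl ({ξ j} : Set Ω) := by
        have e2 : ξ i = u - algebraMap ℂ Ω b * ξ j := by rw [hu]; ring
        rw [e2]
        exact OV.sub_mem_cl (OV.cl_mono (Set.empty_subset _) h)
          (OV.mul_mem_cl (OV.const_mem_cl _ _) (OV.subset_cl _ rfl))
      have e3 : (insert (ξ j) ∅ : Set Ω) = {ξ j} := by simp
      rw [e3, OV.td_insert_of_mem e1, hT, zero_add] at hij
      have e4 := OV.td_singleton_le (ξ j)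
      rw [hij] at e4
      exact absurd e4 (by decide)
    have hp : aeval (Sum.elim ξ η) (X (Sum.inl i) + C b * X (Sum.inl j) :
        MvPolynomial (Fin n ⊕ Fin n) ℂ) = u := by
      simp [hu, MvPolynomial.algebraMap_eq]
    obtain ⟨Ω', _, _, _, ξ', η', hη', hc', hrel, hrk⟩ := exists_cut ξ η hη
      (X (Sum.inl i) + C b * X (Sum.inl j)) (by rw [hp]; exact hucl) c hc
    rw [hp] at hrk
    have hucl1 : u ∈ cl (Set.range ξ) :=
      OV.add_mem_cl (OV.subset_cl _ ⟨i, rfl⟩)
        (OV.mul_mem_cl (OV.const_mem_cl _ _) (OV.subset_cl _ ⟨j, rfl⟩))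
    set S₁ : Set (Fin n → ℤ) := Set.range (fun i : Fin n => (Pi.single i 1 : Fin n → ℤ)) with hS₁
    have r1 : td (Set.range ξ') = (k : ℕ) := by
      have h := hrk S₁ ∅
      rw [st, st, Set.image_empty, Set.image_empty, Set.union_empty, Set.union_empty, hS₁,
        or_img_lin, or_img_lin, OV.td_insert_of_mem hucl1, h1'] at h
      exact OV.enat_cancel h
    have r2 : (k : ℕ∞) + n ≤ td (Set.range ξ' ∪ Set.range η') + 1 := by
      have h := hrk S₁ S₁
      rw [st, st, hS₁, or_img_lin, or_img_lin, or_img_mon, or_img_mon,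
        OV.td_insert_of_mem (OV.cl_mono Set.subset_union_left hucl1)] at h
      apply or_cancel
      rw [h]
      refine le_trans (le_of_eq ?_) h2
      push_cast
      ring
    have r3 : ∀ m : Fin n → ℤ, m ≠ 0 → ¬ IsConst (lin m ξ') := by
      intro m hm hcon
      have h := hrk {m} ∅
      rw [st, st, Set.image_empty, Set.image_empty, Set.union_empty, Set.union_empty,
        Set.image_singleton, Set.image_singleton,
        OV.td_pair (fun hu' => hucl (OV.isConst_iff.1 hu')) (hb' m hm)] at h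
      have e5 : td ({lin m ξ'} : Set Ω') = 0 := by
        have e6 := OV.td_insert_of_mem (OV.isConst_iff.1 hcon)
        have e7 : (insert (lin m ξ') ∅ : Set Ω') = {lin m ξ'} := by simp
        rw [e7, OV.td_empty] at e6
        exact e6
      rw [e5] at h
      exact absurd h (by decide)
    obtain ⟨x, hx, hxc, hf⟩ := ih ξ' η' hη' r3 r1 r2 c hc' R
    exact ⟨x, hx, hxc, fun f hf0 => hf f (hrel f hf0)⟩

end Pool.Agent.Lib.MP_209724_lc.CT
end

section

namespace Pool.Agent.Lib.MP_209724_lc.CT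

open MvPolynomial AlgebraicIndependent
open OV (cl td lin mon HasExp IsConst)

private theorem hyp3_lin_ext {Ω : Type} [Field Ω] [Algebra ℂ Ω] {n : ℕ} (ξ : Fin (n + 1) → Ω)
    (i : Fin n) : lin (ext (Pi.single i 1)) ξ = ξ i.succ := by
  rw [lin, Fin.sum_univ_succ]
  simp only [ext, Fin.cons_zero, Fin.cons_succ, Int.cast_zero, map_zero, zero_mul, zero_add]
  exact OV.lin_single i fun j => ξ j.succ

private theorem hyp3_mon_ext {Ω : Type} [Field Ω] [Algebra ℂ Ω] {n : ℕ} (η : Fin (n + 1) → Ω)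
    (i : Fin n) : mon (ext (Pi.single i 1)) η = η i.succ := by
  rw [mon, Fin.prod_univ_succ]
  simp only [ext, Fin.cons_zero, Fin.cons_succ, zpow_zero, one_mul]
  exact OV.mon_single i fun j => η j.succ

private theorem hyp3_zero {Ω : Type} [Field Ω] [Algebra ℂ Ω] {n : ℕ} (ξ : Fin (n + 1) → Ω)
    (a : Fin n → ℕ) {s : Set Ω} (h0 : lin (slv a) ξ ∈ cl s) (h : ∀ i : Fin n, ξ i.succ ∈ cl s) :
    ξ 0 ∈ cl s := by
  have h1 : ξ 0 = lin (slv a) ξ +
      ∑ j : Fin n, algebraMap ℂ Ω (a j : ℂ) * ξ j.succ := by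
    rw [lin, Fin.sum_univ_succ]
    simp [slv]
  rw [h1]
  exact OV.add_mem_cl h0 (OV.sum_mem_cl _ _ fun j _ => OV.mul_mem_cl (OV.const_mem_cl _ _) (h j))

private theorem hyp3_zero' {Ω : Type} [Field Ω] [Algebra ℂ Ω] {n : ℕ} (η : Fin (n + 1) → Ω)
    (hη : ∀ i, η i ≠ 0)
    (a : Fin n → ℕ) {s : Set Ω} (h0 : mon (slv a) η ∈ cl s) (h : ∀ i : Fin n, η i.succ ∈ cl s) :
    η 0 ∈ cl s := by
  have h1 : η 0 = mon (slv a) η * ∏ j : Fin n, η j.succ ^ (a j) := by
    rw [mon, Fin.prod_univ_succ]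
    simp only [slv, Fin.cons_zero, Fin.cons_succ, zpow_one, zpow_neg, zpow_natCast]
    rw [mul_assoc, ← Finset.prod_mul_distrib, Finset.prod_eq_one, mul_one]
    intro j _
    exact inv_mul_cancel₀ (pow_ne_zero _ (hη _))
  rw [h1]
  exact OV.mul_mem_cl h0 (OV.prod_mem_cl _ _ fun j _ => OV.pow_mem_cl (h j) _)

private theorem hyp3_const {Ω : Type} [Field Ω] [Algebra ℂ Ω] {x : Ω} (h : IsConst x) :
    td ({x} : Set Ω) = 0 := by
  have h1 := OV.td_insert_of_mem (s := ∅) (OV.isConst_mem_cl (s := ∅) h)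
  rw [OV.td_empty] at h1
  simpa using h1

private theorem hyp3_lift {x : ℕ∞} {a b : ℕ} (h : x + a = b) : ∃ k : ℕ, x = k ∧ k + a = b := by
  have h1 : x ≠ ⊤ := by
    rintro rfl
    rw [top_add] at h
    exact ENat.natCast_ne_top b h.symm
  obtain ⟨k, hk⟩ := ENat.ne_top_iff_exists.1 h1
  refine ⟨k, hk.symm, ?_⟩
  rw [← hk] at h
  exact_mod_cast h

private theorem hyp3_st_left {Ω : Type} [Field Ω] [Algebra ℂ Ω] {n : ℕ} (ξ η : Fin n → Ω) :
    st ξ η (Set.range fun i : Fin n => (Pi.single i 1 : Fin n → ℤ)) ∅ = Set.range ξ := by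
  rw [st, Set.image_empty, Set.union_empty, ← Set.range_comp]
  congr 1
  funext i
  exact OV.lin_single i ξ

private theorem hyp3_st_left' {Ω : Type} [Field Ω] [Algebra ℂ Ω] {n : ℕ}
    (ξ η : Fin (n + 1) → Ω) :
    st ξ η (ext '' Set.range fun i : Fin n => (Pi.single i 1 : Fin n → ℤ)) (ext '' ∅) =
      Set.range fun i : Fin n => ξ i.succ := by
  rw [st, Set.image_empty, Set.image_empty, Set.union_empty, ← Set.range_comp, ← Set.range_comp]
  congr 1
  funext i
  exact hyp3_lin_ext ξ i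

private theorem hyp3_st_both {Ω : Type} [Field Ω] [Algebra ℂ Ω] {n : ℕ} (ξ η : Fin n → Ω) :
    st ξ η (Set.range fun i : Fin n => (Pi.single i 1 : Fin n → ℤ))
      (Set.range fun i : Fin n => (Pi.single i 1 : Fin n → ℤ)) = Set.range ξ ∪ Set.range η := by
  rw [st, ← Set.range_comp, ← Set.range_comp]
  congr 1
  · congr 1
    funext i
    exact OV.lin_single i ξ
  · congr 1
    funext i
    exact OV.mon_single i η

private theorem hyp3_st_both' {Ω : Type} [Field Ω] [Algebra ℂ Ω] {n : ℕ}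
    (ξ η : Fin (n + 1) → Ω) :
    st ξ η (ext '' Set.range fun i : Fin n => (Pi.single i 1 : Fin n → ℤ))
      (ext '' Set.range fun i : Fin n => (Pi.single i 1 : Fin n → ℤ)) =
      Set.range (fun i : Fin n => ξ i.succ) ∪ Set.range fun i : Fin n => η i.succ := by
  rw [st, ← Set.range_comp, ← Set.range_comp, ← Set.range_comp]
  congr 1
  · congr 1
    funext i
    exact hyp3_lin_ext ξ i
  · congr 1
    funext i
    exact hyp3_mon_ext η i

private theorem hyp3_two {k m : ℕ∞} (h : k + 2 ≤ m + 2) : k ≤ m :=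
  (ENat.add_le_add_iff_right (by decide)).1 h

private theorem hyp3_step (n : ℕ) (hn : 3 ≤ n)
    (ih : ∀ (Ω : Type) [Field Ω] [Algebra ℂ Ω] [IsAlgClosed Ω]
      (ξ η : Fin n → Ω), (∀ i, η i ≠ 0) →
      (∀ m : Fin n → ℤ, m ≠ 0 → ¬ IsConst (lin m ξ)) →
      (∀ m : Fin n → ℤ, m ≠ 0 → ¬ IsConst (mon m η)) → Rot ξ η →
      td (Set.range ξ) + 1 = n → td (Set.range ξ ∪ Set.range η) + 3 = 2 * n → HasExp ξ η)
    {Ω : Type} [Field Ω] [Algebra ℂ Ω] [IsAlgClosed Ω]
    (ξ η : Fin (n + 1) → Ω) (hη : ∀ i, η i ≠ 0)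
    (hadd : ∀ m : Fin (n + 1) → ℤ, m ≠ 0 → ¬ IsConst (lin m ξ))
    (hmul : ∀ m : Fin (n + 1) → ℤ, m ≠ 0 → ¬ IsConst (mon m η)) (hrot : Rot ξ η)
    (h1 : td (Set.range ξ) = n) (h2 : td (Set.range ξ ∪ Set.range η) + 1 = 2 * n) :
    HasExp ξ η := by
  by_cases hL : ∀ m : Fin (n + 1) → ℤ, m ≠ 0 → mon m η ∉ cl (Set.range ξ)
  · refine hyp_free (Nat.succ_pos n) (n - 2) ξ η hη hadd hL (by rw [h1]; norm_cast) ?_
    obtain ⟨k, hk⟩ := ENat.ne_top_iff_exists.1 (show td (Set.range ξ ∪ Set.range η) ≠ ⊤ by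
      intro h
      rw [h] at h2
      have h3 : (2 * n : ℕ∞) ≠ ⊤ := by
        have : ((2 * n : ℕ) : ℕ∞) ≠ ⊤ := ENat.natCast_ne_top _
        exact_mod_cast this
      exact h3 (by rw [← h2]; rfl))
    rw [← hk] at h2 ⊢
    have h3 : k + 1 = 2 * n := by exact_mod_cast h2
    have h4 : k = n + 1 + (n - 2) := by omega
    rw [h4]
    norm_cast
  · push Not at hL
    obtain ⟨m₀, hm₀, hL⟩ := hL
    obtain ⟨a, hg1, hg2, hg3, hg4⟩ := exists_good hn ξ η hη hadd hmul hrot h1 h2 m₀ hm₀ hL
    set u := lin (slv a) ξ with hu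
    set w := mon (slv a) η with hw
    have huw : td ({u, w} : Set Ω) = 2 := by
      apply le_antisymm
      · refine (OV.td_le_encard _).trans ?_
        exact Set.encard_insert_le _ _ |>.trans (by rw [Set.encard_singleton]; norm_num)
      · have h3 := hg4 0 ![] linearIndependent_empty_type
        simpa [st] using h3
    have hind : AlgebraicIndependent ℂ ![u, w] := by
      refine OV.algebraicIndependent_of_td_range _ ?_
      rw [Matrix.range_cons, Matrix.range_cons, Matrix.range_empty, Set.union_empty]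
      exact_mod_cast huw
    intro c hc R
    obtain ⟨Ω', _, _, _, ξ', η', c', hη', hc', hrk, hlast⟩ :=
      exists_slice ξ η hη a hind c hc
    rw [← hu, ← hw] at hrk
    have hE : HasExp ξ' η' := by
      refine ih Ω' ξ' η' hη' ?_ ?_ ?_ ?_ ?_
      · intro m hm hcon
        have h3 := hrk {m} ∅
        have h4 : st ξ' η' {m} ∅ = {lin m ξ'} := by simp [st]
        have h5 : st ξ η (ext '' {m}) (ext '' ∅) ∪ {u, w} = insert (lin (ext m) ξ) {u, w} := by
          rw [st, Set.image_singleton, Set.image_singleton, Set.image_empty, Set.image_empty,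
            Set.union_empty, Set.singleton_union]
        rw [h4, h5, OV.td_insert_eq (hg2 m hm), huw, hyp3_const hcon] at h3
        exact absurd h3 (by decide)
      · intro m hm hcon
        have h3 := hrk ∅ {m}
        have h4 : st ξ' η' ∅ {m} = {mon m η'} := by simp [st]
        have h5 : st ξ η (ext '' ∅) (ext '' {m}) ∪ {u, w} = insert (mon (ext m) η) {u, w} := by
          rw [st, Set.image_singleton, Set.image_singleton, Set.image_empty, Set.image_empty,
            Set.empty_union, Set.singleton_union]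
        rw [h4, h5, OV.td_insert_eq (hg3 m hm), huw, hyp3_const hcon] at h3
        exact absurd h3 (by decide)
      · intro r v hv
        have h3 := hrk (Set.range v) (Set.range v)
        have h4 := hg4 r v hv
        rw [← h3] at h4
        exact hyp3_two h4
      · have h3 := hrk (Set.range fun i : Fin n => (Pi.single i 1 : Fin n → ℤ)) ∅
        rw [hyp3_st_left, hyp3_st_left'] at h3
        have h6 : cl (Set.range (fun i : Fin n => ξ i.succ) ∪ {u, w}) =
            cl (insert w (Set.range ξ)) := by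
          apply OV.cl_eq_of
          · rintro _ (⟨i, rfl⟩ | rfl | rfl)
            · exact OV.subset_cl _ (Or.inr ⟨i.succ, rfl⟩)
            · exact OV.lin_mem_cl _ fun i => OV.subset_cl _ (Or.inr ⟨i, rfl⟩)
            · exact OV.subset_cl _ (Or.inl rfl)
          · rintro _ (rfl | ⟨i, rfl⟩)
            · exact OV.subset_cl _ (Or.inr (Or.inr rfl))
            · refine Fin.cases ?_ (fun j => ?_) i
              · exact hyp3_zero ξ a (OV.subset_cl _ (Or.inr (Or.inl rfl)))
                  fun j => OV.subset_cl _ (Or.inl ⟨j, rfl⟩)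
              · exact OV.subset_cl _ (Or.inl ⟨j, rfl⟩)
        rw [OV.td_eq_of_cl h6, OV.td_insert_eq hg1, h1] at h3
        obtain ⟨k, hk, hk'⟩ := hyp3_lift (a := 2) (b := n + 1) (by exact_mod_cast h3)
        rw [hk]
        have : k + 1 = n := by omega
        exact_mod_cast this
      · have h3 := hrk (Set.range fun i : Fin n => (Pi.single i 1 : Fin n → ℤ))
          (Set.range fun i : Fin n => (Pi.single i 1 : Fin n → ℤ))
        rw [hyp3_st_both, hyp3_st_both'] at h3
        have h6 : cl (Set.range (fun i : Fin n => ξ i.succ) ∪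
            Set.range (fun i : Fin n => η i.succ) ∪ {u, w}) =
            cl (Set.range ξ ∪ Set.range η) := by
          apply OV.cl_eq_of
          · rintro _ ((⟨i, rfl⟩ | ⟨i, rfl⟩) | rfl | rfl)
            · exact OV.subset_cl _ (Or.inl ⟨i.succ, rfl⟩)
            · exact OV.subset_cl _ (Or.inr ⟨i.succ, rfl⟩)
            · exact OV.lin_mem_cl _ fun i => OV.subset_cl _ (Or.inl ⟨i, rfl⟩)
            · exact OV.mon_mem_cl _ fun i => OV.subset_cl _ (Or.inr ⟨i, rfl⟩)
          · rintro _ (⟨i, rfl⟩ | ⟨i, rfl⟩)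
            · refine Fin.cases ?_ (fun j => ?_) i
              · exact hyp3_zero ξ a (OV.subset_cl _ (Or.inr (Or.inl rfl)))
                  fun j => OV.subset_cl _ (Or.inl (Or.inl ⟨j, rfl⟩))
              · exact OV.subset_cl _ (Or.inl (Or.inl ⟨j, rfl⟩))
            · refine Fin.cases ?_ (fun j => ?_) i
              · exact hyp3_zero' η hη a (OV.subset_cl _ (Or.inr (Or.inr rfl)))
                  fun j => OV.subset_cl _ (Or.inl (Or.inr ⟨j, rfl⟩))
              · exact OV.subset_cl _ (Or.inl (Or.inr ⟨j, rfl⟩))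
        rw [OV.td_eq_of_cl h6] at h3
        rw [← h3] at h2
        obtain ⟨k, hk, hk'⟩ := hyp3_lift (x := td (Set.range ξ' ∪ Set.range η')) (a := 3)
          (b := 2 * n) (by
            rw [add_assoc] at h2
            exact_mod_cast h2)
        rw [hk]
        exact_mod_cast hk'
    obtain ⟨x, hx, hxc, hxf⟩ := hE c' hc' R
    obtain ⟨p, hp, hpc, hpf⟩ := hlast x hxc hxf
    exact ⟨p, hx.trans_le hp, hpc, hpf⟩

/-- **Hypersurfaces `W`, codimension three.**

Proof. `Nat.le_induction` for `n ≥ 3`, the statement for all `Ω : Type`. `n = 3`: `OV.n3` (`FR.rot` is `Rot` for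
`r = 2`, `v = ![a, b]`; `td = 3`). Step from `n` to `n + 1`, `n ≥ 3`. If no `mon m η`, `m ≠ 0`, is in
`cl (range ξ)`, use `hyp_free` with `e = n - 2`. Otherwise take `a` from `exists_good`;
`![lin (slv a) ξ, mon (slv a) η]` is algebraically independent because its `td` is `2` (last claim of
`exists_good` with `r = 0`; `OV.algebraicIndependent_of_td_range`). Given `c`, `R`, take `ξ', η', c'` from
`exists_slice`. Write `u = lin (slv a) ξ`, `w = mon (slv a) η`, so that `cl (range ξ) = cl ({u} ∪ {ξ (j + 1)})` and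
`cl (range ξ ∪ range η) = cl ({u, w} ∪ {ξ (j + 1), η (j + 1)})`. By the rank formula:
* `td (range ξ') + 2 = td (range ξ ∪ {w}) = n + 1` as `w ∉ cl (range ξ)`: so `td (range ξ') + 1 = n`;
* `td (range ξ' ∪ range η') + 2 = td (range ξ ∪ range η) = 2 n - 1`;
* `lin v ξ'`, `v ≠ 0`, is not constant: otherwise `2 = td {lin (ext v) ξ, u, w} = 3`; similarly `mon v η'`;
* `Rot ξ' η'` by the last claim of `exists_good`.
(`ξ' i = lin (Pi.single i 1) ξ'`, `OV.lin_single`, `OV.mon_single`.) By induction `HasExp ξ' η'`; apply it to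
`c'`, `R` and use the last claim of `exists_slice`. -/
theorem hyp3 (n : ℕ) (hn : 3 ≤ n) {Ω : Type} [Field Ω] [Algebra ℂ Ω] [IsAlgClosed Ω]
    (ξ η : Fin n → Ω) (hη : ∀ i, η i ≠ 0)
    (hadd : ∀ m : Fin n → ℤ, m ≠ 0 → ¬ IsConst (lin m ξ))
    (hmul : ∀ m : Fin n → ℤ, m ≠ 0 → ¬ IsConst (mon m η)) (hrot : Rot ξ η)
    (h1 : td (Set.range ξ) + 1 = n) (h2 : td (Set.range ξ ∪ Set.range η) + 3 = 2 * n) :
    HasExp ξ η := by
  have key : ∀ n : ℕ, 3 ≤ n → ∀ (Ω : Type) [Field Ω] [Algebra ℂ Ω] [IsAlgClosed Ω]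
      (ξ η : Fin n → Ω), (∀ i, η i ≠ 0) →
      (∀ m : Fin n → ℤ, m ≠ 0 → ¬ IsConst (lin m ξ)) →
      (∀ m : Fin n → ℤ, m ≠ 0 → ¬ IsConst (mon m η)) → Rot ξ η →
      td (Set.range ξ) + 1 = n → td (Set.range ξ ∪ Set.range η) + 3 = 2 * n → HasExp ξ η := by
    intro n hn
    induction n, hn using Nat.le_induction with
    | base =>
      intro Ω _ _ _ ξ η hη hadd hmul hrot h1 h2
      refine OV.n3 ⟨hη, hadd, hmul, ?_, ?_⟩
      · intro a b hab
        have h3 := hrot 2 ![a, b] hab
        have h4 : st ξ η (Set.range ![a, b]) (Set.range ![a, b]) =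
            {lin a ξ, lin b ξ, mon a η, mon b η} := by
          rw [st, Matrix.range_cons, Matrix.range_cons, Matrix.range_empty, Set.union_empty]
          ext x
          simp only [Set.mem_union, Set.mem_image, Set.mem_singleton_iff, Set.mem_insert_iff]
          constructor
          · rintro (⟨m, rfl | rfl, rfl⟩ | ⟨m, rfl | rfl, rfl⟩) <;> simp
          · rintro (rfl | rfl | rfl | rfl)
            · exact Or.inl ⟨a, Or.inl rfl, rfl⟩
            · exact Or.inl ⟨b, Or.inr rfl, rfl⟩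
            · exact Or.inr ⟨a, Or.inl rfl, rfl⟩
            · exact Or.inr ⟨b, Or.inr rfl, rfl⟩
        rw [h4] at h3
        exact_mod_cast h3
      · obtain ⟨k, hk, hk'⟩ := hyp3_lift (a := 3) (b := 2 * 3) (by exact_mod_cast h2)
        rw [hk]
        have : k = 3 := by omega
        exact_mod_cast this
    | succ n hn ih =>
      intro Ω _ _ _ ξ η hη hadd hmul hrot h1 h2
      refine hyp3_step n hn ih ξ η hη hadd hmul hrot ?_ ?_
      · obtain ⟨k, hk, hk'⟩ := hyp3_lift (a := 1) (b := n + 1) (by exact_mod_cast h1)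
        rw [hk]
        have : k = n := by omega
        exact_mod_cast this
      · obtain ⟨k, hk, hk'⟩ := hyp3_lift (a := 3) (b := 2 * (n + 1)) (by exact_mod_cast h2)
        rw [hk]
        have : k + 1 = 2 * n := by omega
        exact_mod_cast this
  exact key n hn Ω ξ η hη hadd hmul hrot h1 h2

end Pool.Agent.Lib.MP_209724_lc.CT
end

section

namespace Pool.Agent.Lib.MP_209724_lc.CT

open MvPolynomial AlgebraicIndependent
open OV (cl td lin mon HasExp IsConst)

/-- **Few equations.** `V` has codimension at most three, or its fibres over `W` have codimension at most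
one.

Proof. Let `d = td (range ξ)`, `t = td (range ξ ∪ range η)`, natural numbers, `d ≤ n`, `t ≤ d + n`, `n ≤ t` (`hrot`
for the unit vectors). If `d = n`: `OV.dominant_all`. Let `d < n`. If `d + n ≤ t + 1`: `one_rel` (`d ≥ 1`: `OV.one_le_td`;
`n ≥ 2` as `1 ≤ d < n`). Otherwise `t + 2 ≤ d + n` and `2 n ≤ t + 3`, so `d ≥ n - 1`, `d = n - 1`, `t = 2 n - 3`, and
`n ≤ t` gives `n ≥ 3`: `hyp3`. -/
theorem few {n : ℕ} {Ω : Type} [Field Ω] [Algebra ℂ Ω] [IsAlgClosed Ω] (hn : 0 < n)
    (ξ η : Fin n → Ω) (hη : ∀ i, η i ≠ 0)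
    (hadd : ∀ m : Fin n → ℤ, m ≠ 0 → ¬ IsConst (lin m ξ))
    (hmul : ∀ m : Fin n → ℤ, m ≠ 0 → ¬ IsConst (mon m η)) (hrot : Rot ξ η)
    (h : (2 * n : ℕ∞) ≤ td (Set.range ξ ∪ Set.range η) + 3 ∨
      td (Set.range ξ) + n ≤ td (Set.range ξ ∪ Set.range η) + 1) : HasExp ξ η := by
  by_cases hd : td (Set.range ξ) = n
  · exact OV.dominant_all hn hη hd
  have h1 : 1 ≤ td (Set.range ξ) := OV.one_le_td hn hadd
  have hran : ∀ f : Fin n → Ω, td (Set.range f) ≤ n := by
    intro f
    refine (OV.td_le_encard _).trans ?_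
    rw [← Set.image_univ]
    refine (Set.encard_image_le _ _).trans ?_
    simp
  have hle : td (Set.range ξ) ≤ n := hran ξ
  have hle2 : td (Set.range ξ ∪ Set.range η) ≤ ((n + n : ℕ) : ℕ∞) := by
    refine (OV.td_union_le _ _).trans ?_
    push_cast
    exact add_le_add (hran ξ) (hran η)
  have hnt : (n : ℕ∞) ≤ td (Set.range ξ ∪ Set.range η) := by
    have hli : LinearIndependent ℤ (fun i : Fin n => (Pi.single i 1 : Fin n → ℤ)) :=
      Pi.linearIndependent_single_one (Fin n) ℤ
    have h3 := hrot n (fun i : Fin n => (Pi.single i 1 : Fin n → ℤ)) hli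
    have h4 : st ξ η (Set.range fun i : Fin n => (Pi.single i 1 : Fin n → ℤ))
        (Set.range fun i : Fin n => (Pi.single i 1 : Fin n → ℤ)) =
          Set.range ξ ∪ Set.range η := by
      rw [st, ← Set.range_comp, ← Set.range_comp]
      congr 1
      · congr 1
        funext i
        exact OV.lin_single i ξ
      · congr 1
        funext i
        exact OV.mon_single i η
    rw [h4] at h3
    exact h3
  obtain ⟨d, hd', hdn⟩ : ∃ d : ℕ, td (Set.range ξ) = d ∧ d ≤ n := by
    obtain ⟨k, hk⟩ := ENat.ne_top_iff_exists.1 (ne_top_of_le_ne_top (ENat.natCast_ne_top n) hle)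
    refine ⟨k, hk.symm, ?_⟩
    rw [← hk] at hle
    exact_mod_cast hle
  obtain ⟨t, ht', htn⟩ : ∃ t : ℕ, td (Set.range ξ ∪ Set.range η) = t ∧ t ≤ n + n := by
    obtain ⟨k, hk⟩ :=
      ENat.ne_top_iff_exists.1 (ne_top_of_le_ne_top (ENat.natCast_ne_top (n + n)) hle2)
    refine ⟨k, hk.symm, ?_⟩
    rw [← hk] at hle2
    exact_mod_cast hle2
  have hd1 : 1 ≤ d := by
    rw [hd'] at h1
    exact_mod_cast h1
  have hdne : d ≠ n := fun h => hd (by rw [hd', h])
  have hnt' : n ≤ t := by
    rw [ht'] at hnt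
    exact_mod_cast hnt
  have h' : 2 * n ≤ t + 3 ∨ d + n ≤ t + 1 := by
    rw [hd', ht'] at h
    rcases h with h | h
    · exact Or.inl (by exact_mod_cast h)
    · exact Or.inr (by exact_mod_cast h)
  by_cases hc : d + n ≤ t + 1
  · refine one_rel (by omega) d hd1 ξ η hη hadd hd' ?_
    rw [ht']
    exact_mod_cast hc
  · have h2n : 2 * n ≤ t + 3 := by omega
    refine hyp3 n (by omega) ξ η hη hadd hmul hrot ?_ ?_
    · rw [hd']
      have : d + 1 = n := by omega
      exact_mod_cast this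
    · rw [ht']
      have : t + 3 = 2 * n := by omega
      exact_mod_cast this

end Pool.Agent.Lib.MP_209724_lc.CT
end
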