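import Mathlib
import Pool.Agent.Lib.MP_209724_lc.CT.Main
import Pool.Agent.Lib.MP_209724_lc.OV.Transfer

section

/-!
# Zariski density of the exponential points in varieties of codimension at most two

The variety `{(x₀, x, y₀, y) : (x, y) ∈ V, y₀ = D(x, y) x₀}` in `n + 1` variables is free and rotund, of
codimension at most three, and its exponential points give exponential points of `V` with `D ≠ 0`.
-/

namespace Pool.Agent.Lib.MP_209724_lc.CT

open MvPolynomial AlgebraicIndependent
open OV (cl td lin mon HasExp IsConst subset_cl cl_mono cl_subset td_mono td_le_of_subset_cl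
  td_insert_eq sum_mem_cl prod_mem_cl mul_mem_cl add_mem_cl sub_mem_cl div_mem_cl inv_mem_cl
  zpow_mem_cl pow_mem_cl const_mem_cl isConst_mem_cl lin_mem_cl mon_mem_cl mem_cl_of_zpow)

variable {Ω : Type} [Field Ω] [Algebra ℂ Ω] {n : ℕ}

theorem lin_cons (m : Fin (n + 1) → ℤ) (τ : Ω) (ξ : Fin n → Ω) :
    lin m (Fin.cons τ ξ : Fin (n + 1) → Ω) =
      algebraMap ℂ Ω (m 0 : ℂ) * τ + lin (fun j => m j.succ) ξ := by
  simp only [lin]
  rw [Fin.sum_univ_succ]
  simp

theorem mon_cons (m : Fin (n + 1) → ℤ) (a : Ω) (η : Fin n → Ω) :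
    mon m (Fin.cons a η : Fin (n + 1) → Ω) = a ^ m 0 * mon (fun j => m j.succ) η := by
  simp only [mon]
  rw [Fin.prod_univ_succ]
  simp

theorem aeval_mem_cl {κ : Type} (s : Set Ω) (ζ : κ → Ω) (h : ∀ i, ζ i ∈ cl s)
    (f : MvPolynomial κ ℂ) : aeval ζ f ∈ cl s := by
  induction f using MvPolynomial.induction_on with
  | C a => rw [aeval_C]; exact const_mem_cl s a
  | add p q hp hq => rw [map_add]; exact add_mem_cl hp hq
  | mul_X p i hp => rw [map_mul, aeval_X]; exact mul_mem_cl hp (h i)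

section

variable {ξ η : Fin n → Ω} {τ : Ω}

private theorem lin_not (hτ : τ ∉ cl (Set.range ξ ∪ Set.range η)) (m : Fin (n + 1) → ℤ)
    (hm : m 0 ≠ 0) : lin m (Fin.cons τ ξ : Fin (n + 1) → Ω) ∉ cl (Set.range ξ ∪ Set.range η) := by
  intro h
  rw [lin_cons] at h
  apply hτ
  have h1 := sub_mem_cl h (lin_mem_cl (s := Set.range ξ ∪ Set.range η) (fun j => m j.succ)
    fun i => subset_cl _ (Or.inl ⟨i, rfl⟩))
  rw [add_sub_cancel_right] at h1
  exact (OV.mul_mem_cl_iff (by exact_mod_cast hm)).1 h1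

private theorem mon_not {δ : Ω} (hδ : δ ∈ cl (Set.range ξ ∪ Set.range η)) (hδ0 : δ ≠ 0)
    (hη : ∀ i, η i ≠ 0)
    (hτ : τ ∉ cl (Set.range ξ ∪ Set.range η)) (m : Fin (n + 1) → ℤ) (hm : m 0 ≠ 0) :
    mon m (Fin.cons (δ * τ) η : Fin (n + 1) → Ω) ∉ cl (Set.range ξ ∪ Set.range η) := by
  intro h
  rw [mon_cons] at h
  apply hτ
  have h0 := mon_mem_cl (s := Set.range ξ ∪ Set.range η) (η := η) (fun j => m j.succ)
    fun i => subset_cl _ (Or.inr ⟨i, rfl⟩)
  have h1 := div_mem_cl h h0
  rw [mul_div_cancel_right₀ _ (OV.mon_ne_zero hη _)] at h1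
  have h2 := div_mem_cl (mem_cl_of_zpow hm h1) hδ
  rwa [mul_div_cancel_left₀ _ hδ0] at h2

/-- The new tuple is rotund. -/
private theorem rot_cons {δ : Ω} (hη : ∀ i, η i ≠ 0) (hrot : Rot ξ η)
    (hδ : δ ∈ cl (Set.range ξ ∪ Set.range η)) (hδ0 : δ ≠ 0)
    (hτ : τ ∉ cl (Set.range ξ ∪ Set.range η)) :
    Rot (Fin.cons τ ξ : Fin (n + 1) → Ω) (Fin.cons (δ * τ) η : Fin (n + 1) → Ω) := by
  intro r v hv
  set ξ' : Fin (n + 1) → Ω := Fin.cons τ ξ with hξ'
  set η' : Fin (n + 1) → Ω := Fin.cons (δ * τ) η with hη'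
  have hτ0 : τ ≠ 0 := by
    rintro rfl
    exact hτ (by simpa using const_mem_cl (Set.range ξ ∪ Set.range η) 0)
  have hη'0 : ∀ i, η' i ≠ 0 := by
    intro i
    refine Fin.cases ?_ (fun j => ?_) i
    · exact mul_ne_zero hδ0 hτ0
    · simpa [hη'] using hη j
  by_cases h0 : ∀ i, v i 0 = 0
  · -- all vectors have first coordinate zero
    have hlin : ∀ i, lin (v i) ξ' = lin (fun j => v i j.succ) ξ := by
      intro i
      rw [hξ', lin_cons, h0 i]
      simp
    have hmon : ∀ i, mon (v i) η' = mon (fun j => v i j.succ) η := by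
      intro i
      rw [hη', mon_cons, h0 i]
      simp
    have hv' : LinearIndependent ℤ fun i => (fun j : Fin n => v i j.succ) := by
      rw [Fintype.linearIndependent_iff] at hv ⊢
      intro g hg i
      refine hv g ?_ i
      funext j
      rw [Finset.sum_apply]
      refine Fin.cases ?_ (fun j => ?_) j
      · simp [h0]
      · have := congrFun hg j
        simpa using this
    refine (hrot r _ hv').trans (td_mono ?_)
    rintro _ (⟨_, ⟨i, rfl⟩, rfl⟩ | ⟨_, ⟨i, rfl⟩, rfl⟩)
    · left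
      exact ⟨v i, ⟨i, rfl⟩, hlin i⟩
    · right
      exact ⟨v i, ⟨i, rfl⟩, hmon i⟩
  · push Not at h0
    obtain ⟨i₀, hi₀⟩ := h0
    obtain ⟨r, rfl⟩ : ∃ r', r = r' + 1 := ⟨r - 1, by have := i₀.2; omega⟩
    set w : Fin r → Fin (n + 1) → ℤ := fun i =>
      v i₀ 0 • v (i₀.succAbove i) - v (i₀.succAbove i) 0 • v i₀ with hw
    have hw0 : ∀ i, w i 0 = 0 := by
      intro i
      simp only [hw, Pi.sub_apply, Pi.smul_apply, smul_eq_mul]
      ring
    have hw' : LinearIndependent ℤ fun i => (fun j : Fin n => w i j.succ) := by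
      rw [Fintype.linearIndependent_iff] at hv ⊢
      intro g hg i
      have h1 : ∑ i, g i • w i = 0 := by
        funext j
        rw [Finset.sum_apply]
        refine Fin.cases ?_ (fun j => ?_) j
        · simp [hw0]
        · have := congrFun hg j
          simpa using this
      have h2 := hv (i₀.insertNth (-∑ i, g i * v (i₀.succAbove i) 0) fun i => g i * v i₀ 0) (by
        rw [Fin.sum_univ_succAbove _ i₀, Fin.insertNth_apply_same]
        simp only [Fin.insertNth_apply_succAbove]
        rw [← h1]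
        simp only [hw, smul_sub, Finset.sum_sub_distrib, neg_smul, Finset.sum_smul, smul_smul]
        abel) (i₀.succAbove i)
      rw [Fin.insertNth_apply_succAbove] at h2
      exact (mul_eq_zero.1 h2).resolve_right hi₀
    have h1 := hrot r _ hw'
    set T := st ξ η (Set.range fun i => (fun j : Fin n => w i j.succ))
      (Set.range fun i => (fun j : Fin n => w i j.succ)) with hT
    set S := st ξ' η' (Set.range v) (Set.range v) with hS
    have hvS : ∀ i, lin (v i) ξ' ∈ cl S := fun i => subset_cl _ (Or.inl ⟨v i, ⟨i, rfl⟩, rfl⟩)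
    have hvS' : ∀ i, mon (v i) η' ∈ cl S := fun i => subset_cl _ (Or.inr ⟨v i, ⟨i, rfl⟩, rfl⟩)
    have hTS : T ⊆ cl S := by
      rintro _ (⟨_, ⟨i, rfl⟩, rfl⟩ | ⟨_, ⟨i, rfl⟩, rfl⟩)
      · have e1 : lin (fun j : Fin n => w i j.succ) ξ = lin (w i) ξ' := by
          rw [hξ', lin_cons, hw0 i]
          simp
        have e2 : lin (w i) ξ' = algebraMap ℂ Ω (v i₀ 0 : ℂ) * lin (v (i₀.succAbove i)) ξ' -
            algebraMap ℂ Ω (v (i₀.succAbove i) 0 : ℂ) * lin (v i₀) ξ' := by
          simp only [lin, hw, Finset.mul_sum]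
          rw [← Finset.sum_sub_distrib]
          refine Finset.sum_congr rfl fun j _ => ?_
          simp only [Pi.sub_apply, Pi.smul_apply, smul_eq_mul, Int.cast_sub, Int.cast_mul, map_sub,
            map_mul]
          ring
        show lin (fun j : Fin n => w i j.succ) ξ ∈ cl S
        rw [e1, e2]
        exact sub_mem_cl (mul_mem_cl (const_mem_cl _ _) (hvS _))
          (mul_mem_cl (const_mem_cl _ _) (hvS _))
      · have e1 : mon (fun j : Fin n => w i j.succ) η = mon (w i) η' := by
          rw [hη', mon_cons, hw0 i]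
          simp
        have e2 : mon (w i) η' = mon (v (i₀.succAbove i)) η' ^ v i₀ 0 /
            mon (v i₀) η' ^ v (i₀.succAbove i) 0 := by
          simp only [mon, hw]
          rw [← Finset.prod_zpow, ← Finset.prod_zpow, ← Finset.prod_div_distrib]
          refine Finset.prod_congr rfl fun j _ => ?_
          simp only [Pi.sub_apply, Pi.smul_apply, smul_eq_mul]
          rw [zpow_sub₀ (hη'0 j), ← zpow_mul, ← zpow_mul, mul_comm (v i₀ 0),
            mul_comm (v (i₀.succAbove i) 0)]
        show mon (fun j : Fin n => w i j.succ) η ∈ cl S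
        rw [e1, e2]
        exact div_mem_cl (zpow_mem_cl (hvS' _) _) (zpow_mem_cl (hvS' _) _)
    have hTs : T ⊆ cl (Set.range ξ ∪ Set.range η) := by
      rintro _ (⟨m, -, rfl⟩ | ⟨m, -, rfl⟩)
      · exact lin_mem_cl m fun i => subset_cl _ (Or.inl ⟨i, rfl⟩)
      · exact mon_mem_cl m fun i => subset_cl _ (Or.inr ⟨i, rfl⟩)
    have ha : lin (v i₀) ξ' ∉ cl T := fun h => lin_not hτ (v i₀) hi₀ (cl_subset hTs h)
    have h2 : td (insert (lin (v i₀) ξ') T) ≤ td S := by
      refine td_le_of_subset_cl ?_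
      rintro _ (rfl | h)
      · exact hvS i₀
      · exact hTS h
    rw [td_insert_eq ha] at h2
    refine le_trans ?_ h2
    push_cast
    gcongr

/-- **Zariski density**, given an element transcendental over `ℂ(ξ, η)`. -/
theorem dense_of_trans [IsAlgClosed Ω] (hn : 0 < n) (hη : ∀ i, η i ≠ 0)
    (hadd : ∀ m : Fin n → ℤ, m ≠ 0 → ¬ IsConst (lin m ξ))
    (hmul : ∀ m : Fin n → ℤ, m ≠ 0 → ¬ IsConst (mon m η)) (hrot : Rot ξ η)
    (h : (2 * n : ℕ∞) ≤ td (Set.range ξ ∪ Set.range η) + 2)
    (hτ : τ ∉ cl (Set.range ξ ∪ Set.range η))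
    (Dp : MvPolynomial (Fin n ⊕ Fin n) ℂ) (hD : aeval (Sum.elim ξ η) Dp ≠ 0) :
    ∃ x : Fin n → ℂ, (∀ f : MvPolynomial (Fin n ⊕ Fin n) ℂ, aeval (Sum.elim ξ η) f = 0 →
      eval (Sum.elim x fun i => Complex.exp (x i)) f = 0) ∧
      eval (Sum.elim x fun i => Complex.exp (x i)) Dp ≠ 0 := by
  classical
  obtain ⟨δ, hδe⟩ : ∃ δ, δ = aeval (Sum.elim ξ η) Dp := ⟨_, rfl⟩
  have hδ0 : δ ≠ 0 := by rw [hδe]; exact hD
  have hδ : δ ∈ cl (Set.range ξ ∪ Set.range η) := by
    rw [hδe]
    refine aeval_mem_cl _ _ (fun i => ?_) Dp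
    rcases i with i | i
    · exact subset_cl _ (Or.inl ⟨i, rfl⟩)
    · exact subset_cl _ (Or.inr ⟨i, rfl⟩)
  have hτ0 : τ ≠ 0 := by
    rintro rfl
    exact hτ (by simpa using const_mem_cl (Set.range ξ ∪ Set.range η) 0)
  set ξ' : Fin (n + 1) → Ω := Fin.cons τ ξ with hξ'
  set η' : Fin (n + 1) → Ω := Fin.cons (δ * τ) η with hη'
  have htail : ∀ m : Fin (n + 1) → ℤ, m ≠ 0 → m 0 = 0 → (fun j : Fin n => m j.succ) ≠ 0 := by
    intro m hm h0 h1
    apply hm
    funext j
    refine Fin.cases h0 (fun j => ?_) j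
    exact congrFun h1 j
  have h1 : HasExp ξ' η' := by
    refine few (Nat.succ_pos n) ξ' η' ?_ ?_ ?_ (rot_cons hη hrot hδ hδ0 hτ) (Or.inl ?_)
    · intro i
      refine Fin.cases ?_ (fun j => ?_) i
      · exact mul_ne_zero hδ0 hτ0
      · simpa [hη'] using hη j
    · intro m hm hc
      by_cases h0 : m 0 = 0
      · refine hadd _ (htail m hm h0) ?_
        rw [hξ', lin_cons, h0] at hc
        simpa using hc
      · exact lin_not hτ m h0 (isConst_mem_cl hc)
    · intro m hm hc
      by_cases h0 : m 0 = 0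
      · refine hmul _ (htail m hm h0) ?_
        rw [hη', mon_cons, h0] at hc
        simpa using hc
      · exact mon_not hδ hδ0 hη hτ m h0 (isConst_mem_cl hc)
    · have h2 : td (Set.range ξ ∪ Set.range η) + 1 ≤ td (Set.range ξ' ∪ Set.range η') := by
        rw [← td_insert_eq hτ]
        refine td_mono ?_
        rintro _ (rfl | ⟨i, rfl⟩ | ⟨i, rfl⟩)
        · exact Or.inl ⟨0, rfl⟩
        · exact Or.inl ⟨i.succ, by simp [hξ']⟩
        · exact Or.inr ⟨i.succ, by simp [hη']⟩
      calc (2 * ((n + 1 : ℕ) : ℕ∞)) = 2 * n + 2 := by push_cast; ring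
        _ ≤ td (Set.range ξ ∪ Set.range η) + 2 + 2 := by gcongr
        _ = (td (Set.range ξ ∪ Set.range η) + 1) + 3 := by
          rw [add_assoc, add_assoc]; norm_num
        _ ≤ _ := by gcongr
  obtain ⟨x', -, -, hf⟩ := h1 1 (by rw [map_one]; exact one_ne_zero) 0
  have hren : ∀ f : MvPolynomial (Fin n ⊕ Fin n) ℂ,
      aeval (Sum.elim ξ' η') (rename (Sum.map Fin.succ Fin.succ) f) =
        aeval (Sum.elim ξ η) f := by
    intro f
    rw [aeval_rename]
    congr 2
    funext j
    rcases j with j | j <;> simp [hξ', hη']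
  have hren2 : ∀ f : MvPolynomial (Fin n ⊕ Fin n) ℂ,
      eval (Sum.elim x' fun i => Complex.exp (x' i)) (rename (Sum.map Fin.succ Fin.succ) f) =
        eval (Sum.elim (fun j : Fin n => x' j.succ) fun j => Complex.exp (x' j.succ)) f := by
    intro f
    rw [eval_rename]
    congr 2
    funext j
    rcases j with j | j <;> simp
  refine ⟨fun j => x' j.succ, fun f hf0 => ?_, fun h0 => ?_⟩
  · rw [← hren2]
    exact hf _ (by rw [hren]; exact hf0)
  · have h2 := hf (X (Sum.inr 0) - rename (Sum.map Fin.succ Fin.succ) Dp * X (Sum.inl 0)) (by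
      rw [map_sub, map_mul, hren, aeval_X, aeval_X, ← hδe]
      simp [hξ', hη'])
    rw [map_sub, map_mul, hren2, h0, zero_mul, sub_zero, eval_X] at h2
    exact Complex.exp_ne_zero _ h2

end

end Pool.Agent.Lib.MP_209724_lc.CT
end

section

/-!
# Zariski density of the exponential points, for tuples in an arbitrary field
-/

namespace Pool.Agent.Lib.MP_209724_lc.CT

open MvPolynomial AlgebraicIndependent
open OV (cl td lin mon HasExp IsConst)

variable {n : ℕ} {L Ω : Type} [Field L] [Algebra ℂ L] [Field Ω] [Algebra ℂ Ω]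

theorem lin_map (i : L →ₐ[ℂ] Ω) (x : Fin n → L) (m : Fin n → ℤ) :
    lin m (fun j => i (x j)) = i (∑ j, (m j : L) * x j) := by
  rw [lin, map_sum]
  refine Finset.sum_congr rfl fun j _ => ?_
  rw [map_mul, map_intCast, map_intCast]

theorem mon_map (i : L →ₐ[ℂ] Ω) (y : Fin n → L) (m : Fin n → ℤ) :
    mon m (fun j => i (y j)) = i (∏ j, y j ^ m j) := by
  rw [mon, map_prod]
  refine Finset.prod_congr rfl fun j _ => ?_
  rw [map_zpow₀]

/-- Linearly independent integral vectors are rows of a matrix. -/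
theorem exists_matrix {r : ℕ} (v : Fin r → Fin n → ℤ) (hv : LinearIndependent ℤ v) :
    ∃ B : Matrix (Fin n) (Fin n) ℤ, (∀ i, B i ∈ Set.range v ∨ B i = 0) ∧
      r ≤ (B.map (Int.cast : ℤ → ℚ)).rank := by
  classical
  have h1 : LinearIndependent ℤ fun i j => (v i j : ℚ) := by
    let φ : (Fin n → ℤ) →ₗ[ℤ] (Fin n → ℚ) :=
      { toFun := fun m j => (m j : ℚ)
        map_add' := fun a b => by funext j; simp
        map_smul' := fun c a => by funext j; simp }
    have hφ : LinearMap.ker φ = ⊥ := by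
      rw [LinearMap.ker_eq_bot]
      intro a b hab
      funext j
      have h0 : (a j : ℚ) = (b j : ℚ) := congrFun hab j
      exact_mod_cast h0
    exact hv.map' φ hφ
  have h2 : LinearIndependent ℚ fun i j => (v i j : ℚ) :=
    (LinearIndependent.iff_fractionRing ℤ ℚ).1 h1
  have hrn : r ≤ n := by
    have := h2.fintype_card_le_finrank
    simpa using this
  refine ⟨fun i => if h : (i : ℕ) < r then v ⟨i, h⟩ else 0, fun i => ?_, ?_⟩
  · by_cases h : (i : ℕ) < r
    · left
      exact ⟨⟨i, h⟩, by simp [h]⟩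
    · right
      simp [h]
  · rw [Matrix.rank_eq_finrank_span_row]
    have h3 : Submodule.span ℚ (Set.range fun i j => (v i j : ℚ)) ≤
        Submodule.span ℚ (Set.range (Matrix.row (Matrix.map
          (fun i => if h : (i : ℕ) < r then v ⟨i, h⟩ else 0 : Matrix (Fin n) (Fin n) ℤ)
          (Int.cast : ℤ → ℚ)))) := by
      apply Submodule.span_mono
      rintro _ ⟨i, rfl⟩
      refine ⟨⟨i, i.2.trans_le hrn⟩, ?_⟩
      funext j
      simp [Matrix.row, Matrix.map_apply]
    have h4 := Submodule.finrank_mono h3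
    rw [finrank_span_eq_card h2] at h4
    simpa using h4

/-- Rotundity in terms of `td`. -/
theorem rot_of_matrix (i : L →ₐ[ℂ] Ω) (x y : Fin n → L)
    (hrot : ∀ B : Matrix (Fin n) (Fin n) ℤ, ((B.map (Int.cast : ℤ → ℚ)).rank : Cardinal) ≤
      Algebra.trdeg ℂ (Algebra.adjoin ℂ (Set.range (fun i => ∑ j, (B i j : L) * x j) ∪
        Set.range fun i => ∏ j, y j ^ B i j))) :
    Rot (fun j => i (x j)) fun j => i (y j) := by
  classical
  intro r v hv
  obtain ⟨B, hB, hr⟩ := exists_matrix v hv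
  have h1 : (r : ℕ∞) ≤ td (Set.range (fun j => lin (B j) fun j => i (x j)) ∪
        Set.range fun j => mon (B j) fun j => i (y j)) := by
    apply OV.le_td_of_trdeg_adjoin
    have e1 : Set.range (fun j => lin (B j) fun j => i (x j)) ∪
        Set.range (fun j => mon (B j) fun j => i (y j)) =
        i '' (Set.range (fun i => ∑ j, (B i j : L) * x j) ∪
          Set.range fun i => ∏ j, y j ^ B i j) := by
      rw [Set.image_union, ← Set.range_comp, ← Set.range_comp]
      congr 1
      · congr 1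
        funext j
        exact lin_map i x (B j)
      · congr 1
        funext j
        exact mon_map i y (B j)
    rw [e1, OV.trdeg_adjoin_image]
    refine le_trans ?_ (hrot B)
    exact_mod_cast hr
  refine h1.trans (OV.td_le_of_subset_cl ?_)
  rintro _ (⟨j, rfl⟩ | ⟨j, rfl⟩)
  · simp only
    rcases hB j with h2 | h2
    · exact OV.subset_cl _ (Or.inl ⟨B j, h2, rfl⟩)
    · rw [h2]
      refine OV.isConst_mem_cl ⟨0, ?_⟩
      simp [lin]
  · simp only
    rcases hB j with h2 | h2
    · exact OV.subset_cl _ (Or.inr ⟨B j, h2, rfl⟩)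
    · rw [h2]
      refine OV.isConst_mem_cl ⟨1, ?_⟩
      simp [mon]

/-- **Zariski density of the exponential points** in varieties of codimension at most two. -/
theorem dense {L : Type} [Field L] [Algebra ℂ L] (hn : 0 < n) (x y : Fin n → L)
    (hy : ∀ i, y i ≠ 0)
    (hfree : ∀ m : Fin n → ℤ, m ≠ 0 → ∀ c : ℂ, ∑ i, (m i : L) * x i ≠ algebraMap ℂ L c ∧
      ∏ i, y i ^ m i ≠ algebraMap ℂ L c)
    (hrot : ∀ B : Matrix (Fin n) (Fin n) ℤ, ((B.map (Int.cast : ℤ → ℚ)).rank : Cardinal) ≤
      Algebra.trdeg ℂ (Algebra.adjoin ℂ (Set.range (fun i => ∑ j, (B i j : L) * x j) ∪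
        Set.range fun i => ∏ j, y j ^ B i j)))
    (h : (2 * n : Cardinal) ≤ Algebra.trdeg ℂ (Algebra.adjoin ℂ (Set.range x ∪ Set.range y)) + 2)
    (Dp : MvPolynomial (Fin n ⊕ Fin n) ℂ) (hD : aeval (Sum.elim x y) Dp ≠ 0) :
    ∃ p : Fin n → ℂ, (∀ f : MvPolynomial (Fin n ⊕ Fin n) ℂ, aeval (Sum.elim x y) f = 0 →
      eval (Sum.elim p fun i => Complex.exp (p i)) f = 0) ∧
      eval (Sum.elim p fun i => Complex.exp (p i)) Dp ≠ 0 := by
  classical
  set P := FractionRing (Polynomial L) with hP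
  set Ω := AlgebraicClosure P with hΩ
  let i₁ : L →ₐ[ℂ] P := (IsScalarTower.toAlgHom ℂ (Polynomial L) P).comp
    ((Polynomial.CAlgHom (R := L) (A := L)).restrictScalars ℂ)
  let i₂ : P →ₐ[ℂ] Ω := IsScalarTower.toAlgHom ℂ P Ω
  set i : L →ₐ[ℂ] Ω := i₂.comp i₁ with hi
  set τ₁ : P := algebraMap (Polynomial L) P Polynomial.X with hτ₁
  set τ : Ω := i₂ τ₁ with hτ
  have hsum : ∀ f : MvPolynomial (Fin n ⊕ Fin n) ℂ,
      aeval (Sum.elim (fun j => i (x j)) fun j => i (y j)) f = i (aeval (Sum.elim x y) f) := by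
    intro f
    have h1 : Sum.elim (fun j => i (x j)) (fun j => i (y j)) = fun j => i (Sum.elim x y j) := by
      funext j
      rcases j with j | j <;> rfl
    rw [h1, ← comp_aeval_apply]
  -- the transcendental element
  have hτcl : τ ∉ cl (Set.range (fun j => i (x j)) ∪ Set.range fun j => i (y j)) := by
    intro hcl
    have e1 : Set.range (fun j => i (x j)) ∪ Set.range (fun j => i (y j)) =
        i₂ '' (i₁ '' (Set.range x ∪ Set.range y)) := by
      rw [Set.image_image, Set.image_union, ← Set.range_comp, ← Set.range_comp]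
      rfl
    rw [e1, hτ, OV.mem_cl_map, OV.mem_cl] at hcl
    -- `τ₁` would be algebraic over `L`
    have h1 : IsAlgebraic (algebraMap L P).range τ₁ := by
      have h2 : (Algebra.adjoin ℂ (i₁ '' (Set.range x ∪ Set.range y)) : Set P) ⊆
          ((algebraMap L P).range : Set P) := by
        have h3 : Algebra.adjoin ℂ (i₁ '' (Set.range x ∪ Set.range y)) ≤ i₁.range := by
          rw [Algebra.adjoin_le_iff]
          rintro _ ⟨a, -, rfl⟩
          exact ⟨a, rfl⟩
        intro a ha
        obtain ⟨b, hb⟩ := h3 ha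
        exact ⟨b, by rw [← hb]; rfl⟩
      obtain ⟨q, hq0, hq⟩ := hcl
      let σ : Algebra.adjoin ℂ (i₁ '' (Set.range x ∪ Set.range y)) →+* (algebraMap L P).range :=
        RingHom.codRestrict (Algebra.adjoin ℂ (i₁ '' (Set.range x ∪ Set.range y))).val.toRingHom _
          fun a => h2 a.2
      refine ⟨q.map σ, ?_, ?_⟩
      · rw [Polynomial.map_ne_zero_iff]
        · exact hq0
        · intro a b hab
          have := congrArg Subtype.val hab
          exact Subtype.ext this
      · rw [Polynomial.aeval_def, Polynomial.eval₂_map]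
        exact hq
    have h2 : IsAlgebraic L τ₁ := by
      obtain ⟨q, hq0, hq⟩ := h1
      let e : L ≃+* (algebraMap L P).range := RingEquiv.ofBijective (algebraMap L P).rangeRestrict
        ⟨fun a b hab => (algebraMap L P).injective (congrArg Subtype.val hab),
          (algebraMap L P).rangeRestrict_surjective⟩
      refine ⟨q.map e.symm.toRingHom, ?_, ?_⟩
      · rw [Polynomial.map_ne_zero_iff]
        · exact hq0
        · exact e.symm.injective
      · rw [Polynomial.aeval_def, Polynomial.eval₂_map]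
        have h3 : (algebraMap L P).comp e.symm.toRingHom =
            algebraMap (algebraMap L P).range P := by
          refine RingHom.ext fun a => ?_
          obtain ⟨b, rfl⟩ := e.surjective a
          show algebraMap L P (e.symm (e b)) = _
          rw [RingEquiv.symm_apply_apply]
          rfl
        rw [h3]
        exact hq
    have h3 : IsAlgebraic L (Polynomial.X : Polynomial L) := by
      refine (isAlgebraic_algebraMap_iff (R := L) (S := Polynomial L) (A := P) ?_).1 h2
      exact IsFractionRing.injective _ _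
    exact Polynomial.transcendental_X L h3
  have hadd : ∀ m : Fin n → ℤ, m ≠ 0 → ¬ IsConst (lin m fun j => i (x j)) := by
    rintro m hm ⟨c, hc⟩
    rw [lin_map, ← i.commutes c] at hc
    exact (hfree m hm c).1 (i.injective hc)
  have hmul : ∀ m : Fin n → ℤ, m ≠ 0 → ¬ IsConst (mon m fun j => i (y j)) := by
    rintro m hm ⟨c, hc⟩
    rw [mon_map, ← i.commutes c] at hc
    exact (hfree m hm c).2 (i.injective hc)
  have htd : (2 * n : ℕ∞) ≤ td (Set.range (fun j => i (x j)) ∪
      Set.range fun j => i (y j)) + 2 := by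
    have e1 : Set.range (fun j => i (x j)) ∪ Set.range (fun j => i (y j)) =
        i '' (Set.range x ∪ Set.range y) := by
      rw [Set.image_union, ← Set.range_comp, ← Set.range_comp]
      rfl
    by_cases hn1 : n ≤ 1
    · have hnn : n = 1 := by omega
      subst hnn
      norm_num
    · obtain ⟨k, rfl⟩ : ∃ k, n = k + 1 := ⟨n - 1, by omega⟩
      have h1 : ((2 * k : ℕ) : ℕ∞) ≤ td (Set.range (fun j => i (x j)) ∪
          Set.range fun j => i (y j)) := by
        apply OV.le_td_of_trdeg_adjoin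
        rw [e1, OV.trdeg_adjoin_image]
        have h2 : ((2 * k : ℕ) : Cardinal) + 2 ≤ Algebra.trdeg ℂ
            (Algebra.adjoin ℂ (Set.range x ∪ Set.range y)) + 2 := by
          refine le_trans (le_of_eq ?_) h
          push_cast
          ring
        by_contra hcon
        rw [not_le] at hcon
        obtain ⟨a, ha⟩ := Cardinal.lt_aleph0.1 (hcon.trans Cardinal.natCast_lt_aleph0)
        rw [ha] at h2 hcon
        have h3 : 2 * k + 2 ≤ a + 2 := by exact_mod_cast h2
        have h4 : a < 2 * k := by exact_mod_cast hcon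
        omega
      calc (2 * ((k + 1 : ℕ) : ℕ∞)) = ((2 * k : ℕ) : ℕ∞) + 2 := by push_cast; ring
        _ ≤ _ := by gcongr
  obtain ⟨p, hp, hpD⟩ := dense_of_trans (ξ := fun j => i (x j)) (η := fun j => i (y j)) hn
    (fun j h0 => hy j ((map_eq_zero_iff i i.injective).1 h0)) hadd hmul (rot_of_matrix i x y hrot)
    htd hτcl Dp (by rw [hsum]; exact fun h0 => hD ((map_eq_zero_iff i i.injective).1 h0))
  exact ⟨p, fun f hf => hp f (by rw [hsum, hf, map_zero]), hpD⟩

end Pool.Agent.Lib.MP_209724_lc.CT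
end
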