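import Mathlib
import Pool.Agent.Lib.MP_209724_lc.CT.Main
import Pool.Agent.Lib.MP_209724_lc.OV.Transfer
import Pool.Agent.Lib.MP_209724_lc.SC2.Final

section

namespace Pool.Agent.Lib.MP_209724_lc.CT

open MvPolynomial AlgebraicIndependent
open OV (cl td lin mon HasExp IsConst)

private theorem rank_ind {n r : ℕ} {v : Fin r → Fin n → ℤ} (hv : LinearIndependent ℤ v) :
    ∃ B : Matrix (Fin n) (Fin n) ℤ, (∀ i, (∃ k, B i = v k) ∨ B i = 0) ∧
      r ≤ (B.map (Int.cast : ℤ → ℚ)).rank := by
  classical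
  let φ : (Fin n → ℤ) →ₗ[ℤ] (Fin n → ℚ) :=
    { toFun := fun m j => (m j : ℚ)
      map_add' := fun a b => by
        funext j
        simp
      map_smul' := fun a b => by
        funext j
        simp }
  have hφ : LinearMap.ker φ = ⊥ := by
    rw [LinearMap.ker_eq_bot]
    intro a b hab
    funext j
    have := congrFun hab j
    exact Int.cast_injective this
  have h1 : LinearIndependent ℤ (φ ∘ v) := hv.map' φ hφ
  have hind : LinearIndependent ℚ (φ ∘ v) := (LinearIndependent.iff_fractionRing ℤ ℚ).1 h1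
  have hrn : r ≤ n := by
    have := hind.fintype_card_le_finrank
    simpa using this
  refine ⟨fun i => if h : (i : ℕ) < r then v ⟨i, h⟩ else 0, fun i => ?_, ?_⟩
  · simp only
    split_ifs with h
    · exact Or.inl ⟨_, rfl⟩
    · exact Or.inr rfl
  · rw [Matrix.rank_eq_finrank_span_row]
    have h1 : Submodule.span ℚ (Set.range (φ ∘ v)) ≤
        Submodule.span ℚ (Set.range (Matrix.row (Matrix.map
          (fun i => if h : (i : ℕ) < r then v ⟨i, h⟩ else 0 : Matrix (Fin n) (Fin n) ℤ)
          (Int.cast : ℤ → ℚ)))) := by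
      apply Submodule.span_mono
      rintro _ ⟨k, rfl⟩
      refine ⟨⟨k, k.2.trans_le hrn⟩, ?_⟩
      funext j
      simp [Matrix.row, Matrix.map_apply, φ]
    have h2 := Submodule.finrank_mono h1
    rw [finrank_span_eq_card hind] at h2
    simpa using h2

/-- **Few equations**, for tuples in an arbitrary field. Proof. As `OV.transfer`: pass to the algebraic
closure of `L` (`OV.hasExp_of_map`), translate the conditions by `OV.le_td_of_trdeg_adjoin`,
`OV.td_of_trdeg_adjoin`, `OV.trdeg_adjoin`, `OV.trdeg_adjoin_image`, and apply `few`. `Rot`: for linearly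
independent `v : Fin r → Fin n → ℤ` we have `r ≤ n`; apply `hrot` to the matrix with the rows `v` and zero rows,
of rank `r` (compare `OV.rank_two`); zero rows give `lin 0 = 0`, `mon 0 = 1`. -/
theorem transfer {n : ℕ} {L : Type} [Field L] [Algebra ℂ L] (hn : 0 < n) (x y : Fin n → L)
    (hy : ∀ i, y i ≠ 0)
    (hfree : ∀ m : Fin n → ℤ, m ≠ 0 → ∀ c : ℂ, ∑ i, (m i : L) * x i ≠ algebraMap ℂ L c ∧
      ∏ i, y i ^ m i ≠ algebraMap ℂ L c)
    (hrot : ∀ B : Matrix (Fin n) (Fin n) ℤ, ((B.map (Int.cast : ℤ → ℚ)).rank : Cardinal) ≤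
      Algebra.trdeg ℂ (Algebra.adjoin ℂ (Set.range (fun i => ∑ j, (B i j : L) * x j) ∪
        Set.range fun i => ∏ j, y j ^ B i j)))
    (h : (2 * n : Cardinal) ≤ Algebra.trdeg ℂ (Algebra.adjoin ℂ (Set.range x ∪ Set.range y)) + 3 ∨
      Algebra.trdeg ℂ (Algebra.adjoin ℂ (Set.range x)) + n ≤
        Algebra.trdeg ℂ (Algebra.adjoin ℂ (Set.range x ∪ Set.range y)) + 1) : HasExp x y := by
  classical
  set Ω := AlgebraicClosure L
  set i : L →ₐ[ℂ] Ω := IsScalarTower.toAlgHom ℂ L Ω with hi
  apply OV.hasExp_of_map i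
  have hlin : ∀ m : Fin n → ℤ, lin m (fun j => i (x j)) = i (∑ j, (m j : L) * x j) := by
    intro m
    rw [lin, map_sum]
    refine Finset.sum_congr rfl fun j _ => ?_
    rw [map_mul, map_intCast, map_intCast]
  have hmon : ∀ m : Fin n → ℤ, mon m (fun j => i (y j)) = i (∏ j, y j ^ m j) := by
    intro m
    rw [mon, map_prod]
    refine Finset.prod_congr rfl fun j _ => ?_
    rw [map_zpow₀]
  have hcB : ∀ (B : Matrix (Fin n) (Fin n) ℤ) (k : ℕ), k ≤ (B.map (Int.cast : ℤ → ℚ)).rank →
      (k : ℕ∞) ≤ td (Set.range (fun j => lin (B j) fun j => i (x j)) ∪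
        Set.range fun j => mon (B j) fun j => i (y j)) := by
    intro B k hk
    apply OV.le_td_of_trdeg_adjoin
    have e1 : Set.range (fun j => lin (B j) fun j => i (x j)) ∪
        Set.range (fun j => mon (B j) fun j => i (y j)) =
        i '' (Set.range (fun i => ∑ j, (B i j : L) * x j) ∪
          Set.range fun i => ∏ j, y j ^ B i j) := by
      rw [Set.image_union, ← Set.range_comp, ← Set.range_comp]
      congr 1
      · congr 1
        funext j
        exact hlin (B j)
      · congr 1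
        funext j
        exact hmon (B j)
    rw [e1, OV.trdeg_adjoin_image]
    refine le_trans ?_ (hrot B)
    exact_mod_cast hk
  have hfin : ∀ s : Set Ω, s.Finite → ∃ t : ℕ, td s = t := by
    intro s hs
    have h1 : td s ≠ ⊤ := by
      refine ne_top_of_le_ne_top ?_ (OV.td_le_encard s)
      exact Set.encard_ne_top_iff.2 hs
    obtain ⟨m, hm⟩ := ENat.ne_top_iff_exists.1 h1
    exact ⟨m, hm.symm⟩
  have e1 : Set.range (fun j => i (x j)) = i '' Set.range x := by
    rw [← Set.range_comp]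
    rfl
  have e2 : Set.range (fun j => i (y j)) = i '' Set.range y := by
    rw [← Set.range_comp]
    rfl
  obtain ⟨t, ht⟩ := hfin (Set.range (fun j => i (x j)) ∪ Set.range fun j => i (y j))
    ((Set.finite_range _).union (Set.finite_range _))
  obtain ⟨d, hd⟩ := hfin (Set.range (fun j => i (x j))) (Set.finite_range _)
  have ht' : Algebra.trdeg ℂ (Algebra.adjoin ℂ (Set.range x ∪ Set.range y)) = t := by
    rw [← OV.trdeg_adjoin_image i, Set.image_union, ← e1, ← e2]
    exact OV.trdeg_adjoin _ ht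
  have hd' : Algebra.trdeg ℂ (Algebra.adjoin ℂ (Set.range x)) = d := by
    rw [← OV.trdeg_adjoin_image i, ← e1]
    exact OV.trdeg_adjoin _ hd
  rw [ht', hd'] at h
  refine few hn _ _ (fun j h0 => hy j ((map_eq_zero_iff i i.injective).1 h0)) ?_ ?_ ?_ ?_
  · rintro m hm ⟨c, hc⟩
    rw [hlin, ← i.commutes c] at hc
    exact (hfree m hm c).1 (i.injective hc)
  · rintro m hm ⟨c, hc⟩
    rw [hmon, ← i.commutes c] at hc
    exact (hfree m hm c).2 (i.injective hc)
  · intro r v hv
    obtain ⟨B, hB, hrank⟩ := rank_ind hv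
    refine (hcB B r hrank).trans (OV.td_le_of_subset_cl ?_)
    rintro _ (⟨j, rfl⟩ | ⟨j, rfl⟩)
    · simp only
      rcases hB j with ⟨k, h1⟩ | h1
      · rw [h1]
        exact OV.subset_cl _ (Or.inl ⟨v k, ⟨k, rfl⟩, rfl⟩)
      · rw [h1]
        refine OV.isConst_mem_cl ⟨0, ?_⟩
        simp [lin]
    · simp only
      rcases hB j with ⟨k, h1⟩ | h1
      · rw [h1]
        exact OV.subset_cl _ (Or.inr ⟨v k, ⟨k, rfl⟩, rfl⟩)
      · rw [h1]
        refine OV.isConst_mem_cl ⟨1, ?_⟩
        simp [mon]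
  · rw [ht, hd]
    rcases h with h | h
    · left
      have h1 : 2 * n ≤ t + 3 := by exact_mod_cast h
      exact_mod_cast h1
    · right
      have h1 : d + n ≤ t + 1 := by exact_mod_cast h
      exact_mod_cast h1

end Pool.Agent.Lib.MP_209724_lc.CT
end

section

/-!
# The dimension of a rotund variety is at least `n`
-/

namespace Pool.Agent.Lib.MP_209724_lc.CT

open MvPolynomial

/-- A rotund variety has dimension at least `n`. -/
theorem dim_ge {n : ℕ} (Q : Ideal (MvPolynomial (Fin n ⊕ Fin n) ℂ)) [Q.IsPrime]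
    {L : Type} [Field L] [Algebra ℂ L] (x y : Fin n → L)
    (hxy : ∀ f : MvPolynomial (Fin n ⊕ Fin n) ℂ, aeval (Sum.elim x y) f = 0 ↔ f ∈ Q)
    (hrot : ∀ B : Matrix (Fin n) (Fin n) ℤ,
      ((B.map (Int.cast : ℤ → ℚ)).rank : Cardinal) ≤
        Algebra.trdeg ℂ (Algebra.adjoin ℂ (Set.range (fun i => ∑ j, (B i j : L) * x j) ∪
          Set.range fun i => ∏ j, y j ^ B i j))) :
    (n : Cardinal) ≤ Algebra.trdeg ℂ (MvPolynomial (Fin n ⊕ Fin n) ℂ ⧸ Q) := by
  have h1 := hrot 1
  have h2 : ((1 : Matrix (Fin n) (Fin n) ℤ).map (Int.cast : ℤ → ℚ)) = 1 := by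
    ext i j
    by_cases hij : i = j
    · subst hij; simp
    · simp [Matrix.one_apply_ne hij]
  have h3 : (Set.range fun i => ∑ j, (((1 : Matrix (Fin n) (Fin n) ℤ) i j : ℤ) : L) * x j) =
      Set.range x := by
    congr 1
    funext i
    rw [Finset.sum_eq_single i (fun j _ hj => by
      rw [Matrix.one_apply_ne hj.symm, Int.cast_zero, zero_mul])
      (fun h => absurd (Finset.mem_univ _) h), Matrix.one_apply_eq, Int.cast_one, one_mul]
  have h4 : (Set.range fun i => ∏ j, y j ^ (1 : Matrix (Fin n) (Fin n) ℤ) i j) =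
      Set.range y := by
    congr 1
    funext i
    rw [Finset.prod_eq_single i (fun j _ hj => by
      rw [Matrix.one_apply_ne hj.symm, zpow_zero])
      (fun h => absurd (Finset.mem_univ _) h), Matrix.one_apply_eq, zpow_one]
  rw [h3, h4, h2, Matrix.rank_one, Fintype.card_fin, SC2.trdeg_adjoin_gen Q x y hxy] at h1
  exact h1

end Pool.Agent.Lib.MP_209724_lc.CT
end
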